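import Pool.Agent.Lib.MP_570bef_ntLV.FCore

/-!
# The covering lemma: core of the level set
-/

set_option autoImplicit false

namespace Pool.Agent.Lib.MP_570bef_ntLV

open Finset
open scoped Pointwise

variable {PP : ℕ → Finset ℕ} {P : ℕ}

/-- `F*_D(β) = ∑_{E ∈ A, (E, D) = 1} |f(E^k β)|` -/
noncomputable def Fst (k : ℕ) (S A : Finset ℕ) (D : ℕ) (β : ℝ) : ℝ :=
  ∑ E ∈ A.filter (fun E => E.Coprime D), ‖fs k S ((E : ℝ) ^ k * β)‖

theorem Fst_nonneg (k : ℕ) (S A : Finset ℕ) (D : ℕ) (β : ℝ) : 0 ≤ Fst k S A D β :=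
  sum_nonneg fun _ _ => norm_nonneg _

theorem Fst_le (k : ℕ) (S A : Finset ℕ) (D : ℕ) (β : ℝ) : Fst k S A D β ≤ A.card * S.card := by
  unfold Fst
  calc ∑ E ∈ A.filter (fun E => E.Coprime D), ‖fs k S ((E : ℝ) ^ k * β)‖
      ≤ ∑ E ∈ A.filter (fun E => E.Coprime D), (S.card : ℝ) :=
        sum_le_sum fun _ _ => norm_fs_le _ _ _
    _ = ((A.filter (fun E => E.Coprime D)).card : ℝ) * S.card := by
        rw [sum_const, nsmul_eq_mul]
    _ ≤ _ := by
        have : (A.filter (fun E => E.Coprime D)).card ≤ A.card := card_filter_le _ _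
        gcongr

/-- number of prime factors of an element of a product set -/
theorem PS_primeFactors (hB : Blk PP P) (J : Finset ℕ) :
    ∀ x ∈ PS PP J, x.primeFactors.card ≤ J.card := by
  classical
  induction J using Finset.induction_on with
  | empty =>
    intro x hx
    rw [PS_empty, mem_singleton] at hx
    simp [hx]
  | insert i J hi ih =>
    intro x hx
    rw [PS_insert hi, mem_mul] at hx
    obtain ⟨a, ha, b, hb, rfl⟩ := hx
    have ha' := hB.prime i a ha
    rw [Nat.primeFactors_mul ha'.ne_zero (PS_prime_dvd hB J b hb).1.ne',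
      card_insert_of_notMem hi, Nat.Prime.primeFactors ha']
    refine (card_union_le _ _).trans ?_
    rw [card_singleton, add_comm]
    exact Nat.add_le_add_right (ih b hb) 1

/-- if few elements of `G'` share a prime with `D`, half of them are coprime to `D` -/
theorem half_coprime (hB : Blk PP P) (J : Finset ℕ) (G' : Finset ℕ)
    (R Q : ℝ) (hR : 0 ≤ R) (hQ : 2 * J.card * R ≤ Q) (hQ0 : 0 < Q)
    (hcard : ∀ i ∈ J, Q ≤ (PP i).card)
    (hsh : ∀ i ∈ J, ∀ p ∈ PP i, ((G'.filter (p ∣ ·)).card : ℝ) * (PP i).card ≤ R * G'.card)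
    (D : ℕ) (hD : D ∈ PS PP J) :
    (G'.card : ℝ) ≤ 2 * (G'.filter (fun E => E.Coprime D)).card := by
  classical
  have h1 : (G'.filter (fun E => ¬ E.Coprime D)).card ≤
      ∑ p ∈ D.primeFactors, (G'.filter (p ∣ ·)).card := by
    refine le_trans (card_le_card ?_) card_biUnion_le
    intro E hE
    rw [mem_filter] at hE
    obtain ⟨p, hp, hpE, hpD⟩ := Nat.Prime.not_coprime_iff_dvd.1 hE.2
    rw [mem_biUnion]
    exact ⟨p, Nat.mem_primeFactors.2 ⟨hp, hpD, (PS_prime_dvd hB J D hD).1.ne'⟩,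
      mem_filter.2 ⟨hE.1, hpE⟩⟩
  have h2 : ∀ p ∈ D.primeFactors, ((G'.filter (p ∣ ·)).card : ℝ) ≤ R * G'.card / Q := by
    intro p hp
    obtain ⟨i, hi, hpi⟩ := (PS_prime_dvd hB J D hD).2 p (Nat.prime_of_mem_primeFactors hp)
      (Nat.dvd_of_mem_primeFactors hp)
    rw [le_div_iff₀ hQ0]
    refine le_trans ?_ (hsh i hi p hpi)
    have := hcard i hi
    gcongr
  have h3 : ((G'.filter (fun E => ¬ E.Coprime D)).card : ℝ) ≤ G'.card / 2 := by
    calc ((G'.filter (fun E => ¬ E.Coprime D)).card : ℝ)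
        ≤ ∑ p ∈ D.primeFactors, ((G'.filter (p ∣ ·)).card : ℝ) := by exact_mod_cast h1
      _ ≤ ∑ p ∈ D.primeFactors, R * G'.card / Q := sum_le_sum h2
      _ = D.primeFactors.card * (R * G'.card / Q) := by rw [sum_const, nsmul_eq_mul]
      _ ≤ J.card * (R * G'.card / Q) := by
          have : (D.primeFactors.card : ℝ) ≤ J.card := by
            exact_mod_cast PS_primeFactors hB J D hD
          gcongr
      _ = (2 * J.card * R) * G'.card / (2 * Q) := by field_simp
      _ ≤ Q * G'.card / (2 * Q) := by gcongr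
      _ = G'.card / 2 := by field_simp
  have h4 : (G'.filter (fun E => E.Coprime D)).card +
      (G'.filter (fun E => ¬ E.Coprime D)).card = G'.card :=
    card_filter_add_card_filter_not (s := G') (fun E => E.Coprime D)
  have h5 : ((G'.filter (fun E => E.Coprime D)).card : ℝ) +
      (G'.filter (fun E => ¬ E.Coprime D)).card = G'.card := by exact_mod_cast h4
  linarith

open Classical in
/-- good elements of `A` for the point `β` -/
noncomputable def gd (k : ℕ) (S A : Finset ℕ) (t V β : ℝ) : Finset ℕ :=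
  A.filter (fun D => (S.card : ℝ) ≤ t * ‖fs k S ((D : ℝ) ^ k * β)‖ ∧ V ≤ Fst k S A D β)

theorem layer (W : ℕ) (x s : ℝ) (hs : 0 ≤ s) (hx : x ≤ s) :
    x ≤ s / 2 ^ W + ∑ w ∈ range W, if s ≤ 2 ^ (w + 1) * x then s / 2 ^ w else 0 := by
  induction W with
  | zero => simpa using hx
  | succ W ih =>
    rw [sum_range_succ]
    have hsum : 0 ≤ ∑ w ∈ range W, if s ≤ 2 ^ (w + 1) * x then s / 2 ^ w else 0 :=
      sum_nonneg fun w _ => by
        split_ifs
        · positivity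
        · exact le_rfl
    by_cases h : s ≤ 2 ^ (W + 1) * x
    · rw [if_pos h]
      have : 0 ≤ s / 2 ^ (W + 1) := by positivity
      linarith
    · rw [if_neg h]
      push Not at h
      have : x ≤ s / 2 ^ (W + 1) := by
        rw [le_div_iff₀ (by positivity)]
        linarith
      linarith

theorem fs_PS_union (hB : Blk PP P) (k : ℕ) {I J : Finset ℕ} (hIJ : Disjoint J I) (α : ℝ) :
    fs k (PS PP (J ∪ I)) α = ∑ D ∈ PS PP J, fs k (PS PP I) ((D : ℝ) ^ k * α) := by
  unfold fs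
  rw [PS_sum hB hIJ]
  refine sum_congr rfl fun D _ => sum_congr rfl fun y _ => ?_
  congr 1
  push_cast
  ring

theorem PS_nonempty (hB : Blk PP P) (J : Finset ℕ) (h : ∀ i ∈ J, (PP i).Nonempty) :
    (PS PP J).Nonempty := by
  rw [← card_pos, PS_card_eq hB]
  exact prod_pos fun i hi => card_pos.2 (h i hi)

theorem exists_level (hB : Blk PP P) (k : ℕ) {I J : Finset ℕ} (hIJ : Disjoint J I)
    (hI : (PS PP I).Nonempty) (hJ : (PS PP J).Nonempty) {L : ℝ} (hL : 1 ≤ L) {W : ℕ}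
    (hW : 2 * L ≤ 2 ^ W) {α : ℝ}
    (hα : ((PS PP (J ∪ I)).card : ℝ) / L ≤ ‖fs k (PS PP (J ∪ I)) α‖) :
    ∃ w < W, ((PS PP J).card : ℝ) * 2 ^ w ≤ 2 * L * W * ((PS PP J).filter (fun D : ℕ =>
      ((PS PP I).card : ℝ) ≤ 2 ^ (w + 1) * ‖fs k (PS PP I) ((D : ℝ) ^ k * α)‖)).card := by
  by_contra hcon
  push Not at hcon
  set s : ℝ := ((PS PP I).card : ℝ) with hs
  set A : ℝ := ((PS PP J).card : ℝ) with hA
  have hs0 : 0 < s := by rw [hs]; exact_mod_cast hI.card_pos
  have hA0 : 0 < A := by rw [hA]; exact_mod_cast hJ.card_pos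
  have hL0 : 0 < L := by linarith
  have hW0 : 0 < W := by
    rcases Nat.eq_zero_or_pos W with h | h
    · subst h
      simp at hW
      linarith
    · exact h
  have hWr : (0 : ℝ) < W := by exact_mod_cast hW0
  rw [PS_card hB hIJ, fs_PS_union hB k hIJ] at hα
  push_cast at hα
  have h1 : A * s / L ≤ ∑ D ∈ PS PP J, ‖fs k (PS PP I) ((D : ℝ) ^ k * α)‖ :=
    hα.trans (norm_sum_le _ _)
  have h2 : ∑ D ∈ PS PP J, ‖fs k (PS PP I) ((D : ℝ) ^ k * α)‖ ≤
      ∑ D ∈ PS PP J, (s / 2 ^ W + ∑ w ∈ range W,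
        if s ≤ 2 ^ (w + 1) * ‖fs k (PS PP I) ((D : ℝ) ^ k * α)‖ then s / 2 ^ w else 0) :=
    sum_le_sum fun D _ => layer W _ s hs0.le (norm_fs_le _ _ _)
  have h3 : ∑ D ∈ PS PP J, (s / 2 ^ W + ∑ w ∈ range W,
        if s ≤ 2 ^ (w + 1) * ‖fs k (PS PP I) ((D : ℝ) ^ k * α)‖ then s / 2 ^ w else 0) =
      A * (s / 2 ^ W) + ∑ w ∈ range W, (((PS PP J).filter (fun D : ℕ =>
        s ≤ 2 ^ (w + 1) * ‖fs k (PS PP I) ((D : ℝ) ^ k * α)‖)).card : ℝ) * (s / 2 ^ w) := by
    rw [sum_add_distrib, sum_const, nsmul_eq_mul, sum_comm]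
    congr 1
    refine sum_congr rfl fun w _ => ?_
    rw [← sum_filter, sum_const, nsmul_eq_mul]
  have h4 : ∑ w ∈ range W, (((PS PP J).filter (fun D : ℕ =>
        s ≤ 2 ^ (w + 1) * ‖fs k (PS PP I) ((D : ℝ) ^ k * α)‖)).card : ℝ) * (s / 2 ^ w) <
      ∑ w ∈ range W, A * s / (2 * L * W) := by
    refine sum_lt_sum_of_nonempty (nonempty_range_iff.2 hW0.ne') fun w hw => ?_
    have h5 := hcon w (mem_range.1 hw)
    rw [lt_div_iff₀ (by positivity)]
    calc (((PS PP J).filter (fun D : ℕ =>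
        s ≤ 2 ^ (w + 1) * ‖fs k (PS PP I) ((D : ℝ) ^ k * α)‖)).card : ℝ) * (s / 2 ^ w) *
          (2 * L * W)
        = (2 * L * W * ((PS PP J).filter (fun D : ℕ =>
        s ≤ 2 ^ (w + 1) * ‖fs k (PS PP I) ((D : ℝ) ^ k * α)‖)).card) * (s / 2 ^ w) := by ring
      _ < (A * 2 ^ w) * (s / 2 ^ w) := by
          have : 0 < s / 2 ^ w := by positivity
          gcongr
      _ = A * s := by field_simp
  have h6 : ∑ w ∈ range W, A * s / (2 * L * W) = A * s / (2 * L) := by
    rw [sum_const, card_range, nsmul_eq_mul]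
    field_simp
  have h7 : A * (s / 2 ^ W) ≤ A * s / (2 * L) := by
    rw [mul_div_assoc]
    gcongr
  have h8 : A * s / (2 * L) + A * s / (2 * L) = A * s / L := by
    field_simp
    ring
  linarith

/-- **Covering lemma.** -/
theorem cover (hB : Blk PP P) (k : ℕ) {I J : Finset ℕ} (hIJ : Disjoint J I)
    (hI : (PS PP I).Nonempty) {L : ℝ} (hL : 1 ≤ L) {W : ℕ} (hW : 2 * L ≤ 2 ^ W) {R Q : ℝ}
    (hR : 1 ≤ R) (hQ : 2 * J.card * R ≤ Q) (hQ0 : 0 < Q) (hcard : ∀ i ∈ J, Q ≤ (PP i).card)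
    {α : ℝ} (hα : ((PS PP (J ∪ I)).card : ℝ) / L ≤ ‖fs k (PS PP (J ∪ I)) α‖) :
    ∃ w < W, ∃ Jc ⊆ J, ∃ c ∈ PS PP Jc, 2 ^ (w + 1) * R ^ Jc.card ≤ 4 * L * W ∧
      R ^ Jc.card * 2 ^ w * (PS PP (J \ Jc)).card ≤
        2 * L * W * (gd k (PS PP I) (PS PP (J \ Jc)) (2 ^ (w + 1))
          ((PS PP (J \ Jc)).card * (PS PP I).card * (R ^ Jc.card / (8 * L * W)))
          ((c : ℝ) ^ k * α)).card := by
  classical
  have hJ : (PS PP J).Nonempty := PS_nonempty hB J fun i hi => by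
    rw [← card_pos]
    have := hcard i hi
    have h1 : (0 : ℝ) < (PP i).card := by linarith
    exact_mod_cast h1
  obtain ⟨w, hw, hlev⟩ := exists_level hB k hIJ hI hJ hL hW hα
  set Gw := (PS PP J).filter (fun D : ℕ =>
      ((PS PP I).card : ℝ) ≤ 2 ^ (w + 1) * ‖fs k (PS PP I) ((D : ℝ) ^ k * α)‖) with hGw
  have hs0 : (0 : ℝ) < (PS PP I).card := by exact_mod_cast hI.card_pos
  have hA0 : (0 : ℝ) < (PS PP J).card := by exact_mod_cast hJ.card_pos
  have hL0 : 0 < L := by linarith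
  have hWr : (0 : ℝ) < W := by
    have : 0 < W := by omega
    exact_mod_cast this
  have hGne : Gw.Nonempty := by
    rw [← card_pos]
    rcases Nat.eq_zero_or_pos Gw.card with h | h
    · exfalso
      rw [h] at hlev
      have : 0 < ((PS PP J).card : ℝ) * 2 ^ w := by positivity
      simp at hlev
      linarith
    · exact h
  obtain ⟨Jc, hJc, c, hc, G', hG', hne', hcD, hdens, hsh⟩ :=
    core hB R (by linarith) J.card J rfl Gw (filter_subset _ _) hGne
  have hJ'card : ∀ i ∈ J \ Jc, Q ≤ (PP i).card := fun i hi => hcard i (mem_sdiff.1 hi).1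
  have hJ'le : ((J \ Jc).card : ℝ) ≤ J.card := by exact_mod_cast card_le_card sdiff_subset
  have hQ' : 2 * ((J \ Jc).card : ℝ) * R ≤ Q := by
    refine le_trans ?_ hQ
    have : 0 ≤ R := by linarith
    gcongr
  have hG'0 : (0 : ℝ) < G'.card := by exact_mod_cast hne'.card_pos
  -- the size of `G'`
  have hsize : R ^ Jc.card * 2 ^ w * ((PS PP (J \ Jc)).card : ℝ) ≤ 2 * L * W * G'.card := by
    have h1 : (R ^ Jc.card * 2 ^ w * ((PS PP (J \ Jc)).card : ℝ)) * (PS PP J).card ≤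
        (2 * L * W * G'.card) * (PS PP J).card := by
      calc (R ^ Jc.card * 2 ^ w * ((PS PP (J \ Jc)).card : ℝ)) * (PS PP J).card
          = R ^ Jc.card * ((PS PP (J \ Jc)).card : ℝ) * ((PS PP J).card * 2 ^ w) := by ring
        _ ≤ R ^ Jc.card * ((PS PP (J \ Jc)).card : ℝ) * (2 * L * W * Gw.card) := by gcongr
        _ = 2 * L * W * (R ^ Jc.card * Gw.card * (PS PP (J \ Jc)).card) := by ring
        _ ≤ 2 * L * W * (G'.card * (PS PP J).card) := by gcongr
        _ = _ := by ring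
    exact le_of_mul_le_mul_right h1 hA0
  have hgd : ∀ D ∈ G', D ∈ gd k (PS PP I) (PS PP (J \ Jc)) (2 ^ (w + 1))
      ((PS PP (J \ Jc)).card * (PS PP I).card * (R ^ Jc.card / (8 * L * W)))
      ((c : ℝ) ^ k * α) := by
    have hval : ∀ D ∈ G', ((PS PP I).card : ℝ) ≤
        2 ^ (w + 1) * ‖fs k (PS PP I) ((D : ℝ) ^ k * ((c : ℝ) ^ k * α))‖ := by
      intro D hD
      have h := hcD D hD
      rw [hGw, mem_filter] at h
      have h2 : ((c * D : ℕ) : ℝ) ^ k * α = (D : ℝ) ^ k * ((c : ℝ) ^ k * α) := by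
        push_cast
        ring
      rw [← h2]
      exact h.2
    intro D hD
    rw [gd, mem_filter]
    refine ⟨hG' hD, hval D hD, ?_⟩
    have hhalf := half_coprime hB (J \ Jc) G' R Q (by linarith) hQ' hQ0 hJ'card hsh D (hG' hD)
    have h3 : ((G'.filter (fun E => E.Coprime D)).card : ℝ) * ((PS PP I).card / 2 ^ (w + 1)) ≤
        Fst k (PS PP I) (PS PP (J \ Jc)) D ((c : ℝ) ^ k * α) := by
      unfold Fst
      calc ((G'.filter (fun E => E.Coprime D)).card : ℝ) * ((PS PP I).card / 2 ^ (w + 1))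
          = ∑ E ∈ G'.filter (fun E => E.Coprime D), ((PS PP I).card / 2 ^ (w + 1) : ℝ) := by
            rw [sum_const, nsmul_eq_mul]
        _ ≤ ∑ E ∈ G'.filter (fun E => E.Coprime D),
            ‖fs k (PS PP I) ((E : ℝ) ^ k * ((c : ℝ) ^ k * α))‖ := by
            refine sum_le_sum fun E hE => ?_
            rw [div_le_iff₀ (by positivity), mul_comm]
            exact hval E (mem_filter.1 hE).1
        _ ≤ _ := by
            refine sum_le_sum_of_subset_of_nonneg ?_ fun _ _ _ => norm_nonneg _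
            intro E hE
            rw [mem_filter] at hE ⊢
            exact ⟨hG' hE.1, hE.2⟩
    refine le_trans ?_ h3
    calc ((PS PP (J \ Jc)).card : ℝ) * (PS PP I).card * (R ^ Jc.card / (8 * L * W))
        = (R ^ Jc.card * 2 ^ w * ((PS PP (J \ Jc)).card : ℝ)) *
            ((PS PP I).card / (2 ^ w * (8 * L * W))) := by
          field_simp
      _ ≤ (2 * L * W * G'.card) * ((PS PP I).card / (2 ^ w * (8 * L * W))) := by gcongr
      _ = (G'.card : ℝ) * ((PS PP I).card / (4 * 2 ^ w)) := by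
          field_simp
          ring
      _ ≤ (2 * ((G'.filter (fun E => E.Coprime D)).card : ℝ)) *
            ((PS PP I).card / (4 * 2 ^ w)) := by gcongr
      _ = _ := by
          rw [pow_succ]
          field_simp
          ring
  refine ⟨w, hw, Jc, hJc, c, hc, ?_, ?_⟩
  · have h1 : ((G'.card : ℝ)) ≤ (PS PP (J \ Jc)).card := by exact_mod_cast card_le_card hG'
    have h2 : (0 : ℝ) < (PS PP (J \ Jc)).card := by linarith
    have h3 : (R ^ Jc.card * 2 ^ w) * ((PS PP (J \ Jc)).card : ℝ) ≤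
        (2 * L * W) * (PS PP (J \ Jc)).card := by
      refine hsize.trans ?_
      gcongr
    have h4 := le_of_mul_le_mul_right h3 h2
    rw [pow_succ]
    linarith
  · refine hsize.trans ?_
    have h5 : (G'.card : ℝ) ≤ (gd k (PS PP I) (PS PP (J \ Jc)) (2 ^ (w + 1))
      ((PS PP (J \ Jc)).card * (PS PP I).card * (R ^ Jc.card / (8 * L * W)))
      ((c : ℝ) ^ k * α)).card := by
      exact_mod_cast card_le_card hgd
    gcongr

end Pool.Agent.Lib.MP_570bef_ntLV
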