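import Pool.Agent.Lib.MP_570bef_ntLV.A2
import Pool.Agent.Lib.MP_570bef_ntLV.FCover
import Pool.Agent.Lib.MP_570bef_ntLM.Main

/-!
Block (A) of the LV stream: the mean value over the minor arcs from THEOREM M (rec_main), the step inequality
and the pointwise bound.
-/

set_option autoImplicit false

open MeasureTheory Set
open Pool.Agent.Lib.MP_570bef_ntLV Pool.Agent.Lib.MP_570bef_ntLC Pool.Agent.Lib.MP_570bef_ntLM

namespace LVA

/-- normalised number of large values -/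
noncomputable def nu (k : ℕ) (PP : ℕ → Finset ℕ) (P : ℕ) (n : ℕ) (l : ℝ) : ℝ :=
  (P : ℝ) ^ (k * n) * lev k (PS PP (Finset.range n)) ((P : ℝ) ^ l)

theorem nu_nonneg (k : ℕ) (PP : ℕ → Finset ℕ) (P : ℕ) (n : ℕ) (l : ℝ) : 0 ≤ nu k PP P n l := by
  unfold nu
  exact mul_nonneg (by positivity) (lev_nonneg _ _ _)

theorem nu_le (k : ℕ) (PP : ℕ → Finset ℕ) (P : ℕ) (hP : 1 ≤ P) (κ : ℝ) (hκ : 0 ≤ κ) (n : ℕ) (l : ℝ) :
    nu k PP P n l ≤ (P : ℝ) ^ ((k : ℝ) * n + κ) := by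
  have hP1 : (1 : ℝ) ≤ P := by exact_mod_cast hP
  unfold nu
  calc (P : ℝ) ^ (k * n) * lev k (PS PP (Finset.range n)) ((P : ℝ) ^ l) ≤ (P : ℝ) ^ (k * n) * 1 := by
        gcongr
        exact lev_le_one _ _ _
    _ = (P : ℝ) ^ ((k : ℝ) * n) := by
        rw [mul_one, ← Real.rpow_natCast]
        push_cast
        rfl
    _ ≤ (P : ℝ) ^ ((k : ℝ) * n + κ) := Real.rpow_le_rpow_of_exponent_le hP1 (by linarith)

/-- the level bounds in terms of L -/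
theorem level_of_nu (k M P : ℕ) (hk : 1 ≤ k) (PP : ℕ → Finset ℕ) (hP : 2 ≤ P) (ε : ℝ) (hε : ε ≤ 3 / 500)
    (h : ∀ l : ℝ, 0 ≤ l → nu k PP P M l ≤ (P : ℝ) ^ (75 * (k : ℝ) * max l ((M : ℝ) / (500 * k)) + ε * M))
    (L : ℝ) (hL : (P : ℝ) ^ ((M : ℝ) / (500 * k)) ≤ L) :
    (P : ℝ) ^ (k * M) * lev k (PS PP (Finset.range M)) L ≤
      1 * ((P : ℝ) ^ ((M : ℝ) / (500 * k))) ^ (2 * ((39 * k : ℕ) : ℝ) - 75 * k) * L ^ (75 * (k : ℝ)) := by
  have hP0 : (0 : ℝ) < P := by exact_mod_cast (by omega : 0 < P)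
  have hP1 : (1 : ℝ) < P := by exact_mod_cast (by omega : 1 < P)
  have hk0 : (0 : ℝ) < k := by exact_mod_cast (by omega : 0 < k)
  have hL0 : 0 < L := lt_of_lt_of_le (by positivity) hL
  obtain ⟨l, hl⟩ : ∃ l : ℝ, (P : ℝ) ^ l = L := ⟨Real.logb P L, Real.rpow_logb hP0 hP1.ne' hL0⟩
  have hlM : (M : ℝ) / (500 * k) ≤ l := by
    rw [← hl] at hL
    exact (Real.rpow_le_rpow_left_iff hP1).1 hL
  have hl0 : 0 ≤ l := le_trans (by positivity) hlM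
  have h1 := h l hl0
  rw [max_eq_left hlM] at h1
  unfold nu at h1
  rw [hl] at h1
  refine h1.trans ?_
  rw [one_mul, ← hl, ← Real.rpow_mul hP0.le, ← Real.rpow_mul hP0.le, ← Real.rpow_add hP0]
  apply Real.rpow_le_rpow_of_exponent_le hP1.le
  have h2 : (M : ℝ) / (500 * k) * (2 * ((39 * k : ℕ) : ℝ) - 75 * k) = 3 / 500 * M := by
    push_cast
    field_simp
    ring
  rw [h2]
  have h3 : ε * M ≤ 3 / 500 * M := by gcongr
  linarith

/-- THE MEAN VALUE OVER THE MINOR ARCS from the step inequality and the pointwise bound -/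
theorem minorMV_main (k : ℕ) (hk : 3 ≤ k) (κ ε : ℝ) (hκ : 0 ≤ κ) (hε : 0 < ε) (hε2 : ε ≤ 3 / 500)
    (H : ∀ M : ℕ, 1 ≤ M → Even M → ∃ P0 : ℕ, ∀ P ≥ P0, ∃ PP : ℕ → Finset ℕ, Blk PP P ∧
      (∀ i < M, (PP i).Nonempty) ∧ Step k M κ P (nu k PP P) ∧
      ((∀ l : ℝ, 0 ≤ l → nu k PP P (M / 2) l ≤
        (P : ℝ) ^ (75 * (k : ℝ) * max l (((M / 2 : ℕ) : ℝ) / (500 * k)) + ε * M)) →
        ∀ α : ℝ, α ∉ Mj6 k ((2 * P) ^ M) →
          ‖fs k (PS PP (Finset.range M)) α‖ ≤ (PS PP (Finset.range M)).card / (P : ℝ) ^ ((M : ℝ) / (500 * k)))) :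
    MinorMV k (39 * k) := by
  obtain ⟨M0, hM0⟩ := rec_main k hk κ ε hκ hε
  have hk0 : (0 : ℝ) < k := by exact_mod_cast (by omega : 0 < k)
  obtain ⟨P0, hP0⟩ := H (2 * (M0 + 1)) (by omega) (even_two_mul _)
  refine minorMV_of k (39 * k) (2 * (M0 + 1)) (by omega) 1 (75 * k) zero_le_one (by positivity) ?_ ?_
  · push_cast
    linarith
  · refine ⟨max P0 2, fun P hP => ?_⟩
    have hPP0 : P0 ≤ P := (le_max_left _ _).trans hP
    have hP2 : 2 ≤ P := (le_max_right _ _).trans hP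
    have hP1 : (1 : ℝ) ≤ P := by exact_mod_cast (by omega : 1 ≤ P)
    have hPpos : (0 : ℝ) < P := by linarith
    obtain ⟨PP, hB, hne, hstep, hpt⟩ := hP0 P hPP0
    have hrec := hM0 (2 * (M0 + 1)) (by omega) P hP1 (nu k PP P) (nu_nonneg k PP P)
      (fun n l _ => nu_le k PP P (by omega) κ hκ n l) hstep
    refine ⟨PS PP (Finset.range (2 * (M0 + 1))), (P : ℝ) ^ (((2 * (M0 + 1) : ℕ) : ℝ) / (500 * k)), ?_, ?_, by positivity, ?_, ?_⟩
    · exact PS_nonempty hB _ fun i hi => hne i (Finset.mem_range.1 hi)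
    · intro x hx
      have h1 := PS_le hB (Finset.range (2 * (M0 + 1))) x hx
      rwa [Finset.card_range] at h1
    · exact hpt (fun l hl => hrec _ (Nat.div_le_self _ _) l hl)
    · intro L hL
      exact level_of_nu k _ P (by omega) PP hP2 ε hε2 (fun l hl => hrec _ le_rfl l hl) L hL

/-- blocks with many primes: |PP i| >= P / (C log P) for i < M -/
def Many (M : ℕ) (C : ℝ) (P : ℕ) (PP : ℕ → Finset ℕ) : Prop :=
  Blk PP P ∧ ∀ i < M, (P : ℝ) / (C * Real.log P) ≤ (PP i).card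

/-- the same from the three separate inputs: prime systems, step, pointwise bound -/
theorem minorMV_final (k : ℕ) (hk : 3 ≤ k) (κ ε : ℝ) (hκ : 0 ≤ κ) (hε : 0 < ε) (hε2 : ε ≤ 3 / 500)
    (hsys : ∀ M : ℕ, 1 ≤ M → ∃ C : ℝ, 0 < C ∧ ∃ P0 : ℕ, ∀ P ≥ P0, ∃ PP : ℕ → Finset ℕ, Many M C P PP)
    (hstep : ∀ (M : ℕ) (C : ℝ), 1 ≤ M → 0 < C → ∃ P0 : ℕ, ∀ P ≥ P0, ∀ PP : ℕ → Finset ℕ, Many M C P PP →
      Step k M κ P (nu k PP P))
    (hpt : ∀ (M : ℕ) (C : ℝ), 1 ≤ M → Even M → 0 < C → ∃ P0 : ℕ, ∀ P ≥ P0, ∀ PP : ℕ → Finset ℕ, Many M C P PP →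
      (∀ l : ℝ, 0 ≤ l → nu k PP P (M / 2) l ≤
        (P : ℝ) ^ (75 * (k : ℝ) * max l (((M / 2 : ℕ) : ℝ) / (500 * k)) + ε * M)) →
        ∀ α : ℝ, α ∉ Mj6 k ((2 * P) ^ M) →
          ‖fs k (PS PP (Finset.range M)) α‖ ≤ (PS PP (Finset.range M)).card / (P : ℝ) ^ ((M : ℝ) / (500 * k))) :
    MinorMV k (39 * k) := by
  refine minorMV_main k hk κ ε hκ hε hε2 fun M hM hMe => ?_
  obtain ⟨C, hC, P1, h1⟩ := hsys M hM
  obtain ⟨P2, h2⟩ := hstep M C hM hC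
  obtain ⟨P3, h3⟩ := hpt M C hM hMe hC
  refine ⟨P1 + P2 + P3 + 2, fun P hP => ?_⟩
  obtain ⟨PP, hPP⟩ := h1 P (by omega)
  refine ⟨PP, hPP.1, fun i hi => ?_, h2 P (by omega) PP hPP, h3 P (by omega) PP hPP⟩
  have h4 := hPP.2 i hi
  have hP1 : (1 : ℝ) < P := by exact_mod_cast (by omega : 1 < P)
  have h5 : 0 < (P : ℝ) / (C * Real.log P) := by
    have := Real.log_pos hP1
    positivity
  have h6 : (0 : ℝ) < (PP i).card := lt_of_lt_of_le h5 h4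
  exact Finset.card_pos.1 (by exact_mod_cast h6)

end LVA
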