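import Pool.Agent.Lib.MP_570bef_ntLV.BPt

/-!
# LV, block B: the pointwise bound, asymptotic form
-/

set_option autoImplicit false

namespace Pool.Agent.Lib.MP_570bef_ntLV

open Finset MeasureTheory Filter
open scoped Pointwise

/-- positive powers of `P` beat constants -/
theorem ev_const {e : ℝ} (he : 0 < e) (K : ℝ) : ∀ᶠ P : ℕ in atTop, K ≤ (P : ℝ) ^ e :=
  ((tendsto_rpow_atTop he).comp tendsto_natCast_atTop_atTop).eventually_ge_atTop K

/-- positive powers of `P` beat `C log P` -/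
theorem ev_log {e : ℝ} (he : 0 < e) {C : ℝ} (hC : 0 < C) :
    ∀ᶠ P : ℕ in atTop, C * Real.log P ≤ (P : ℝ) ^ e := by
  have h := (isLittleO_log_rpow_atTop he).bound (inv_pos.2 hC)
  have h2 := tendsto_natCast_atTop_atTop.eventually h
  filter_upwards [h2] with P hP
  have h3 : ‖(P : ℝ) ^ e‖ = (P : ℝ) ^ e := by
    rw [Real.norm_eq_abs, abs_of_nonneg (by positivity)]
  rw [h3] at hP
  have h4 : Real.log P ≤ ‖Real.log (P : ℝ)‖ := le_abs_self _
  calc C * Real.log P ≤ C * (C⁻¹ * (P : ℝ) ^ e) :=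
        mul_le_mul_of_nonneg_left (h4.trans hP) hC.le
    _ = (P : ℝ) ^ e := by field_simp

/-- **The pointwise bound** over the minor arcs, from the level set bound for half of the blocks. -/
theorem pointwise (k : ℕ) (hk : 3 ≤ k) (ε : ℝ) (hε : ε ≤ 1 / 400) (M : ℕ) (C : ℝ) (hM : 1 ≤ M)
    (hMe : Even M) (hC : 0 < C) :
    ∃ P0 : ℕ, ∀ P ≥ P0, ∀ PP : ℕ → Finset ℕ, Blk PP P →
      (∀ i < M, (P : ℝ) / (C * Real.log P) ≤ (PP i).card) →
      (∀ l : ℝ, 0 ≤ l → (P : ℝ) ^ (k * (M / 2)) * lev k (PS PP (range (M / 2))) ((P : ℝ) ^ l) ≤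
        (P : ℝ) ^ (75 * (k : ℝ) * max l (((M / 2 : ℕ) : ℝ) / (500 * k)) + ε * M)) →
      ∀ α : ℝ, (¬ ∃ (q : ℕ) (a : ℤ), 1 ≤ q ∧ (q : ℝ) ^ 6 ≤ (((2 * P) ^ M : ℕ) : ℝ) ∧
          (|α - a / q| * (((2 * P) ^ M : ℕ) : ℝ) ^ k) ^ 6 ≤ (((2 * P) ^ M : ℕ) : ℝ)) →
        ‖fs k (PS PP (range M)) α‖ ≤
          (PS PP (range M)).card / (P : ℝ) ^ ((M : ℝ) / (500 * k)) := by
  obtain ⟨m, rfl⟩ : ∃ m, M = 2 * m := by
    obtain ⟨m, hm⟩ := hMe
    exact ⟨m, by omega⟩
  have hm : 1 ≤ m := by omega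
  have h2m : 2 * m / 2 = m := by omega
  rw [h2m]
  have hkr : (3 : ℝ) ≤ k := by exact_mod_cast hk
  have hk0 : (0 : ℝ) < k := by linarith
  have hmr : (1 : ℝ) ≤ m := by exact_mod_cast hm
  obtain ⟨C₂, hC₂, hom⟩ := pow_omega_le k (by omega) (ε := 1 / (1000 * k : ℝ)) (by positivity)
  obtain ⟨e, he⟩ : ∃ e : ℝ, e = (m : ℝ) / (1000 * k) := ⟨_, rfl⟩
  have he0 : 0 < e := by rw [he]; positivity
  have ev := (ev_const he0 (2 * (16 * Real.pi * 2 ^ (m * k + 1) * 2 ^ (m * k) * 4 ^ (75 * k) *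
      (2 * C₂ * 2 ^ (m * k + 1))) * 2 ^ m)).and ((ev_const he0 (2 ^ (m + 1 + (m * k + 1)))).and
      ((ev_const he0 (2 ^ (2 * m * k))).and
      ((ev_log (show (0 : ℝ) < 1 / (1000 * k) by positivity) hC).and
      (eventually_ge_atTop (2 ^ (m * k + 1))))))
  obtain ⟨P₀, hP₀⟩ := eventually_atTop.1 ev
  refine ⟨P₀, fun P hP PP hB hc hlev α hα => ?_⟩
  obtain ⟨h1, h2, h3, h4, h5⟩ := hP₀ P hP
  by_contra hcon
  rw [not_le] at hcon
  apply hα
  have hP2 : 2 ≤ P := by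
    refine le_trans ?_ h5
    calc 2 = 2 ^ 1 := rfl
      _ ≤ 2 ^ (m * k + 1) := Nat.pow_le_pow_right (by norm_num) (by omega)
  have hP1 : (1 : ℝ) < P := by exact_mod_cast (by omega : 1 < P)
  have hP0 : (0 : ℝ) < P := by linarith
  obtain ⟨u, hu⟩ : ∃ u : ℝ, u = (P : ℝ) ^ e := ⟨_, rfl⟩
  rw [← hu] at h1 h2 h3
  have hu0 : 0 < u := by rw [hu]; positivity
  have hu1 : 1 ≤ u := by rw [hu]; exact Real.one_le_rpow hP1.le he0.le
  have hupow : ∀ n : ℕ, u ^ n = (P : ℝ) ^ (e * n) := by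
    intro n
    rw [hu, ← Real.rpow_natCast, ← Real.rpow_mul hP0.le]
  have hu1000 : u ^ (1000 * k) = (P : ℝ) ^ m := by
    rw [hupow, ← Real.rpow_natCast (P : ℝ) m]
    congr 1
    rw [he]
    push_cast
    field_simp
  have hu4 : u ^ 4 = (P : ℝ) ^ (((2 * m : ℕ) : ℝ) / (500 * k)) := by
    rw [hupow]
    congr 1
    rw [he]
    push_cast
    field_simp
    ring
  have hlog : 0 < Real.log P := Real.log_pos hP1
  have hcd : ∀ i < 2 * m, (P : ℝ) ^ (1 - 1 / (1000 * k) : ℝ) ≤ ((PP i).card : ℝ) := by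
    intro i hi
    refine le_trans ?_ (hc i hi)
    rw [Real.rpow_sub hP0, Real.rpow_one]
    exact div_le_div_of_nonneg_left hP0.le (by positivity) h4
  have hcard : u ^ (1000 * k - 1) ≤ ((PS PP (Ico m (2 * m))).card : ℝ) := by
    rw [PS_card_eq hB]
    push_cast
    have e1 : u ^ (1000 * k - 1) = ∏ i ∈ Ico m (2 * m), (P : ℝ) ^ (1 - 1 / (1000 * k) : ℝ) := by
      rw [prod_const, Nat.card_Ico, show 2 * m - m = m by omega, hupow, ← Real.rpow_natCast,
        ← Real.rpow_mul hP0.le]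
      congr 1
      rw [Nat.cast_sub (by omega), he]
      push_cast
      field_simp
    rw [e1]
    exact prod_le_prod (fun i _ => by positivity) (fun i hi => hcd i (mem_Ico.1 hi).2)
  have hne : (PS PP (range m)).Nonempty := by
    refine PS_nonempty hB _ fun i hi => ?_
    have h6 := hcd i (by rw [mem_range] at hi; omega)
    have h7 : (0 : ℝ) < ((PP i).card : ℝ) := lt_of_lt_of_le (by positivity) h6
    exact card_pos.1 (by exact_mod_cast h7)
  have hl : (P : ℝ) ^ (k * m) * lev k (PS PP (range m)) (4 * u ^ 4) ≤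
      4 ^ (75 * k) * u ^ (305 * k) := by
    obtain ⟨l, hl⟩ : ∃ l : ℝ, l = ((2 * m : ℕ) : ℝ) / (500 * k) + Real.log 4 / Real.log P :=
      ⟨_, rfl⟩
    have hlog4 : 0 < Real.log 4 := Real.log_pos (by norm_num)
    have hPl : (P : ℝ) ^ l = 4 * u ^ 4 := by
      rw [hl, Real.rpow_add hP0, ← hu4, mul_comm]
      congr 1
      rw [Real.rpow_def_of_pos hP0, mul_div_cancel₀ _ hlog.ne', Real.exp_log (by norm_num)]
    have h6 := hlev l (by rw [hl]; positivity)
    rw [hPl] at h6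
    have hmax : max l ((m : ℝ) / (500 * k)) = l := by
      apply max_eq_left
      rw [hl]
      have h7 : (m : ℝ) / (500 * k) ≤ ((2 * m : ℕ) : ℝ) / (500 * k) := by
        refine div_le_div_of_nonneg_right ?_ (by positivity)
        push_cast
        linarith
      have h8 : 0 < Real.log 4 / Real.log P := by positivity
      linarith
    rw [hmax, Real.rpow_add hP0] at h6
    refine h6.trans ?_
    have e1 : (P : ℝ) ^ (75 * (k : ℝ) * l) = (4 * u ^ 4) ^ (75 * k) := by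
      rw [← hPl, ← Real.rpow_natCast, ← Real.rpow_mul hP0.le]
      congr 1
      push_cast
      ring
    have e2 : (P : ℝ) ^ (ε * ((2 * m : ℕ) : ℝ)) ≤ u ^ (5 * k) := by
      rw [hupow]
      apply Real.rpow_le_rpow_of_exponent_le hP1.le
      rw [he]
      push_cast
      have e3 : (m : ℝ) / (1000 * k) * (5 * k) = m / 200 := by
        field_simp
        norm_num
      rw [e3]
      nlinarith
    calc (P : ℝ) ^ (75 * (k : ℝ) * l) * (P : ℝ) ^ (ε * ((2 * m : ℕ) : ℝ))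
        ≤ (4 * u ^ 4) ^ (75 * k) * u ^ (5 * k) := by rw [e1]; gcongr
      _ = 4 ^ (75 * k) * u ^ (305 * k) := by
          rw [mul_pow, ← pow_mul, mul_assoc, ← pow_add]
          congr 2
          ring
  exact pt_core hk hm hC₂ hom hB h5 hu1000 hu1 h1 h2 h3 hcard hne hl (by rw [hu4]; exact hcon.le)

end Pool.Agent.Lib.MP_570bef_ntLV
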