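import Pool.Agent.Lib.MP_570bef_ntLV.FOne

/-!
# One step in `P`-power form: the statement used by the recursion
-/

set_option autoImplicit false

namespace Pool.Agent.Lib.MP_570bef_ntLV

open Finset
open Pool.Agent.Lib.MP_570bef_ntV.OF (cop TS Adm om NS row)

variable {PP : ℕ → Finset ℕ} {P : ℕ}

/-- lower bound for the cardinality of a product set -/
theorem PS_card_ge (hB : Blk PP P) (J : Finset ℕ) {Q : ℝ} (hQ : 0 ≤ Q)
    (h : ∀ i ∈ J, Q ≤ (PP i).card) : Q ^ J.card ≤ (PS PP J).card := by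
  rw [PS_card_eq hB]
  push_cast
  calc Q ^ J.card = ∏ _i ∈ J, Q := by rw [prod_const]
    _ ≤ ∏ i ∈ J, ((PP i).card : ℝ) := prod_le_prod (fun _ _ => hQ) h

/-- the constant of one step, `x = log P` -/
noncomputable def KK (k M : ℕ) (C x : ℝ) : ℝ :=
  (((2 * M + 4) * x) * 2 ^ M) * (4 * ((2 * M + 4) * x) * (2 * M * C * x) ^ M) *
    (4 * (2 * (k : ℝ) ^ 2) ^ M *
      (2 * (8 * ((2 * M + 4) * x) * (2 * M * C * x) ^ M) ^ 2 * (2 * C * x) ^ M) ^ 2)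

/-- all the numerical conditions on `P` -/
theorem exists_P0 (k M : ℕ) (C kap : ℝ) (hkap : 0 < kap) :
    ∃ P0 : ℕ, ∀ P : ℕ, P0 ≤ P → k ≤ P ∧ 3 ≤ P ∧ 2 * M * C * Real.log P ≤ P ∧
      4 * ((2 * M + 4) * Real.log P) * (2 * M * C * Real.log P) ^ M ≤ (P : ℝ) ^ kap ∧
      2 * (8 * ((2 * M + 4) * Real.log P)) ^ 2 * (2 * C * Real.log P) ^ M ≤ (P : ℝ) ^ kap ∧
      KK k M C (Real.log P) ≤ (P : ℝ) ^ kap := by
  obtain ⟨P1, h1⟩ := polylog_le (2 * M * C) 1 (kap := 1) one_pos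
  obtain ⟨P2, h2⟩ := polylog_le (4 * (2 * M + 4) * (2 * M * C) ^ M) (1 + M) hkap
  obtain ⟨P3, h3⟩ := polylog_le (2 * (8 * (2 * M + 4)) ^ 2 * (2 * C) ^ M) (2 + M) hkap
  obtain ⟨P4, h4⟩ := polylog_le (KK k M C 1) (1 + (1 + M) + (2 * (2 * (1 + M) + M))) hkap
  refine ⟨max k (max 3 (max P1 (max P2 (max P3 P4)))), fun P hP => ?_⟩
  simp only [max_le_iff] at hP
  obtain ⟨hk, h3', hP1, hP2, hP3, hP4⟩ := hP
  refine ⟨hk, h3', ?_, ?_, ?_, ?_⟩
  · have := h1 P hP1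
    rw [Real.rpow_one, pow_one] at this
    exact this
  · refine le_trans (le_of_eq ?_) (h2 P hP2)
    rw [mul_pow (2 * M * C), pow_add, pow_one]
    ring
  · refine le_trans (le_of_eq ?_) (h3 P hP3)
    rw [mul_pow (2 * C), pow_add]
    ring
  · refine le_trans (le_of_eq ?_) (h4 P hP4)
    rw [KK, KK, mul_pow (2 * M * C), mul_pow (2 * C), mul_pow (2 * M * C) 1, mul_pow (2 * C) 1]
    simp only [one_pow, mul_one, pow_add, pow_mul, pow_one]
    ring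

/-- the number of dyadic levels -/
theorem exists_W {P M : ℕ} (hP : 3 ≤ P) {l : ℝ} (hl0 : 0 ≤ l) (hlM : l ≤ M) :
    ∃ W : ℕ, 2 * (P : ℝ) ^ l ≤ 2 ^ W ∧ (W : ℝ) ≤ (2 * M + 4) * Real.log P := by
  have hP3 : (3 : ℝ) ≤ P := by exact_mod_cast hP
  have hP0 : (0 : ℝ) < P := by linarith
  have hlog3 : 1 ≤ Real.log P := by
    rw [← Real.log_exp 1]
    apply Real.log_le_log (Real.exp_pos 1)
    have := Real.exp_one_lt_d9
    linarith
  have hlog2 : (1 / 2 : ℝ) ≤ Real.log 2 := by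
    have := Real.log_two_gt_d9
    linarith
  have hlog2' : Real.log 2 ≤ 1 := by
    have := Real.log_two_lt_d9
    linarith
  refine ⟨⌈2 * (Real.log 2 + l * Real.log P)⌉₊, ?_, ?_⟩
  · have h1 : 2 * (Real.log 2 + l * Real.log P) ≤
        (⌈2 * (Real.log 2 + l * Real.log P)⌉₊ : ℕ) := Nat.le_ceil _
    have h2 : 2 * (P : ℝ) ^ l = Real.exp (Real.log 2 + l * Real.log P) := by
      rw [Real.exp_add, Real.exp_log two_pos, Real.rpow_def_of_pos hP0, mul_comm l]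
    have h3 : (2 : ℝ) ^ ⌈2 * (Real.log 2 + l * Real.log P)⌉₊ =
        Real.exp (Real.log 2 * ⌈2 * (Real.log 2 + l * Real.log P)⌉₊) := by
      rw [← Real.rpow_natCast, Real.rpow_def_of_pos two_pos]
    rw [h2, h3, Real.exp_le_exp]
    have h4 : 0 ≤ Real.log 2 + l * Real.log P := by positivity
    nlinarith
  · have h0 : 0 ≤ 2 * (Real.log 2 + l * Real.log P) := by positivity
    have h1 := Nat.ceil_lt_add_one h0
    have h2 : l * Real.log P ≤ M * Real.log P := by gcongr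
    nlinarith

theorem step_nu (k M : ℕ) (hk : 1 ≤ k) (C : ℝ) (hC : 1 ≤ C) (kap : ℝ) (hkap : 0 < kap) :
    ∃ P0 : ℕ, ∀ P : ℕ, P0 ≤ P → ∀ PP : ℕ → Finset ℕ, Blk PP P →
      (∀ i < M, (P : ℝ) / (C * Real.log P) ≤ (PP i).card) →
      ∀ (n m : ℕ) (l : ℝ), n ≤ M → 1 ≤ m → m < n → 0 ≤ l → l ≤ M →
      (∀ J' ⊆ Ico (n - m) n, ∀ D ∈ PS PP J',
        2 * (D : ℝ) * (P : ℝ) ^ (2 * l + kap) ≤ ((2 * P : ℕ) : ℝ) ^ (n - m) ∧
        NS k D ((2 * P) ^ (n - m)) ((P : ℝ) ^ (2 * l + kap))) →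
      ∃ (j : ℕ) (i : ℝ), j ≤ m ∧ 0 ≤ i ∧ i ≤ l - j + kap ∧
        nu PP P k n l ≤ (P : ℝ) ^ (kap + ((k : ℝ) + 1) * j + (l - j - i) + 4 * (l - j)) *
          nu PP P k (n - m) i := by
  obtain ⟨P0, hP0⟩ := exists_P0 k M C kap hkap
  refine ⟨P0, fun P hP PP hB hcard n m l hnM hm hmn hl0 hlM hNS => ?_⟩
  obtain ⟨hkP, hP3, hc1, hc2, hc3, hc4⟩ := hP0 P hP
  have hP3r : (3 : ℝ) ≤ P := by exact_mod_cast hP3
  have hPr : (0 : ℝ) < P := by linarith
  have hP1 : (1 : ℝ) ≤ P := by linarith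
  have hP1' : (1 : ℝ) < P := by linarith
  set x := Real.log P with hx
  have hx1 : 1 ≤ x := by
    rw [hx, ← Real.log_exp 1]
    apply Real.log_le_log (Real.exp_pos 1)
    have := Real.exp_one_lt_d9
    linarith
  have hx0 : 0 < x := by linarith
  obtain ⟨W, hW, hWx⟩ := exists_W hP3 hl0 hlM
  rw [← hx] at hWx
  have hM1 : (1 : ℝ) ≤ M := by exact_mod_cast (by omega : 1 ≤ M)
  have hmM : m ≤ M := by omega
  set L : ℝ := (P : ℝ) ^ l with hL
  have hL1 : 1 ≤ L := Real.one_le_rpow hP1 hl0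
  have hL0 : 0 < L := by linarith
  set t : ℝ := 2 * M * C * x with ht
  have ht1 : 1 ≤ t := by
    rw [ht]
    have h1 : 1 ≤ (M : ℝ) * C := by nlinarith
    nlinarith
  have ht0 : 0 < t := by linarith
  set v : ℝ := 2 * C * x with hv
  have hv1 : 1 ≤ v := by
    rw [hv]
    nlinarith
  set u : ℝ := v ^ M with hu
  have hCx : 0 < C * x := by positivity
  have hu1 : ((2 * P : ℕ) : ℝ) ^ (n - m) ≤ u * (PS PP (range (n - m))).card := by
    have h1 := PS_card_ge hB (range (n - m)) (Q := (P : ℝ) / (C * x)) (by positivity)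
      (fun i hi => by
        rw [mem_range] at hi
        exact hcard i (by omega))
    rw [card_range] at h1
    have h2 : ((2 * P : ℕ) : ℝ) = v * ((P : ℝ) / (C * x)) := by
      rw [hv]
      push_cast
      field_simp
    rw [h2, mul_pow]
    have h3 : v ^ (n - m) ≤ u := pow_le_pow_right₀ hv1 (by omega)
    have h4 : 0 ≤ (P : ℝ) / (C * x) := by positivity
    gcongr
  set w0 : ℝ := (2 * M + 4) * x with hw0
  have hw00 : 0 < w0 := by positivity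
  have hWr0 : (0 : ℝ) ≤ W := Nat.cast_nonneg _
  have hPk : (0 : ℝ) < (P : ℝ) ^ kap := by positivity
  have h2l : (P : ℝ) ^ (2 * l + kap) = (P : ℝ) ^ kap * L ^ 2 := by
    rw [Real.rpow_add hPr, mul_comm, hL, ← Real.rpow_natCast, ← Real.rpow_mul hPr.le, mul_comm l]
    norm_num
  have hstep := step_explicit hB hk hkP (by omega) hnM hm hmn hL1 hW (t := t) (u := u) ht1 hc1
    (fun i hi => by
      refine le_trans (le_of_eq ?_) (hcard i hi)
      rw [ht]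
      field_simp) hu1 (Lam0 := (P : ℝ) ^ (2 * l + kap)) (by
      rw [h2l]
      calc 2 * (8 * L * W) ^ 2 * u ≤ 2 * (8 * L * w0) ^ 2 * u := by gcongr
        _ = (2 * (8 * w0) ^ 2 * u) * L ^ 2 := by ring
        _ ≤ (P : ℝ) ^ kap * L ^ 2 := by gcongr) hNS
  rcases hstep with hstep | ⟨w, hw, j, hj, hcond, hstep⟩
  · refine ⟨0, 0, by omega, le_rfl, ?_, ?_⟩
    · simp only [Nat.cast_zero, sub_zero]
      linarith
    · have h1 : nu PP P k n l ≤ 0 := by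
        unfold nu
        exact mul_nonpos_of_nonneg_of_nonpos (by positivity) hstep
      refine h1.trans ?_
      have := nu_nonneg PP P k (n - m) 0
      positivity
  set i : ℝ := Real.logb P (2 ^ (w + 1)) with hi
  have hPi : (P : ℝ) ^ i = 2 ^ (w + 1) := by
    rw [hi, Real.rpow_logb hPr (by linarith) (by positivity)]
  have hi0 : 0 ≤ i := by
    rw [hi]
    exact Real.logb_nonneg hP1' (one_le_pow₀ (by norm_num))
  have hjr : (P : ℝ) ^ (j : ℝ) = (P : ℝ) ^ j := Real.rpow_natCast _ _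
  have htj : t ^ j ≤ t ^ M := pow_le_pow_right₀ ht1 (by omega)
  have hRj : ((P : ℝ) / t) ^ j = (P : ℝ) ^ j / t ^ j := div_pow _ _ _
  have hPj : (0 : ℝ) < (P : ℝ) ^ j := by positivity
  have htj0 : 0 < t ^ j := by positivity
  refine ⟨j, i, hj, hi0, ?_, ?_⟩
  · have h1 : (P : ℝ) ^ (i + j) ≤ (P : ℝ) ^ (l + kap) := by
      rw [Real.rpow_add hPr, hPi, hjr, Real.rpow_add hPr, ← hL]
      rw [hRj, mul_div_assoc', div_le_iff₀ htj0] at hcond
      calc 2 ^ (w + 1) * (P : ℝ) ^ j ≤ 4 * L * W * t ^ j := hcond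
        _ ≤ 4 * L * w0 * t ^ M := by gcongr
        _ = L * (4 * w0 * t ^ M) := by ring
        _ ≤ L * (P : ℝ) ^ kap := by gcongr
    rw [Real.rpow_le_rpow_left_iff hP1'] at h1
    linarith
  · have hlev0 := lev_nonneg k (PS PP (range (n - m))) (2 ^ (w + 1))
    set lv := lev k (PS PP (range (n - m))) (2 ^ (w + 1)) with hlv
    have hnu' : nu PP P k (n - m) i = (P : ℝ) ^ (k * (n - m)) * lv := by
      unfold nu
      rw [hPi]
    have hexp : (P : ℝ) ^ (kap + ((k : ℝ) + 1) * j + (l - j - i) + 4 * (l - j)) =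
        (P : ℝ) ^ kap * (P : ℝ) ^ ((k + 1) * j) * (L / ((P : ℝ) ^ j * 2 ^ (w + 1))) *
          (L / (P : ℝ) ^ j) ^ 4 := by
      rw [Real.rpow_add hPr, Real.rpow_add hPr, Real.rpow_add hPr]
      congr 1
      · congr 1
        · congr 1
          rw [← Real.rpow_natCast]
          push_cast
          rfl
        · rw [Real.rpow_sub hPr, Real.rpow_sub hPr, hPi, hjr, ← hL, div_div]
      · rw [← hjr, hL, ← Real.rpow_sub hPr, ← Real.rpow_natCast ((P : ℝ) ^ (l - j)) 4,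
          ← Real.rpow_mul hPr.le]
        congr 1
        push_cast
        ring
    rw [hexp, hnu']
    unfold nu
    have hKW : (W * 2 ^ m : ℝ) ≤ w0 * 2 ^ M := by
      have h1 : (2 : ℝ) ^ m ≤ 2 ^ M := pow_le_pow_right₀ (by norm_num) hmM
      gcongr
    have hA1 : 4 * L * W / (((P : ℝ) / t) ^ j * 2 ^ (w + 1)) ≤
        (4 * w0 * t ^ M) * (L / ((P : ℝ) ^ j * 2 ^ (w + 1))) := by
      rw [hRj]
      have h1 : 4 * L * W / ((P : ℝ) ^ j / t ^ j * 2 ^ (w + 1)) =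
          (4 * W * t ^ j) * (L / ((P : ℝ) ^ j * 2 ^ (w + 1))) := by
        field_simp
      rw [h1]
      gcongr
    have hA2 : 8 * L * W / ((P : ℝ) / t) ^ j ≤ (8 * w0 * t ^ M) * (L / (P : ℝ) ^ j) := by
      rw [hRj]
      have h1 : 8 * L * W / ((P : ℝ) ^ j / t ^ j) = (8 * W * t ^ j) * (L / (P : ℝ) ^ j) := by
        field_simp
      rw [h1]
      gcongr
    have hA20 : 0 ≤ 8 * L * W / ((P : ℝ) / t) ^ j := by positivity
    have hk1 : (1 : ℝ) ≤ 2 * (k : ℝ) ^ 2 := by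
      have : (1 : ℝ) ≤ k := by exact_mod_cast hk
      nlinarith
    have hu0 : 0 ≤ u := by positivity
    have hA3 : 4 * (2 * (k : ℝ) ^ 2) ^ m * (2 * (8 * L * W / ((P : ℝ) / t) ^ j) ^ 2 * u) ^ 2 ≤
        (4 * (2 * (k : ℝ) ^ 2) ^ M * (2 * (8 * w0 * t ^ M) ^ 2 * u) ^ 2) *
          (L / (P : ℝ) ^ j) ^ 4 := by
      have h1 : (2 * (k : ℝ) ^ 2) ^ m ≤ (2 * (k : ℝ) ^ 2) ^ M := pow_le_pow_right₀ hk1 hmM
      calc 4 * (2 * (k : ℝ) ^ 2) ^ m * (2 * (8 * L * W / ((P : ℝ) / t) ^ j) ^ 2 * u) ^ 2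
          ≤ 4 * (2 * (k : ℝ) ^ 2) ^ M *
            (2 * ((8 * w0 * t ^ M) * (L / (P : ℝ) ^ j)) ^ 2 * u) ^ 2 := by gcongr
        _ = _ := by ring
    have hKK : KK k M C x = (w0 * 2 ^ M) * (4 * w0 * t ^ M) *
        (4 * (2 * (k : ℝ) ^ 2) ^ M * (2 * (8 * w0 * t ^ M) ^ 2 * u) ^ 2) := by
      rw [KK]
    have hpow : (P : ℝ) ^ (k * n) * (1 / (P : ℝ) ^ (k * (m - j))) =
        (P : ℝ) ^ (k * (n - m)) * (P : ℝ) ^ (k * j) := by
      have h1 : k * n = k * (n - m) + k * j + k * (m - j) := by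
        rw [← mul_add, ← mul_add]
        congr 1
        omega
      rw [h1, pow_add, pow_add]
      field_simp
    calc (P : ℝ) ^ (k * n) * lev k (PS PP (range n)) L
        ≤ (P : ℝ) ^ (k * n) * ((W * 2 ^ m) * ((P : ℝ) ^ j *
          (4 * L * W / (((P : ℝ) / t) ^ j * 2 ^ (w + 1))) * (1 / (P : ℝ) ^ (k * (m - j))) *
          (4 * (2 * (k : ℝ) ^ 2) ^ m * (2 * (8 * L * W / ((P : ℝ) / t) ^ j) ^ 2 * u) ^ 2 * lv))) := by
          gcongr
      _ = ((P : ℝ) ^ (k * n) * (1 / (P : ℝ) ^ (k * (m - j)))) * ((P : ℝ) ^ j *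
          ((W * 2 ^ m) * (4 * L * W / (((P : ℝ) / t) ^ j * 2 ^ (w + 1))) *
          (4 * (2 * (k : ℝ) ^ 2) ^ m * (2 * (8 * L * W / ((P : ℝ) / t) ^ j) ^ 2 * u) ^ 2)) * lv) := by
          ring
      _ ≤ ((P : ℝ) ^ (k * (n - m)) * (P : ℝ) ^ (k * j)) * ((P : ℝ) ^ j *
          ((w0 * 2 ^ M) * ((4 * w0 * t ^ M) * (L / ((P : ℝ) ^ j * 2 ^ (w + 1)))) *
          ((4 * (2 * (k : ℝ) ^ 2) ^ M * (2 * (8 * w0 * t ^ M) ^ 2 * u) ^ 2) *
            (L / (P : ℝ) ^ j) ^ 4)) * lv) := by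
          rw [hpow]
          gcongr
      _ = KK k M C x * ((P : ℝ) ^ ((k + 1) * j) * (L / ((P : ℝ) ^ j * 2 ^ (w + 1))) *
          (L / (P : ℝ) ^ j) ^ 4 * ((P : ℝ) ^ (k * (n - m)) * lv)) := by
          rw [hKK, add_mul, pow_add, one_mul]
          ring
      _ ≤ (P : ℝ) ^ kap * ((P : ℝ) ^ ((k + 1) * j) * (L / ((P : ℝ) ^ j * 2 ^ (w + 1))) *
          (L / (P : ℝ) ^ j) ^ 4 * ((P : ℝ) ^ (k * (n - m)) * lv)) := by
          gcongr
      _ = _ := by ring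

end Pool.Agent.Lib.MP_570bef_ntLV
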