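import Mathlib

/-!
# Large values in fibres: basic objects

* `ee x = exp (2 π i x)`
* `PS PP J` : product set of the blocks `PP i`, `i ∈ J` (pointwise product of finite sets of integers)
* `fs k S α = ∑ x ∈ S, e (α x^k)`
* `lev k S L` : measure of the set of `α ∈ [0,1]` with `|fs k S α| ≥ |S| / L`.
-/

set_option autoImplicit false

namespace Pool.Agent.Lib.MP_570bef_ntLV

open Finset MeasureTheory
open scoped Pointwise

/-- `e(x) = exp(2 π i x)` -/
noncomputable def ee (x : ℝ) : ℂ := Complex.exp (2 * Real.pi * Complex.I * x)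

theorem ee_add (x y : ℝ) : ee (x + y) = ee x * ee y := by
  rw [ee, ee, ee, ← Complex.exp_add]
  congr 1
  push_cast
  ring

theorem norm_ee (x : ℝ) : ‖ee x‖ = 1 := by
  rw [ee, show 2 * Real.pi * Complex.I * x = ((2 * Real.pi * x : ℝ) : ℂ) * Complex.I by
    push_cast; ring]
  exact Complex.norm_exp_ofReal_mul_I _

theorem ee_int (n : ℤ) : ee n = 1 := by
  rw [ee, Complex.exp_eq_one_iff]
  exact ⟨n, by push_cast; ring⟩

theorem ee_nat (n : ℕ) : ee n = 1 := by
  have := ee_int n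
  simpa using this

theorem ee_zero : ee 0 = 1 := by
  simpa using ee_nat 0

theorem ee_neg (x : ℝ) : ee (-x) = (starRingEnd ℂ) (ee x) := by
  rw [ee, ee, ← Complex.exp_conj]
  congr 1
  rw [map_mul, map_mul, map_mul, Complex.conj_ofReal, Complex.conj_ofReal, Complex.conj_I,
    map_ofNat]
  push_cast
  ring

theorem continuous_ee : Continuous ee := by
  unfold ee
  fun_prop

/-- product set of the blocks `PP i`, `i ∈ J` -/
def PS (PP : ℕ → Finset ℕ) (J : Finset ℕ) : Finset ℕ := ∏ i ∈ J, PP i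

/-- exponential sum over a finite set of integers -/
noncomputable def fs (k : ℕ) (S : Finset ℕ) (α : ℝ) : ℂ := ∑ x ∈ S, ee (α * (x : ℝ) ^ k)

theorem continuous_fs (k : ℕ) (S : Finset ℕ) : Continuous (fs k S) := by
  unfold fs
  exact continuous_finsetSum _ fun x _ => continuous_ee.comp (by fun_prop)

theorem norm_fs_le (k : ℕ) (S : Finset ℕ) (α : ℝ) : ‖fs k S α‖ ≤ S.card := by
  unfold fs
  refine (norm_sum_le _ _).trans ?_
  simp [norm_ee]

theorem fs_add_nat (k : ℕ) (S : Finset ℕ) (α : ℝ) (n : ℕ) : fs k S (α + n) = fs k S α := by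
  unfold fs
  refine sum_congr rfl fun x _ => ?_
  rw [add_mul, ee_add, show (n : ℝ) * (x : ℝ) ^ k = ((n * x ^ k : ℕ) : ℝ) by push_cast; ring,
    ee_nat, mul_one]

/-- measure of the level set `|fs k S α| ≥ |S| / L` in `[0,1]` -/
noncomputable def lev (k : ℕ) (S : Finset ℕ) (L : ℝ) : ℝ :=
  (volume (Set.Icc (0 : ℝ) 1 ∩ {α | (S.card : ℝ) / L ≤ ‖fs k S α‖})).toReal

/-- blocks of primes in `(P, 2P]` -/
structure Blk (PP : ℕ → Finset ℕ) (P : ℕ) : Prop where
  prime : ∀ i, ∀ p ∈ PP i, p.Prime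
  disj : ∀ i j, i ≠ j → Disjoint (PP i) (PP j)
  low : ∀ i, ∀ p ∈ PP i, P < p
  upp : ∀ i, ∀ p ∈ PP i, p ≤ 2 * P

end Pool.Agent.Lib.MP_570bef_ntLV
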