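import Mathlib

/-!
# Block H, file a: roots modulo a number composed of large primes

Let `P` be a finite set of primes larger than `k`, `0 < d ≤ k`, `N = ∏ p ^ (e p)`.  The residues
`x` modulo `N`, prime to `N`, with `x ^ d = y ^ d` modulo `N` number at most `d ^ |P|`; among
the integers `x < u`, `N ∣ u`, prime to all `p`, at most `(u / N) * d ^ |P|` satisfy this.
-/

namespace Pool.Agent.Lib.MP_570bef_ntLV.H

open Finset

/-- The product of the prime powers `p ^ e p`. -/
def pp (P : Finset ℕ) (e : ℕ → ℕ) : ℕ := ∏ p ∈ P, p ^ e p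

theorem pp_pos {P : Finset ℕ} (hP : ∀ p ∈ P, p.Prime) (e : ℕ → ℕ) : 0 < pp P e :=
  Finset.prod_pos fun p hp => pow_pos (hP p hp).pos _

theorem pp_dvd {P : Finset ℕ} {e f : ℕ → ℕ} (h : ∀ p ∈ P, e p ≤ f p) : pp P e ∣ pp P f :=
  Finset.prod_dvd_prod_of_dvd _ _ fun p hp => pow_dvd_pow p (h p hp)

theorem pp_mul (P : Finset ℕ) (e f : ℕ → ℕ) : pp P e * pp P f = pp P (fun p => e p + f p) := by
  unfold pp
  rw [← Finset.prod_mul_distrib]
  exact Finset.prod_congr rfl fun p _ => (pow_add p _ _).symm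

theorem pp_pow (P : Finset ℕ) (e : ℕ → ℕ) (n : ℕ) : pp P e ^ n = pp P (fun p => e p * n) := by
  unfold pp
  rw [← Finset.prod_pow]
  exact Finset.prod_congr rfl fun p _ => (pow_mul p _ _).symm

theorem pp_congr {P : Finset ℕ} {e f : ℕ → ℕ} (h : ∀ p ∈ P, e p = f p) : pp P e = pp P f :=
  Finset.prod_congr rfl fun p hp => by rw [h p hp]

/-- An integer divisible by all `p ^ e p` is divisible by the product. -/
theorem pp_dvd_int {P : Finset ℕ} (hP : ∀ p ∈ P, p.Prime) {e : ℕ → ℕ} {z : ℤ}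
    (h : ∀ p ∈ P, ((p : ℤ) ^ e p) ∣ z) : ((pp P e : ℕ) : ℤ) ∣ z := by
  unfold pp
  push_cast
  refine Finset.prod_dvd_of_coprime ?_ h
  intro p hp q hq hpq
  have h1 : Nat.Coprime p q := (Nat.coprime_primes (hP p hp) (hP q hq)).2 hpq
  exact (Nat.isCoprime_iff_coprime.2 h1).pow

/-- One prime: equality of `d`-th powers modulo `p ^ e` and equality modulo `p` imply equality
modulo `p ^ e` (`p` does not divide `d * x`). -/
theorem hensel_unique {p d e : ℕ} (hp : p.Prime) (hd : ¬ p ∣ d) {x y : ℤ}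
    (hx : ¬ (p : ℤ) ∣ x) (h1 : (p : ℤ) ∣ x - y) (h2 : (p : ℤ) ^ e ∣ x ^ d - y ^ d) :
    (p : ℤ) ^ e ∣ x - y := by
  have hpZ : Prime (p : ℤ) := Nat.prime_iff_prime_int.1 hp
  have hfac : (∑ i ∈ range d, x ^ i * y ^ (d - 1 - i)) * (x - y) = x ^ d - y ^ d :=
    (Commute.all x y).geom_sum₂_mul d
  have hmod : ((∑ i ∈ range d, x ^ i * y ^ (d - 1 - i)) : ℤ) ≡ d * x ^ (d - 1) [ZMOD p] := by
    have hyx : y ≡ x [ZMOD p] := (Int.modEq_iff_dvd.2 h1)
    have : ∀ i ∈ range d, x ^ i * y ^ (d - 1 - i) ≡ x ^ (d - 1) [ZMOD p] := by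
      intro i hi
      have hi' := Finset.mem_range.1 hi
      have h3 : x ^ i * y ^ (d - 1 - i) ≡ x ^ i * x ^ (d - 1 - i) [ZMOD p] :=
        (hyx.pow _).mul_left _
      have h4 : x ^ i * x ^ (d - 1 - i) = x ^ (d - 1) := by
        rw [← pow_add]
        congr 1
        omega
      rw [h4] at h3
      exact h3
    calc ((∑ i ∈ range d, x ^ i * y ^ (d - 1 - i)) : ℤ)
        ≡ ∑ i ∈ range d, x ^ (d - 1) [ZMOD p] := by
          refine Int.ModEq.sum ?_
          exact this
      _ = d * x ^ (d - 1) := by simp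
  have hnd : ¬ (p : ℤ) ∣ (∑ i ∈ range d, x ^ i * y ^ (d - 1 - i)) := by
    intro h
    have h5 : (p : ℤ) ∣ d * x ^ (d - 1) := by
      apply Int.dvd_of_emod_eq_zero
      have h7 : (∑ i ∈ range d, x ^ i * y ^ (d - 1 - i)) % (p : ℤ) = 0 :=
        Int.emod_eq_zero_of_dvd h
      have h8 : (∑ i ∈ range d, x ^ i * y ^ (d - 1 - i)) % (p : ℤ)
        = (d * x ^ (d - 1)) % (p : ℤ) := hmod
      rw [← h8, h7]
    rcases hpZ.dvd_or_dvd h5 with h6 | h6
    · exact hd (by exact_mod_cast h6)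
    · exact hx (hpZ.dvd_of_dvd_pow h6)
  rw [← hfac] at h2
  have hcop : IsCoprime ((p : ℤ) ^ e) (∑ i ∈ range d, x ^ i * y ^ (d - 1 - i)) :=
    ((Prime.coprime_iff_not_dvd hpZ).2 hnd).pow_left
  exact hcop.dvd_of_dvd_mul_left h2

/-- The residues modulo `N = ∏ p ^ (e p)` whose `d`-th power is `y ^ d`. -/
theorem card_roots_le {P : Finset ℕ} (hP : ∀ p ∈ P, p.Prime) {d : ℕ} (hd0 : 0 < d)
    (hd : ∀ p ∈ P, ¬ p ∣ d) {e : ℕ → ℕ} (y : ℕ) :
    ((range (pp P e)).filter (fun x => (∀ p ∈ P, ¬ p ∣ x) ∧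
      ((pp P e : ℕ) : ℤ) ∣ (x : ℤ) ^ d - (y : ℤ) ^ d)).card ≤ d ^ P.card := by
  classical
  set S := (range (pp P e)).filter (fun x => (∀ p ∈ P, ¬ p ∣ x) ∧
      ((pp P e : ℕ) : ℤ) ∣ (x : ℤ) ^ d - (y : ℤ) ^ d) with hS
  -- the support
  set Q := P.filter (fun p => 0 < e p) with hQ
  have hQP : Q ⊆ P := Finset.filter_subset _ _
  -- the map to the tuples of roots modulo p
  let R : ℕ → Finset ℕ := fun p => (range p).filter (fun x => (p : ℤ) ∣ (x : ℤ) ^ d - (y : ℤ) ^ d)
  have hR : ∀ p ∈ Q, (R p).card ≤ d := by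
    intro p hp
    have hpp := hP p (hQP hp)
    have : Fact p.Prime := ⟨hpp⟩
    have h1 : (R p).card ≤ (Polynomial.nthRoots d ((y : ZMod p) ^ d)).toFinset.card := by
      refine Finset.card_le_card_of_injOn (fun x => (x : ZMod p)) ?_ ?_
      · intro x hx
        have hx' := (Finset.mem_filter.1 (Finset.mem_coe.1 hx)).2
        rw [Finset.mem_coe, Multiset.mem_toFinset, Polynomial.mem_nthRoots hd0]
        have h2 : (((x : ℤ) ^ d - (y : ℤ) ^ d : ℤ) : ZMod p) = 0 :=
          (ZMod.intCast_zmod_eq_zero_iff_dvd _ _).2 hx'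
        push_cast at h2
        exact sub_eq_zero.1 h2
      · intro a ha b hb hab
        have ha' := Finset.mem_range.1 (Finset.mem_filter.1 (Finset.mem_coe.1 ha)).1
        have hb' := Finset.mem_range.1 (Finset.mem_filter.1 (Finset.mem_coe.1 hb)).1
        have h3 : (a : ZMod p) = (b : ZMod p) := hab
        rw [ZMod.natCast_eq_natCast_iff'] at h3
        rwa [Nat.mod_eq_of_lt ha', Nat.mod_eq_of_lt hb'] at h3
    refine h1.trans ((Multiset.toFinset_card_le _).trans (Polynomial.card_nthRoots _ _))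
  have hmap : S.card ≤ (Finset.pi Q (fun p => R p)).card := by
    refine Finset.card_le_card_of_injOn (fun x => fun p _ => x % p) ?_ ?_
    · intro x hx
      have hx' := (Finset.mem_filter.1 (Finset.mem_coe.1 hx)).2
      rw [Finset.mem_coe, Finset.mem_pi]
      intro p hp
      have hpp := hP p (hQP hp)
      refine Finset.mem_filter.2 ⟨Finset.mem_range.2 (Nat.mod_lt _ hpp.pos), ?_⟩
      have h1 : (p : ℤ) ∣ (x : ℤ) ^ d - (y : ℤ) ^ d := by
        refine dvd_trans ?_ hx'.2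
        have h2 : p ∣ pp P e := by
          refine dvd_trans ?_ (Finset.dvd_prod_of_mem _ (hQP hp))
          exact dvd_pow_self p (Finset.mem_filter.1 hp).2.ne'
        exact_mod_cast h2
      have h3 : ((x % p : ℕ) : ℤ) ≡ x [ZMOD p] := by
        push_cast
        exact Int.mod_modEq _ _
      have h4 : (y : ℤ) ^ d ≡ (x : ℤ) ^ d [ZMOD p] := Int.modEq_iff_dvd.2 h1
      have h5 : (y : ℤ) ^ d ≡ ((x % p : ℕ) : ℤ) ^ d [ZMOD p] := h4.trans (h3.pow d).symm
      exact Int.modEq_iff_dvd.1 h5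
    · intro a ha b hb hab
      have ha1 := (Finset.mem_filter.1 (Finset.mem_coe.1 ha))
      have hb1 := (Finset.mem_filter.1 (Finset.mem_coe.1 hb))
      have hdiv : ((pp P e : ℕ) : ℤ) ∣ (a : ℤ) - b := by
        refine pp_dvd_int hP ?_
        intro p hp
        by_cases hep : 0 < e p
        · have hpQ : p ∈ Q := Finset.mem_filter.2 ⟨hp, hep⟩
          have h1 : a % p = b % p := congrFun (congrFun hab p) hpQ
          refine hensel_unique (hP p hp) (hd p hp) (x := (a : ℤ)) (y := (b : ℤ)) ?_ ?_ ?_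
          · have := ha1.2.1 p hp
            exact fun h => this (by exact_mod_cast h)
          · have h2 : (b : ℤ) ≡ a [ZMOD p] := by
              have h3 : b ≡ a [MOD p] := h1.symm
              exact (Int.natCast_modEq_iff.2 h3)
            exact Int.modEq_iff_dvd.1 h2
          · have h4 : ((pp P e : ℕ) : ℤ) ∣ (a : ℤ) ^ d - (b : ℤ) ^ d := by
              have h5 := dvd_sub ha1.2.2 hb1.2.2
              have h6 : (a : ℤ) ^ d - (y : ℤ) ^ d - ((b : ℤ) ^ d - (y : ℤ) ^ d)
                = (a : ℤ) ^ d - (b : ℤ) ^ d := by ring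
              rwa [h6] at h5
            refine dvd_trans ?_ h4
            have h7 : p ^ e p ∣ pp P e := Finset.dvd_prod_of_mem _ hp
            exact_mod_cast h7
        · have h0 : e p = 0 := by omega
          rw [h0, pow_zero]
          exact one_dvd _
      have ha' : (a : ℤ) < (pp P e : ℕ) := by exact_mod_cast Finset.mem_range.1 ha1.1
      have hb' : (b : ℤ) < (pp P e : ℕ) := by exact_mod_cast Finset.mem_range.1 hb1.1
      have h0 := Int.eq_zero_of_abs_lt_dvd hdiv (by rw [abs_lt]; constructor <;> omega)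
      omega
  refine hmap.trans ?_
  rw [Finset.card_pi]
  calc ∏ p ∈ Q, (R p).card ≤ ∏ p ∈ Q, d := Finset.prod_le_prod' hR
    _ = d ^ Q.card := by rw [Finset.prod_const]
    _ ≤ d ^ P.card := Nat.pow_le_pow_right hd0 (Finset.card_le_card hQP)

/-- The same count in a longer interval of length `u`, a multiple of the modulus. -/
theorem card_roots_range_le {P : Finset ℕ} (hP : ∀ p ∈ P, p.Prime) {d : ℕ} (hd0 : 0 < d)
    (hd : ∀ p ∈ P, ¬ p ∣ d) {e : ℕ → ℕ} (y : ℕ) {u : ℕ} (hu : pp P e ∣ u) :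
    ((range u).filter (fun x => (∀ p ∈ P, ¬ p ∣ x) ∧
      ((pp P e : ℕ) : ℤ) ∣ (x : ℤ) ^ d - (y : ℤ) ^ d)).card ≤ (u / pp P e) * d ^ P.card := by
  classical
  have hN := pp_pos hP e
  set N := pp P e with hNdef
  -- the set of the residues (only the primes with e p > 0 matter for coprimality)
  set S := (range u).filter (fun x => (∀ p ∈ P, ¬ p ∣ x) ∧
      ((N : ℕ) : ℤ) ∣ (x : ℤ) ^ d - (y : ℤ) ^ d) with hS
  -- replace P by its support
  set Q := P.filter (fun p => 0 < e p) with hQ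
  have hQP : Q ⊆ P := Finset.filter_subset _ _
  have hNQ : pp Q e = N := by
    rw [hNdef]
    unfold pp
    refine Finset.prod_subset hQP ?_
    intro p hp hpQ
    have h0 : e p = 0 := by
      by_contra h
      exact hpQ (Finset.mem_filter.2 ⟨hp, Nat.pos_of_ne_zero h⟩)
    rw [h0, pow_zero]
  set T := (range (pp Q e)).filter (fun x => (∀ p ∈ Q, ¬ p ∣ x) ∧
      ((pp Q e : ℕ) : ℤ) ∣ (x : ℤ) ^ d - (y : ℤ) ^ d) with hT
  have hTc : T.card ≤ d ^ Q.card :=
    card_roots_le (fun p hp => hP p (hQP hp)) hd0 (fun p hp => hd p (hQP hp)) y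
  have hST : S.card ≤ (range (u / N) ×ˢ T).card := by
    refine Finset.card_le_card_of_injOn (fun x => (x / N, x % N)) ?_ ?_
    · intro x hx
      obtain ⟨hxu, hxp, hxd⟩ := Finset.mem_filter.1 (Finset.mem_coe.1 hx)
      have hxu' := Finset.mem_range.1 hxu
      rw [Finset.mem_coe, Finset.mem_product]
      refine ⟨Finset.mem_range.2 ?_, ?_⟩
      · obtain ⟨c, hc⟩ := hu
        rw [hc, Nat.mul_div_cancel_left _ hN]
        exact Nat.div_lt_of_lt_mul (by rw [← hc]; exact hxu')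
      · refine Finset.mem_filter.2 ⟨Finset.mem_range.2 ?_, ?_, ?_⟩
        · rw [hNQ]
          exact Nat.mod_lt _ hN
        · intro p hp hdvd
          have hpN : p ∣ N := by
            rw [hNdef]
            refine dvd_trans ?_ (Finset.dvd_prod_of_mem _ (hQP hp))
            exact dvd_pow_self p (Finset.mem_filter.1 hp).2.ne'
          exact hxp p (hQP hp) ((Nat.dvd_mod_iff hpN).1 hdvd)
        · rw [hNQ]
          have h3 : ((x % N : ℕ) : ℤ) ≡ x [ZMOD N] := by
            push_cast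
            exact Int.mod_modEq _ _
          have h4 : (y : ℤ) ^ d ≡ (x : ℤ) ^ d [ZMOD N] := Int.modEq_iff_dvd.2 hxd
          have h5 : (y : ℤ) ^ d ≡ ((x % N : ℕ) : ℤ) ^ d [ZMOD N] := h4.trans (h3.pow d).symm
          exact Int.modEq_iff_dvd.1 h5
    · intro a _ b _ hab
      have h1 : a / N = b / N := congrArg Prod.fst hab
      have h2 : a % N = b % N := congrArg Prod.snd hab
      rw [← Nat.div_add_mod a N, ← Nat.div_add_mod b N, h1, h2]
  refine hST.trans ?_
  rw [Finset.card_product, Finset.card_range]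
  exact Nat.mul_le_mul_left _ (hTc.trans (Nat.pow_le_pow_right hd0 (Finset.card_le_card hQP)))

end Pool.Agent.Lib.MP_570bef_ntLV.H
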