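import Mathlib

/-!
# Block H, file b: duality and Parseval modulo `q`
-/

namespace Pool.Agent.Lib.MP_570bef_ntLV.H

open Finset Complex

/-- `e(x) = exp(2 π i x)`. -/
noncomputable def ee (x : ℝ) : ℂ := Complex.exp (2 * Real.pi * Complex.I * (x : ℂ))

theorem ee_add (x y : ℝ) : ee (x + y) = ee x * ee y := by
  unfold ee
  rw [← Complex.exp_add]
  congr 1
  push_cast
  ring

theorem ee_int (n : ℤ) : ee (n : ℝ) = 1 := by
  unfold ee
  have h := Complex.exp_int_mul_two_pi_mul_I n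
  rw [show (2 * Real.pi * Complex.I * ((n : ℝ) : ℂ) : ℂ) = n * (2 * Real.pi * Complex.I) by
    push_cast; ring]
  exact h

theorem ee_zero : ee 0 = 1 := by
  have h := ee_int 0
  simpa using h

theorem norm_ee (x : ℝ) : ‖ee x‖ = 1 := by
  unfold ee
  rw [show (2 * Real.pi * Complex.I * (x : ℂ) : ℂ) = ((2 * Real.pi * x : ℝ) : ℂ) * Complex.I by
    push_cast; ring]
  exact Complex.norm_exp_ofReal_mul_I _

theorem conj_ee (x : ℝ) : (starRingEnd ℂ) (ee x) = ee (-x) := by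
  unfold ee
  rw [← Complex.exp_conj]
  congr 1
  simp only [map_mul, Complex.conj_I, Complex.conj_ofReal, map_ofNat]
  push_cast
  ring

theorem ee_sum {ι : Type*} (s : Finset ι) (f : ι → ℝ) :
    ee (∑ i ∈ s, f i) = ∏ i ∈ s, ee (f i) := by
  classical
  induction s using Finset.induction_on with
  | empty => simp [ee_zero]
  | insert a s ha ih => rw [Finset.sum_insert ha, Finset.prod_insert ha, ee_add, ih]

/-- Equal modulo an integer. -/
theorem ee_congr {x y : ℝ} {n : ℤ} (h : x = y + n) : ee x = ee y := by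
  rw [h, ee_add, ee_int, mul_one]

/-- The complete sum. -/
theorem sum_ee_range {q : ℕ} (hq : 0 < q) (N : ℕ) (m : ℤ) :
    ∑ h ∈ range (N * q), ee ((m : ℝ) * h / q) = if (q : ℤ) ∣ m then ((N * q : ℕ) : ℂ) else 0 := by
  have hq' : (q : ℝ) ≠ 0 := by exact_mod_cast hq.ne'
  split_ifs with hd
  · obtain ⟨c, rfl⟩ := hd
    have : ∀ h ∈ range (N * q), ee (((q * c : ℤ) : ℝ) * h / q) = 1 := by
      intro h _
      rw [show (((q * c : ℤ) : ℝ) * h / q : ℝ) = ((c * h : ℤ) : ℝ) by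
        push_cast
        field_simp]
      exact ee_int _
    rw [Finset.sum_congr rfl this]
    simp
  · set w := ee ((m : ℝ) / q) with hw
    have hpow : ∀ h : ℕ, ee ((m : ℝ) * h / q) = w ^ h := by
      intro h
      induction h with
      | zero => simp [ee_zero]
      | succ n ih =>
        rw [pow_succ, ← ih, hw, ← ee_add]
        congr 1
        push_cast
        ring
    rw [Finset.sum_congr rfl fun h _ => hpow h]
    have hw1 : w ≠ 1 := by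
      intro h1
      rw [hw] at h1
      unfold ee at h1
      rw [Complex.exp_eq_one_iff] at h1
      obtain ⟨n, hn⟩ := h1
      have h2 : (2 * Real.pi * Complex.I : ℂ) ≠ 0 := Complex.two_pi_I_ne_zero
      have h3 : (((m : ℝ) / q : ℝ) : ℂ) = n := by
        have h4 : (2 * Real.pi * Complex.I : ℂ) * (((m : ℝ) / q : ℝ) : ℂ)
          = (2 * Real.pi * Complex.I : ℂ) * n := by rw [hn]; ring
        exact mul_left_cancel₀ h2 h4
      have h5 : ((m : ℝ) / q : ℝ) = n := by exact_mod_cast h3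
      rw [div_eq_iff hq'] at h5
      apply hd
      refine ⟨n, ?_⟩
      have h6 : (m : ℝ) = ((n * q : ℤ) : ℝ) := by rw [h5]; push_cast; ring
      have h7 : m = n * q := by exact_mod_cast h6
      rw [h7]; ring
    have hwq : w ^ (N * q) = 1 := by
      rw [← hpow]
      rw [show ((m : ℝ) * ((N * q : ℕ) : ℝ) / q : ℝ) = ((m * N : ℤ) : ℝ) by
        push_cast
        field_simp]
      exact ee_int _
    have := geom_sum_eq hw1 (N * q)
    rw [this, hwq, sub_self, zero_div]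

/-- Parseval modulo `q` with multiplicities. -/
theorem parseval_le {α : Type*} [DecidableEq α] (A : Finset α) (v : α → ℂ) (M : α → ℤ) {q : ℕ}
    (hq : 0 < q) (N : ℕ) {K : ℝ}
    (hK : ∀ a ∈ A, ((A.filter (fun b => (q : ℤ) ∣ M a - M b)).card : ℝ) ≤ K) :
    ∑ h ∈ range (N * q), ‖∑ a ∈ A, v a * ee ((M a : ℝ) * h / q)‖ ^ 2
      ≤ (N * q : ℕ) * K * ∑ a ∈ A, ‖v a‖ ^ 2 := by
  classical
  have hexp : ((∑ h ∈ range (N * q), ‖∑ a ∈ A, v a * ee ((M a : ℝ) * h / q)‖ ^ 2 : ℝ) : ℂ)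
      = ∑ a ∈ A, ∑ b ∈ A, v a * (starRingEnd ℂ) (v b) *
          (if (q : ℤ) ∣ M a - M b then ((N * q : ℕ) : ℂ) else 0) := by
    push_cast
    have h1 : ∀ h ∈ range (N * q), ((‖∑ a ∈ A, v a * ee ((M a : ℝ) * h / q)‖ : ℂ) ^ 2)
        = ∑ a ∈ A, ∑ b ∈ A, v a * (starRingEnd ℂ) (v b) * ee (((M a - M b : ℤ) : ℝ) * h / q) := by
      intro h _
      rw [← Complex.mul_conj', map_sum, Finset.sum_mul_sum]
      refine Finset.sum_congr rfl fun a _ => Finset.sum_congr rfl fun b _ => ?_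
      rw [map_mul, conj_ee]
      have h2 : ee (((M a - M b : ℤ) : ℝ) * h / q)
          = ee ((M a : ℝ) * h / q) * ee (-((M b : ℝ) * h / q)) := by
        rw [← ee_add]
        congr 1
        push_cast
        ring
      rw [h2]
      ring
    rw [Finset.sum_congr rfl h1, Finset.sum_comm]
    refine Finset.sum_congr rfl fun a _ => ?_
    rw [Finset.sum_comm]
    refine Finset.sum_congr rfl fun b _ => ?_
    rw [← Finset.mul_sum, sum_ee_range hq]
    simp only [Nat.cast_mul]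
  have h0 : 0 ≤ ∑ h ∈ range (N * q), ‖∑ a ∈ A, v a * ee ((M a : ℝ) * h / q)‖ ^ 2 :=
    Finset.sum_nonneg fun _ _ => by positivity
  have hnorm : ∑ h ∈ range (N * q), ‖∑ a ∈ A, v a * ee ((M a : ℝ) * h / q)‖ ^ 2
      ≤ ∑ a ∈ A, ∑ b ∈ A, ‖v a‖ * ‖v b‖ * (if (q : ℤ) ∣ M a - M b then ((N * q : ℕ) : ℝ) else 0) := by
    have h1 := congrArg norm hexp
    rw [Complex.norm_real, Real.norm_of_nonneg h0] at h1
    rw [h1]
    refine (norm_sum_le _ _).trans (Finset.sum_le_sum fun a _ => (norm_sum_le _ _).trans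
      (Finset.sum_le_sum fun b _ => ?_))
    rw [norm_mul, norm_mul, RCLike.norm_conj]
    split_ifs
    · rw [Complex.norm_natCast]
    · simp
  refine hnorm.trans ?_
  have hNq : (0 : ℝ) ≤ ((N * q : ℕ) : ℝ) := by positivity
  -- |v a| |v b| ≤ (|v a|^2 + |v b|^2)/2 and symmetry
  have hsym : ∑ a ∈ A, ∑ b ∈ A, ‖v b‖ ^ 2 * (if (q : ℤ) ∣ M a - M b then ((N * q : ℕ) : ℝ) else 0)
      = ∑ a ∈ A, ∑ b ∈ A, ‖v a‖ ^ 2 * (if (q : ℤ) ∣ M a - M b then ((N * q : ℕ) : ℝ) else 0) := by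
    rw [Finset.sum_comm]
    refine Finset.sum_congr rfl fun a _ => Finset.sum_congr rfl fun b _ => ?_
    have h3 : ((q : ℤ) ∣ M b - M a) ↔ ((q : ℤ) ∣ M a - M b) := by
      rw [← dvd_neg, neg_sub]
    simp only [h3]
  have hrow : ∑ a ∈ A, ∑ b ∈ A, ‖v a‖ ^ 2 * (if (q : ℤ) ∣ M a - M b then ((N * q : ℕ) : ℝ) else 0)
      ≤ (N * q : ℕ) * K * ∑ a ∈ A, ‖v a‖ ^ 2 := by
    rw [Finset.mul_sum]
    refine Finset.sum_le_sum fun a ha => ?_
    rw [← Finset.mul_sum, ← Finset.sum_filter, Finset.sum_const, nsmul_eq_mul]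
    have h4 := hK a ha
    have h5 : (0 : ℝ) ≤ ‖v a‖ ^ 2 := by positivity
    calc ‖v a‖ ^ 2 * (((A.filter (fun b => (q : ℤ) ∣ M a - M b)).card : ℝ) * ((N * q : ℕ) : ℝ))
        ≤ ‖v a‖ ^ 2 * (K * ((N * q : ℕ) : ℝ)) := by gcongr
      _ = (N * q : ℕ) * K * ‖v a‖ ^ 2 := by ring
  calc ∑ a ∈ A, ∑ b ∈ A, ‖v a‖ * ‖v b‖ * (if (q : ℤ) ∣ M a - M b then ((N * q : ℕ) : ℝ) else 0)
      ≤ ∑ a ∈ A, ∑ b ∈ A, ((‖v a‖ ^ 2 + ‖v b‖ ^ 2) / 2) *
          (if (q : ℤ) ∣ M a - M b then ((N * q : ℕ) : ℝ) else 0) := by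
        refine Finset.sum_le_sum fun a _ => Finset.sum_le_sum fun b _ => ?_
        refine mul_le_mul_of_nonneg_right ?_ ?_
        · nlinarith [sq_nonneg (‖v a‖ - ‖v b‖)]
        · split_ifs
          · exact hNq
          · exact le_rfl
    _ = (∑ a ∈ A, ∑ b ∈ A, ‖v a‖ ^ 2 * (if (q : ℤ) ∣ M a - M b then ((N * q : ℕ) : ℝ) else 0)
        + ∑ a ∈ A, ∑ b ∈ A, ‖v b‖ ^ 2 *
          (if (q : ℤ) ∣ M a - M b then ((N * q : ℕ) : ℝ) else 0)) / 2 := by
        rw [← Finset.sum_add_distrib, Finset.sum_div]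
        refine Finset.sum_congr rfl fun a _ => ?_
        rw [← Finset.sum_add_distrib, Finset.sum_div]
        refine Finset.sum_congr rfl fun b _ => ?_
        ring
    _ = ∑ a ∈ A, ∑ b ∈ A, ‖v a‖ ^ 2 *
          (if (q : ℤ) ∣ M a - M b then ((N * q : ℕ) : ℝ) else 0) := by
        rw [hsym]
        ring
    _ ≤ _ := hrow

/-- The duality principle. -/
theorem duality {α β : Type*} (A : Finset α) (B : Finset β) (φ : α → β → ℂ) {Λ : ℝ}
    (hΛ : 0 ≤ Λ)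
    (h : ∀ v : α → ℂ, ∑ b ∈ B, ‖∑ a ∈ A, v a * φ a b‖ ^ 2 ≤ Λ * ∑ a ∈ A, ‖v a‖ ^ 2)
    (c : β → ℂ) :
    ∑ a ∈ A, ‖∑ b ∈ B, c b * φ a b‖ ^ 2 ≤ Λ * ∑ b ∈ B, ‖c b‖ ^ 2 := by
  set w : α → ℂ := fun a => ∑ b ∈ B, c b * φ a b with hw
  set T : ℝ := ∑ a ∈ A, ‖w a‖ ^ 2 with hT
  have hT0 : 0 ≤ T := Finset.sum_nonneg fun _ _ => by positivity
  have hC0 : 0 ≤ ∑ b ∈ B, ‖c b‖ ^ 2 := Finset.sum_nonneg fun _ _ => by positivity
  have hTe : (T : ℂ) = ∑ b ∈ B, c b * ∑ a ∈ A, (starRingEnd ℂ) (w a) * φ a b := by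
    rw [hT]
    push_cast
    have h1 : ∀ a ∈ A, ((‖w a‖ : ℂ) ^ 2) = ∑ b ∈ B, c b * ((starRingEnd ℂ) (w a) * φ a b) := by
      intro a _
      rw [← Complex.mul_conj']
      conv_lhs => rw [hw]
      rw [Finset.sum_mul]
      refine Finset.sum_congr rfl fun b _ => ?_
      ring
    rw [Finset.sum_congr rfl h1, Finset.sum_comm]
    refine Finset.sum_congr rfl fun b _ => ?_
    rw [Finset.mul_sum]
  have hT1 : T ≤ ∑ b ∈ B, ‖c b‖ * ‖∑ a ∈ A, (starRingEnd ℂ) (w a) * φ a b‖ := by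
    have h1 := congrArg norm hTe
    rw [Complex.norm_real, Real.norm_of_nonneg hT0] at h1
    rw [h1]
    refine (norm_sum_le _ _).trans (Finset.sum_le_sum fun b _ => ?_)
    rw [norm_mul]
  have hT2 : T ^ 2 ≤ (∑ b ∈ B, ‖c b‖ ^ 2) * (Λ * T) := by
    have h2 := Finset.sum_mul_sq_le_sq_mul_sq B (fun b => ‖c b‖)
      (fun b => ‖∑ a ∈ A, (starRingEnd ℂ) (w a) * φ a b‖)
    have h3 := h (fun a => (starRingEnd ℂ) (w a))
    simp only [RCLike.norm_conj] at h3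
    calc T ^ 2 ≤ (∑ b ∈ B, ‖c b‖ * ‖∑ a ∈ A, (starRingEnd ℂ) (w a) * φ a b‖) ^ 2 :=
          pow_le_pow_left₀ hT0 hT1 2
      _ ≤ _ := h2
      _ ≤ (∑ b ∈ B, ‖c b‖ ^ 2) * (Λ * T) := by gcongr
  by_contra hcon
  push Not at hcon
  have hTpos : 0 < T := lt_of_le_of_lt (mul_nonneg hΛ hC0) hcon
  have : T * T ≤ (Λ * ∑ b ∈ B, ‖c b‖ ^ 2) * T := by
    calc T * T = T ^ 2 := by ring
      _ ≤ _ := hT2
      _ = _ := by ring
  exact absurd (le_of_mul_le_mul_right this hTpos) (not_le.2 hcon)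

end Pool.Agent.Lib.MP_570bef_ntLV.H
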