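import Mathlib
import Pool.Agent.Lib.MP_570bef_ntLV.Hb
import Pool.Agent.Lib.MP_570bef_ntV.VM.Nat

/-!
# Block H, file c: sums of polynomials whose top coefficients are spaced modulo `q`
-/

namespace Pool.Agent.Lib.MP_570bef_ntLV.H

open Finset Complex

/-- Counting coincidences of a map. -/
theorem sum_fibre_sq {α γ : Type*} [Fintype α] [DecidableEq γ] (f : α → γ) (B : Finset γ)
    (hf : ∀ x, f x ∈ B) :
    ∑ b ∈ B, (∑ x : α, (if f x = b then (1 : ℝ) else 0)) ^ 2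
      = (((Finset.univ : Finset (α × α)).filter (fun q => f q.1 = f q.2)).card : ℝ) := by
  classical
  have h1 : ∀ b ∈ B, (∑ x : α, (if f x = b then (1 : ℝ) else 0)) ^ 2
      = ∑ q : α × α, (if f q.1 = f q.2 then (if f q.1 = b then (1 : ℝ) else 0) else 0) := by
    intro b _
    rw [sq, Finset.sum_mul_sum, Fintype.sum_prod_type]
    refine Finset.sum_congr rfl fun x _ => Finset.sum_congr rfl fun y _ => ?_
    by_cases h1 : f x = b
    · by_cases h2 : f y = b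
      · simp [h1, h2]
      · have h3 : ¬ f x = f y := by rw [h1]; exact fun h => h2 h.symm
        simp [h2, h3]
    · simp [h1]
  rw [Finset.sum_congr rfl h1, Finset.sum_comm]
  have h2 : ∀ q : α × α, ∑ b ∈ B, (if f q.1 = f q.2 then (if f q.1 = b then (1 : ℝ) else 0) else 0)
      = if f q.1 = f q.2 then 1 else 0 := by
    intro q
    split_ifs with h
    · rw [Finset.sum_ite_eq, if_pos (hf q.1)]
    · exact Finset.sum_const_zero
  rw [Finset.sum_congr rfl fun q _ => h2 q, Finset.sum_boole]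

/-- The main inequality: a family of polynomials of degree `r0 + 1` without constant term whose
top coefficients are `M y / q`, each class modulo `q` being taken at most `K` times. -/
theorem mult_le {r0 s Z : ℕ} (A : Finset ℕ) (g : ℕ → Fin r0 → ℝ) (M : ℕ → ℤ)
    {q : ℕ} (hq : 0 < q) {K : ℝ}
    (hK : ∀ a ∈ A, ((A.filter (fun b => (q : ℤ) ∣ M a - M b)).card : ℝ) ≤ K) (hK0 : 0 ≤ K) :
    ∑ y ∈ A, ‖∑ z ∈ range Z, ee (∑ j : Fin r0, g y j * (z : ℝ) ^ ((j : ℕ) + 1)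
        + (M y : ℝ) * (z : ℝ) ^ (r0 + 1) / q)‖ ^ (2 * s)
      ≤ K * (∏ j : Fin r0, ((s * Z ^ ((j : ℕ) + 1) + 1 : ℕ) : ℝ)) * ((s * Z ^ (r0 + 1) + q : ℕ) : ℝ)
        * (VM.JN s (r0 + 1) Z : ℝ) := by
  classical
  set N := s * Z ^ (r0 + 1) / q + 1 with hN
  have hN1 : s * Z ^ (r0 + 1) < N * q := by
    rw [hN, add_mul, one_mul]
    have := Nat.lt_div_mul_add (a := s * Z ^ (r0 + 1)) hq
    exact this
  have hN2 : N * q ≤ s * Z ^ (r0 + 1) + q := by
    rw [hN, add_mul, one_mul]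
    exact Nat.add_le_add_right (Nat.div_mul_le_self _ _) _
  -- the vector of power sums
  let X := Fin s → Fin Z
  let P' : X → Fin r0 → ℕ := fun x j => ∑ i, ((x i : ℕ)) ^ ((j : ℕ) + 1)
  let T : X → ℕ := fun x => ∑ i, ((x i : ℕ)) ^ (r0 + 1)
  let H' : Finset (Fin r0 → ℕ) := Fintype.piFinset fun j : Fin r0 => range (s * Z ^ ((j : ℕ) + 1) + 1)
  let H : Finset ((Fin r0 → ℕ) × ℕ) := H' ×ˢ range (N * q)
  have hbd : ∀ (x : X) (t : ℕ), ∑ i, ((x i : ℕ)) ^ t ≤ s * Z ^ t := by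
    intro x t
    calc ∑ i, ((x i : ℕ)) ^ t ≤ ∑ _i : Fin s, Z ^ t :=
          Finset.sum_le_sum fun i _ => Nat.pow_le_pow_left (x i).isLt.le t
      _ = s * Z ^ t := by simp
  have hP : ∀ x : X, (P' x, T x) ∈ H := by
    intro x
    refine Finset.mem_product.2 ⟨?_, ?_⟩
    · refine Fintype.mem_piFinset.2 fun j => Finset.mem_range.2 (Nat.lt_succ_of_le (hbd x _))
    · exact Finset.mem_range.2 (lt_of_le_of_lt (hbd x _) hN1)
  let c : ((Fin r0 → ℕ) × ℕ) → ℂ := fun h => ∑ x : X, (if (P' x, T x) = h then (1 : ℂ) else 0)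
  let φ : ℕ → ((Fin r0 → ℕ) × ℕ) → ℂ := fun y h =>
    ee (∑ j : Fin r0, g y j * (h.1 j : ℝ) + (M y : ℝ) * (h.2 : ℝ) / q)
  -- expansion of the power
  have hexp : ∀ y, (∑ z ∈ range Z, ee (∑ j : Fin r0, g y j * (z : ℝ) ^ ((j : ℕ) + 1)
        + (M y : ℝ) * (z : ℝ) ^ (r0 + 1) / q)) ^ s = ∑ h ∈ H, c h * φ y h := by
    intro y
    rw [Finset.sum_range, Fintype.sum_pow]
    have h1 : ∀ x : Fin s → Fin Z, ∏ i, ee (∑ j : Fin r0, g y j * (((x i : ℕ) : ℝ)) ^ ((j : ℕ) + 1)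
        + (M y : ℝ) * (((x i : ℕ) : ℝ)) ^ (r0 + 1) / q) = φ y (P' x, T x) := by
      intro x
      rw [← ee_sum]
      change _ = ee _
      congr 1
      rw [Finset.sum_add_distrib, Finset.sum_comm]
      congr 1
      · refine Finset.sum_congr rfl fun j _ => ?_
        rw [← Finset.mul_sum]
        congr 1
        change _ = ((∑ i, ((x i : ℕ)) ^ ((j : ℕ) + 1) : ℕ) : ℝ)
        push_cast
        rfl
      · rw [← Finset.sum_div, ← Finset.mul_sum]
        congr 2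
        change _ = ((∑ i, ((x i : ℕ)) ^ (r0 + 1) : ℕ) : ℝ)
        push_cast
        rfl
    rw [Finset.sum_congr rfl fun x _ => h1 x]
    have h2 : ∀ h ∈ H, c h * φ y h = ∑ x : X, (if (P' x, T x) = h then φ y h else 0) := by
      intro h _
      change (∑ x : X, (if (P' x, T x) = h then (1 : ℂ) else 0)) * φ y h = _
      rw [Finset.sum_mul]
      refine Finset.sum_congr rfl fun x _ => ?_
      split_ifs <;> simp
    rw [Finset.sum_congr rfl h2, Finset.sum_comm]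
    refine Finset.sum_congr rfl fun x _ => ?_
    rw [Finset.sum_ite_eq, if_pos (hP x)]
  -- the dual inequality
  set Λ : ℝ := (∏ j : Fin r0, ((s * Z ^ ((j : ℕ) + 1) + 1 : ℕ) : ℝ)) * (((N * q : ℕ) : ℝ) * K) with hΛ
  have hΛ0 : 0 ≤ Λ := by
    rw [hΛ]
    refine mul_nonneg (Finset.prod_nonneg fun j _ => by positivity) (by positivity)
  have hH' : (H'.card : ℝ) = ∏ j : Fin r0, ((s * Z ^ ((j : ℕ) + 1) + 1 : ℕ) : ℝ) := by
    change ((Fintype.piFinset fun j : Fin r0 => range (s * Z ^ ((j : ℕ) + 1) + 1)).card : ℝ) = _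
    rw [Fintype.card_piFinset]
    push_cast
    refine Finset.prod_congr rfl fun j _ => ?_
    rw [Finset.card_range]
    push_cast
    ring
  have hdual : ∀ v : ℕ → ℂ, ∑ h ∈ H, ‖∑ y ∈ A, v y * φ y h‖ ^ 2 ≤ Λ * ∑ y ∈ A, ‖v y‖ ^ 2 := by
    intro v
    rw [Finset.sum_product]
    have h1 : ∀ h' ∈ H', ∑ t ∈ range (N * q), ‖∑ y ∈ A, v y * φ y (h', t)‖ ^ 2
        ≤ ((N * q : ℕ) : ℝ) * K * ∑ y ∈ A, ‖v y‖ ^ 2 := by
      intro h' _
      have h2 := parseval_le A (fun y => v y * ee (∑ j : Fin r0, g y j * (h' j : ℝ))) M hq N hK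
      have h3 : ∀ y ∈ A, ‖v y * ee (∑ j : Fin r0, g y j * (h' j : ℝ))‖ ^ 2 = ‖v y‖ ^ 2 := by
        intro y _
        rw [norm_mul, norm_ee, mul_one]
      rw [Finset.sum_congr rfl h3] at h2
      refine le_trans (le_of_eq ?_) h2
      refine Finset.sum_congr rfl fun t _ => ?_
      congr 2
      refine Finset.sum_congr rfl fun y _ => ?_
      change v y * ee (∑ j : Fin r0, g y j * (h' j : ℝ) + (M y : ℝ) * (t : ℝ) / q) = _
      rw [ee_add]
      ring
    calc ∑ h' ∈ H', ∑ t ∈ range (N * q), ‖∑ y ∈ A, v y * φ y (h', t)‖ ^ 2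
        ≤ ∑ _h' ∈ H', ((N * q : ℕ) : ℝ) * K * ∑ y ∈ A, ‖v y‖ ^ 2 := Finset.sum_le_sum h1
      _ = Λ * ∑ y ∈ A, ‖v y‖ ^ 2 := by
          rw [Finset.sum_const, nsmul_eq_mul, hH', hΛ]
          ring
  have hmain := duality A H φ hΛ0 hdual c
  have hc : ∑ h ∈ H, ‖c h‖ ^ 2 = (VM.JN s (r0 + 1) Z : ℝ) := by
    have h1 : ∀ h, ‖c h‖ = ∑ x : X, (if (P' x, T x) = h then (1 : ℝ) else 0) := by
      intro h
      have h2 : c h = ((∑ x : X, (if (P' x, T x) = h then (1 : ℝ) else 0) : ℝ) : ℂ) := by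
        change (∑ x : X, (if (P' x, T x) = h then (1 : ℂ) else 0)) = _
        rw [Complex.ofReal_sum]
        refine Finset.sum_congr rfl fun x _ => ?_
        split_ifs <;> simp
      rw [h2, Complex.norm_real, Real.norm_of_nonneg]
      exact Finset.sum_nonneg fun x _ => by split_ifs <;> norm_num
    rw [Finset.sum_congr rfl fun h _ => by rw [h1 h],
      sum_fibre_sq (fun x : X => (P' x, T x)) H hP]
    congr 1
    unfold VM.JN
    congr 1
    refine Finset.filter_congr fun p _ => ?_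
    constructor
    · intro h j hj
      obtain ⟨hj1, hj2⟩ := Finset.mem_Icc.1 hj
      have ha : P' p.1 = P' p.2 := congrArg Prod.fst h
      have hb : T p.1 = T p.2 := congrArg Prod.snd h
      rcases Nat.lt_or_ge (j - 1) r0 with hlt | hge
      · have := congrFun ha ⟨j - 1, hlt⟩
        have h5 : j - 1 + 1 = j := by omega
        change ∑ i, ((p.1 i : ℕ)) ^ (j - 1 + 1) = ∑ i, ((p.2 i : ℕ)) ^ (j - 1 + 1) at this
        rwa [h5] at this
      · have h5 : j = r0 + 1 := by omega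
        rw [h5]
        exact hb
    · intro h
      refine Prod.ext ?_ ?_
      · funext j
        exact h _ (Finset.mem_Icc.2 ⟨by omega, by have := j.isLt; omega⟩)
      · exact h _ (Finset.mem_Icc.2 ⟨by omega, le_rfl⟩)
  rw [hc] at hmain
  have hlhs : ∀ y ∈ A, ‖∑ z ∈ range Z, ee (∑ j : Fin r0, g y j * (z : ℝ) ^ ((j : ℕ) + 1)
        + (M y : ℝ) * (z : ℝ) ^ (r0 + 1) / q)‖ ^ (2 * s) = ‖∑ h ∈ H, c h * φ y h‖ ^ 2 := by
    intro y _
    rw [← hexp y, norm_pow, ← pow_mul, mul_comm s 2]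
  rw [Finset.sum_congr rfl hlhs]
  refine hmain.trans ?_
  rw [hΛ]
  have hN3 : ((N * q : ℕ) : ℝ) ≤ ((s * Z ^ (r0 + 1) + q : ℕ) : ℝ) := by exact_mod_cast hN2
  have hpr : 0 ≤ ∏ j : Fin r0, ((s * Z ^ ((j : ℕ) + 1) + 1 : ℕ) : ℝ) :=
    Finset.prod_nonneg fun j _ => by positivity
  calc (∏ j : Fin r0, ((s * Z ^ ((j : ℕ) + 1) + 1 : ℕ) : ℝ)) * (((N * q : ℕ) : ℝ) * K)
        * (VM.JN s (r0 + 1) Z : ℝ)
      ≤ (∏ j : Fin r0, ((s * Z ^ ((j : ℕ) + 1) + 1 : ℕ) : ℝ)) *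
          (((s * Z ^ (r0 + 1) + q : ℕ) : ℝ) * K) * (VM.JN s (r0 + 1) Z : ℝ) := by gcongr
    _ = _ := by ring

end Pool.Agent.Lib.MP_570bef_ntLV.H
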