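import Mathlib
import Pool.Agent.Lib.MP_570bef_ntLV.Ha
import Pool.Agent.Lib.MP_570bef_ntLV.Hc

/-!
# Block H, file d: the sum over `y` coprime to `P` of `e (n y ^ k / q)` through the sums over
`y = y₀ + u z`
-/

namespace Pool.Agent.Lib.MP_570bef_ntLV.H

open Finset Complex

/-- The exponents of the step `u`. -/
def aa (r : ℕ) (j : ℕ → ℕ) (p : ℕ) : ℕ := max 1 ((j p + r) / (r + 1))

theorem aa_pos (r : ℕ) (j : ℕ → ℕ) (p : ℕ) : 1 ≤ aa r j p := le_max_left _ _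

theorem le_aa (r : ℕ) (j : ℕ → ℕ) (p : ℕ) : j p ≤ (r + 1) * aa r j p := by
  have h1 : (j p + r) / (r + 1) ≤ aa r j p := le_max_right _ _
  have h2 : j p ≤ (r + 1) * ((j p + r) / (r + 1)) := by
    have h3 := Nat.div_add_mod (j p + r) (r + 1)
    have h4 : (j p + r) % (r + 1) < r + 1 := Nat.mod_lt _ (Nat.succ_pos r)
    omega
  exact h2.trans (Nat.mul_le_mul_left _ h1)

/-- The step. -/
def uu (P : Finset ℕ) (r : ℕ) (j : ℕ → ℕ) : ℕ := pp P (aa r j)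

/-- The denominator of the top coefficient. -/
def qq (P : Finset ℕ) (r : ℕ) (j : ℕ → ℕ) : ℕ := pp P (fun p => j p - r * aa r j p)

/-- The numerator. -/
def ww (P : Finset ℕ) (r : ℕ) (j : ℕ → ℕ) : ℕ := pp P (fun p => r * aa r j p - j p)

theorem uu_pow (P : Finset ℕ) (r : ℕ) (j : ℕ → ℕ) :
    uu P r j ^ r * qq P r j = pp P j * ww P r j := by
  unfold uu qq ww
  rw [pp_pow, pp_mul, pp_mul]
  refine pp_congr fun p _ => ?_
  rw [mul_comm (aa r j p) r]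
  omega

theorem qq_dvd (P : Finset ℕ) (r : ℕ) (j : ℕ → ℕ) : qq P r j ∣ uu P r j := by
  refine pp_dvd fun p _ => ?_
  have := le_aa r j p
  rw [add_mul, one_mul] at this
  omega

theorem dvd_uu_pow (P : Finset ℕ) (r : ℕ) (j : ℕ → ℕ) : pp P j ∣ uu P r j ^ (r + 1) := by
  unfold uu
  rw [pp_pow]
  refine pp_dvd fun p _ => ?_
  have := le_aa r j p
  rw [mul_comm] at this
  exact this

theorem dvd_uu {P : Finset ℕ} {p : ℕ} (hp : p ∈ P) (r : ℕ) (j : ℕ → ℕ) : p ∣ uu P r j := by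
  unfold uu pp
  refine dvd_trans ?_ (Finset.dvd_prod_of_mem _ hp)
  exact dvd_pow_self p (by have := aa_pos r j p; omega)

/-- Splitting the binomial sum. -/
theorem sum_split (f : ℕ → ℕ) {k r0 : ℕ} (hr : r0 + 1 < k) :
    ∑ t ∈ range (k + 1), f t
      = f 0 + (∑ i : Fin r0, f ((i : ℕ) + 1)) + f (r0 + 1)
        + ∑ x ∈ range (k - 1 - r0), f (r0 + 2 + x) := by
  have h1 : k + 1 = (r0 + 2) + (k - 1 - r0) := by omega
  have h2 : ∑ t ∈ range (k + 1), f t = ∑ t ∈ range (r0 + 2), f t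
      + ∑ x ∈ range (k - 1 - r0), f (r0 + 2 + x) := by
    conv_lhs => rw [h1]
    rw [Finset.sum_range_add]
  rw [h2, Finset.sum_range_succ, Finset.sum_range_succ', Finset.sum_range (fun i => f (i + 1))]
  ring

/-- The expansion of `n (y + u z) ^ k / q` modulo integers. -/
theorem expand {P : Finset ℕ} (hP : ∀ p ∈ P, p.Prime) {k r0 : ℕ} (hr : r0 + 1 < k)
    (j : ℕ → ℕ) (n : ℤ) (y z : ℕ) :
    ∃ N : ℤ, (n : ℝ) * ((y + uu P (r0 + 1) j * z : ℕ) : ℝ) ^ k / (pp P j : ℕ)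
      = (n : ℝ) * (y : ℝ) ^ k / (pp P j : ℕ)
        + ((∑ i : Fin r0, ((n : ℝ) * ((k.choose ((i : ℕ) + 1) : ℕ) : ℝ)
              * (uu P (r0 + 1) j : ℝ) ^ ((i : ℕ) + 1) * (y : ℝ) ^ (k - ((i : ℕ) + 1))
              / (pp P j : ℕ)) * (z : ℝ) ^ ((i : ℕ) + 1))
          + ((n * (k.choose (r0 + 1) : ℤ) * (ww P (r0 + 1) j : ℤ) * (y : ℤ) ^ (k - (r0 + 1)) : ℤ) : ℝ)
              * (z : ℝ) ^ (r0 + 1) / (qq P (r0 + 1) j : ℕ))
        + (N : ℝ) := by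
  set u := uu P (r0 + 1) j with hu
  set q := pp P j with hq
  have hq0 : (q : ℝ) ≠ 0 := by exact_mod_cast (pp_pos hP j).ne'
  have hq1 : ((qq P (r0 + 1) j : ℕ) : ℝ) ≠ 0 := by exact_mod_cast (pp_pos hP _).ne'
  have hbin : (y + u * z) ^ k = ∑ t ∈ range (k + 1), k.choose t * (u ^ t * y ^ (k - t) * z ^ t) := by
    rw [add_comm, add_pow]
    refine Finset.sum_congr rfl fun t _ => ?_
    rw [mul_pow, Nat.cast_id]
    ring
  rw [sum_split _ hr] at hbin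
  have hdvd : q ∣ ∑ x ∈ range (k - 1 - r0), k.choose (r0 + 2 + x)
      * (u ^ (r0 + 2 + x) * y ^ (k - (r0 + 2 + x)) * z ^ (r0 + 2 + x)) := by
    refine Finset.dvd_sum fun x _ => ?_
    refine dvd_mul_of_dvd_right ?_ _
    refine dvd_mul_of_dvd_left ?_ _
    refine dvd_mul_of_dvd_left ?_ _
    exact (dvd_uu_pow P (r0 + 1) j).trans (pow_dvd_pow u (by omega))
  obtain ⟨c, hc⟩ := hdvd
  rw [hc] at hbin
  refine ⟨n * c, ?_⟩
  have hb := congrArg (fun m : ℕ => (m : ℝ)) hbin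
  simp only [Nat.cast_pow] at hb
  rw [hb]
  have hw : (u : ℝ) ^ (r0 + 1) / (q : ℝ) = (ww P (r0 + 1) j : ℝ) / ((qq P (r0 + 1) j : ℕ) : ℝ) := by
    rw [div_eq_div_iff hq0 hq1]
    have := uu_pow P (r0 + 1) j
    rw [← hu, ← hq] at this
    have h2 : ((u ^ (r0 + 1) * qq P (r0 + 1) j : ℕ) : ℝ) = ((q * ww P (r0 + 1) j : ℕ) : ℝ) := by
      rw [this]
    push_cast at h2
    rw [h2]
    ring
  have hs : (∑ i : Fin r0, ((n : ℝ) * ((k.choose ((i : ℕ) + 1) : ℕ) : ℝ)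
              * (u : ℝ) ^ ((i : ℕ) + 1) * (y : ℝ) ^ (k - ((i : ℕ) + 1))
              / (q : ℕ)) * (z : ℝ) ^ ((i : ℕ) + 1))
      = (n : ℝ) * (∑ i : Fin r0, ((k.choose ((i : ℕ) + 1) : ℕ) : ℝ)
              * ((u : ℝ) ^ ((i : ℕ) + 1) * (y : ℝ) ^ (k - ((i : ℕ) + 1))
               * (z : ℝ) ^ ((i : ℕ) + 1))) / q := by
    rw [Finset.mul_sum, Finset.sum_div]
    refine Finset.sum_congr rfl fun i _ => ?_
    ring
  rw [hs]
  have ht : ((n * (k.choose (r0 + 1) : ℤ) * (ww P (r0 + 1) j : ℤ) * (y : ℤ) ^ (k - (r0 + 1)) : ℤ) : ℝ)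
              * (z : ℝ) ^ (r0 + 1) / (qq P (r0 + 1) j : ℕ)
      = (n : ℝ) * ((k.choose (r0 + 1) : ℝ) * ((u : ℝ) ^ (r0 + 1) * (y : ℝ) ^ (k - (r0 + 1))
          * (z : ℝ) ^ (r0 + 1))) / q := by
    have : (n : ℝ) * ((k.choose (r0 + 1) : ℝ) * ((u : ℝ) ^ (r0 + 1) * (y : ℝ) ^ (k - (r0 + 1))
          * (z : ℝ) ^ (r0 + 1))) / q = (n : ℝ) * ((k.choose (r0 + 1) : ℝ) *
          ((u : ℝ) ^ (r0 + 1) / (q : ℝ)) * (y : ℝ) ^ (k - (r0 + 1)) * (z : ℝ) ^ (r0 + 1)) := by ring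
    rw [this, hw]
    push_cast
    ring
  rw [ht]
  push_cast
  simp only [pow_zero, Nat.choose_zero_right, Nat.cast_one, Nat.sub_zero, one_mul, mul_one]
  field_simp
  ring

/-- Sums over `range (u * Z)` by classes modulo `u`. -/
theorem sum_range_mul' {β : Type*} [AddCommMonoid β] (F : ℕ → β) (u Z : ℕ) :
    ∑ y ∈ range (u * Z), F y = ∑ y ∈ range u, ∑ z ∈ range Z, F (y + u * z) := by
  rw [Finset.sum_comm]
  induction Z with
  | zero => simp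
  | succ Z ih =>
    rw [mul_add, mul_one, Finset.sum_range_add, ih, Finset.sum_range_succ]
    congr 1
    exact Finset.sum_congr rfl fun x _ => by rw [add_comm]

end Pool.Agent.Lib.MP_570bef_ntLV.H
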