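import Mathlib
import Pool.Agent.Lib.MP_570bef_ntLV.Hd

/-!
# Block H, file e: the bound of the sum over `y` coprime to `P` by `J_{s,r}`
-/

namespace Pool.Agent.Lib.MP_570bef_ntLV.H

open Finset Complex

/-- The numerators of the top coefficients. -/
def MM (P : Finset ℕ) (k r : ℕ) (j : ℕ → ℕ) (n : ℤ) (y : ℕ) : ℤ :=
  n * (k.choose r : ℤ) * (ww P r j : ℤ) * (y : ℤ) ^ (k - r)

theorem cop_iff {P : Finset ℕ} (r : ℕ) (j : ℕ → ℕ) (y z : ℕ) :
    (∀ p ∈ P, ¬ p ∣ y + uu P r j * z) ↔ (∀ p ∈ P, ¬ p ∣ y) := by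
  refine forall₂_congr fun p hp => not_congr ?_
  exact Nat.dvd_add_left (dvd_mul_of_dvd_left (dvd_uu hp _ _) z)

theorem not_dvd_ww {P : Finset ℕ} (hP : ∀ p ∈ P, p.Prime) (r : ℕ) (j : ℕ → ℕ) {p : ℕ}
    (hp : p ∈ P) (h : r * aa r j p < j p) : ¬ p ∣ ww P r j := by
  intro h1
  unfold ww pp at h1
  rw [Prime.dvd_finsetProd_iff (hP p hp).prime] at h1
  obtain ⟨p', hp', h2⟩ := h1
  have h3 : p ∣ p' := (hP p hp).dvd_of_dvd_pow h2
  have h4 : p = p' := (Nat.prime_dvd_prime_iff_eq (hP p hp) (hP p' hp')).1 h3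
  subst h4
  simp only at h2
  rw [show r * aa r j p - j p = 0 by omega, pow_zero] at h2
  exact (hP p hp).one_lt.ne' (Nat.dvd_one.1 h2)

theorem not_dvd_choose {p k r : ℕ} (hp : p.Prime) (hk : k < p) (hr : r ≤ k) :
    ¬ p ∣ k.choose r := by
  intro h
  have h1 : k.choose r ∣ k.factorial := by
    rw [← Nat.choose_mul_factorial_mul_factorial hr, mul_assoc]
    exact dvd_mul_right _ _
  have h2 := (hp.dvd_factorial).1 (h.trans h1)
  omega

/-- The size of the classes. -/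
theorem class_card {P : Finset ℕ} (hP : ∀ p ∈ P, p.Prime) {k r : ℕ} (hk : ∀ p ∈ P, k < p)
    (hr : r < k) (j : ℕ → ℕ) {n : ℤ} (hn : ∀ p ∈ P, 0 < j p → ¬ (p : ℤ) ∣ n) (y : ℕ) :
    (((range (uu P r j)).filter (fun x => ∀ p ∈ P, ¬ p ∣ x)).filter
      (fun b => ((qq P r j : ℕ) : ℤ) ∣ MM P k r j n y - MM P k r j n b)).card
      ≤ (uu P r j / qq P r j) * k ^ P.card := by
  have hd : ∀ p ∈ P, ¬ p ∣ k - r := by
    intro p hp h
    have h1 := Nat.le_of_dvd (by omega) h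
    have h2 := hk p hp
    omega
  have h1 := card_roots_range_le hP (show 0 < k - r by omega) hd
    (e := fun p => j p - r * aa r j p) y (u := uu P r j) (qq_dvd P r j)
  have h2 : (((range (uu P r j)).filter (fun x => ∀ p ∈ P, ¬ p ∣ x)).filter
      (fun b => ((qq P r j : ℕ) : ℤ) ∣ MM P k r j n y - MM P k r j n b)).card
      ≤ ((range (uu P r j)).filter (fun x => (∀ p ∈ P, ¬ p ∣ x) ∧
      ((pp P (fun p => j p - r * aa r j p) : ℕ) : ℤ) ∣ (x : ℤ) ^ (k - r)
        - (y : ℤ) ^ (k - r))).card := by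
    refine Finset.card_le_card ?_
    intro b hb
    rw [Finset.mem_filter, Finset.mem_filter] at hb
    obtain ⟨⟨hb1, hb2⟩, hb3⟩ := hb
    rw [Finset.mem_filter]
    refine ⟨hb1, hb2, ?_⟩
    refine pp_dvd_int hP fun p hp => ?_
    by_cases he : j p - r * aa r j p = 0
    · rw [he, pow_zero]
      exact one_dvd _
    · have h3 : r * aa r j p < j p := by omega
      have h4 : ((p : ℤ) ^ (j p - r * aa r j p)) ∣ MM P k r j n y - MM P k r j n b := by
        refine dvd_trans ?_ hb3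
        have : p ^ (j p - r * aa r j p) ∣ qq P r j := by
          unfold qq pp
          exact Finset.dvd_prod_of_mem (fun p => p ^ (j p - r * aa r j p)) hp
        exact_mod_cast this
      have h5 : MM P k r j n y - MM P k r j n b
          = (n * (k.choose r : ℤ) * (ww P r j : ℤ)) * ((y : ℤ) ^ (k - r) - (b : ℤ) ^ (k - r)) := by
        unfold MM
        ring
      rw [h5] at h4
      have hpp : Prime (p : ℤ) := Nat.prime_iff_prime_int.1 (hP p hp)
      have h6 : ¬ (p : ℤ) ∣ n * (k.choose r : ℤ) * (ww P r j : ℤ) := by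
        intro h
        rcases hpp.dvd_or_dvd h with h | h
        · rcases hpp.dvd_or_dvd h with h | h
          · exact hn p hp (by omega) h
          · exact not_dvd_choose (hP p hp) (hk p hp) hr.le (by exact_mod_cast h)
        · exact not_dvd_ww hP r j hp h3 (by exact_mod_cast h)
      have h7 : IsCoprime ((p : ℤ) ^ (j p - r * aa r j p))
          (n * (k.choose r : ℤ) * (ww P r j : ℤ)) :=
        IsCoprime.pow_left ((hpp.coprime_iff_not_dvd).2 h6)
      have h8 := h7.dvd_of_dvd_mul_left h4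
      rw [show (b : ℤ) ^ (k - r) - (y : ℤ) ^ (k - r)
        = -((y : ℤ) ^ (k - r) - (b : ℤ) ^ (k - r)) by ring]
      exact (dvd_neg).2 h8
  refine h2.trans (h1.trans ?_)
  exact Nat.mul_le_mul_left _ (Nat.pow_le_pow_left (Nat.sub_le _ _) _)

/-- Norm of a sum over a short interval. -/
theorem norm_short (F : ℕ → ℂ) (hF : ∀ y, ‖F y‖ ≤ 1) (N m : ℕ) :
    ‖∑ x ∈ range m, F (N + x)‖ ≤ m := by
  refine (norm_sum_le _ _).trans ?_
  refine (Finset.sum_le_sum fun x _ => hF (N + x)).trans ?_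
  simp

/-- The main bound. -/
theorem main_bound {P : Finset ℕ} (hP : ∀ p ∈ P, p.Prime) {k r0 s : ℕ} (hk : ∀ p ∈ P, k < p)
    (hr : r0 + 1 < k) (hs : 1 ≤ s) (j : ℕ → ℕ) {n : ℤ} (hn : ∀ p ∈ P, 0 < j p → ¬ (p : ℤ) ∣ n)
    (Y : ℕ) :
    ∃ T : ℝ, 0 ≤ T ∧
      ‖∑ y ∈ (range Y).filter (fun y => ∀ p ∈ P, ¬ p ∣ y),
        ee ((n : ℝ) * (y : ℝ) ^ k / (pp P j : ℕ))‖ ≤ (uu P (r0 + 1) j : ℕ) + T ∧
      T ^ (2 * s) ≤ ((uu P (r0 + 1) j : ℕ) : ℝ) ^ (2 * s - 1)
        * ((((uu P (r0 + 1) j / qq P (r0 + 1) j) * k ^ P.card : ℕ) : ℝ)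
          * (∏ i : Fin r0, ((s * (Y / uu P (r0 + 1) j) ^ ((i : ℕ) + 1) + 1 : ℕ) : ℝ))
          * ((s * (Y / uu P (r0 + 1) j) ^ (r0 + 1) + qq P (r0 + 1) j : ℕ) : ℝ)
          * (VM.JN s (r0 + 1) (Y / uu P (r0 + 1) j) : ℝ)) := by
  classical
  set u := uu P (r0 + 1) j with hu
  set q' := qq P (r0 + 1) j with hq'
  set q := pp P j with hq
  set Z := Y / u with hZ
  have hu0 : 0 < u := pp_pos hP _
  have hq'0 : 0 < q' := pp_pos hP _
  -- the pieces
  let F : ℕ → ℂ := fun y => if (∀ p ∈ P, ¬ p ∣ y) then ee ((n : ℝ) * (y : ℝ) ^ k / (q : ℕ)) else 0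
  have hF1 : ∀ y, ‖F y‖ ≤ 1 := by
    intro y
    simp only [F]
    split_ifs
    · rw [norm_ee]
    · simp
  let g : ℕ → Fin r0 → ℝ := fun y i => (n : ℝ) * ((k.choose ((i : ℕ) + 1) : ℕ) : ℝ)
      * (u : ℝ) ^ ((i : ℕ) + 1) * (y : ℝ) ^ (k - ((i : ℕ) + 1)) / (q : ℕ)
  let G : ℕ → ℂ := fun y => ∑ z ∈ range Z, ee (∑ i : Fin r0, g y i * (z : ℝ) ^ ((i : ℕ) + 1)
        + (MM P k (r0 + 1) j n y : ℝ) * (z : ℝ) ^ (r0 + 1) / q')
  let A := (range u).filter (fun x => ∀ p ∈ P, ¬ p ∣ x)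
  have hsplit : ∑ y ∈ (range Y).filter (fun y => ∀ p ∈ P, ¬ p ∣ y),
        ee ((n : ℝ) * (y : ℝ) ^ k / (q : ℕ)) = ∑ y ∈ A, ee ((n : ℝ) * (y : ℝ) ^ k / (q : ℕ)) * G y
          + ∑ x ∈ range (Y % u), F (u * Z + x) := by
    rw [Finset.sum_filter]
    change ∑ y ∈ range Y, F y = _
    conv_lhs => rw [← Nat.div_add_mod Y u]
    rw [Finset.sum_range_add, sum_range_mul']
    congr 1
    simp only [A]
    rw [Finset.sum_filter]
    refine Finset.sum_congr rfl fun y _ => ?_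
    by_cases hy : ∀ p ∈ P, ¬ p ∣ y
    · rw [if_pos hy]
      simp only [G]
      rw [Finset.mul_sum]
      refine Finset.sum_congr rfl fun z _ => ?_
      simp only [F]
      rw [if_pos ((cop_iff (r0 + 1) j y z).2 hy)]
      obtain ⟨N, hN⟩ := expand hP hr j n y z
      rw [← ee_add]
      refine ee_congr (n := N) ?_
      rw [hN]
      simp only [g, MM]
      rfl
    · rw [if_neg hy]
      refine Finset.sum_eq_zero fun z _ => ?_
      simp only [F]
      rw [if_neg (fun h => hy ((cop_iff (r0 + 1) j y z).1 h))]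
  refine ⟨∑ y ∈ A, ‖G y‖, Finset.sum_nonneg fun _ _ => norm_nonneg _, ?_, ?_⟩
  · rw [hsplit, add_comm]
    refine (norm_add_le _ _).trans ?_
    refine add_le_add ?_ ?_
    · refine (norm_short F hF1 _ _).trans ?_
      exact_mod_cast (Nat.mod_lt Y hu0).le
    · refine (norm_sum_le _ _).trans ?_
      refine Finset.sum_le_sum fun y _ => ?_
      rw [norm_mul, norm_ee, one_mul]
  · have hpow := pow_sum_le_card_mul_sum_pow (s := A) (f := fun y => ‖G y‖)
      (fun _ _ => norm_nonneg _) (2 * s - 1)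
    rw [show 2 * s - 1 + 1 = 2 * s by omega] at hpow
    refine hpow.trans ?_
    have hA : (A.card : ℝ) ≤ u := by
      have : A.card ≤ u := (Finset.card_filter_le _ _).trans (by simp)
      exact_mod_cast this
    have hml := mult_le (r0 := r0) (s := s) (Z := Z) A g (MM P k (r0 + 1) j n) hq'0
      (K := (((u / q') * k ^ P.card : ℕ) : ℝ))
      (fun a _ => by exact_mod_cast class_card hP hk hr j hn a) (by positivity)
    refine mul_le_mul (pow_le_pow_left₀ (by positivity) hA _) hml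
      (Finset.sum_nonneg fun _ _ => by positivity) (by positivity)

end Pool.Agent.Lib.MP_570bef_ntLV.H
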