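import Mathlib
import Pool.Agent.Lib.MP_570bef_ntLV.He

/-!
# Block H, file f: sizes
-/

namespace Pool.Agent.Lib.MP_570bef_ntLV.H

open Finset Complex

theorem uu_pow_le {P : Finset ℕ} (hP : ∀ p ∈ P, p.Prime) (r : ℕ) (j : ℕ → ℕ) :
    uu P r j ^ (r + 1) ≤ pp P j * pp P (fun _ => 1) ^ (r + 1) := by
  unfold uu
  rw [pp_pow, pp_pow, pp_mul]
  refine Nat.le_of_dvd (pp_pos hP _) (pp_dvd fun p _ => ?_)
  unfold aa
  rcases le_total 1 ((j p + r) / (r + 1)) with h | h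
  · rw [max_eq_right h]
    have := Nat.div_mul_le_self (j p + r) (r + 1)
    omega
  · rw [max_eq_left h]
    omega

theorem le_uu_mul {P : Finset ℕ} (hP : ∀ p ∈ P, p.Prime) (r : ℕ) (j : ℕ → ℕ) :
    pp P j ≤ uu P r j ^ r * qq P r j := by
  rw [uu_pow]
  exact Nat.le_mul_of_pos_right _ (pp_pos hP _)

/-- Lower bound of the denominator. -/
theorem qq_large {r E Y q u q' : ℕ} (hr : 2 ≤ r) (hE : E ^ (8 * r) ≤ Y)
    (hq1 : Y ^ (r - 1) ≤ q) (hu : u ^ (r + 1) ≤ q * E ^ (r + 1)) (hq' : q ≤ u ^ r * q')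
    (hY : 1 ≤ Y) : Y ^ 5 ≤ q' ^ 24 := by
  have hq0 : 0 < q := lt_of_lt_of_le (pow_pos hY _) hq1
  have h1 : q * q ^ r ≤ (E ^ (r * (r + 1)) * q' ^ (r + 1)) * q ^ r := by
    calc q * q ^ r = q ^ (r + 1) := by ring
      _ ≤ (u ^ r * q') ^ (r + 1) := Nat.pow_le_pow_left hq' _
      _ = (u ^ (r + 1)) ^ r * q' ^ (r + 1) := by ring
      _ ≤ (q * E ^ (r + 1)) ^ r * q' ^ (r + 1) :=
        Nat.mul_le_mul_right _ (Nat.pow_le_pow_left hu _)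
      _ = _ := by ring
  have h2 : q ≤ E ^ (r * (r + 1)) * q' ^ (r + 1) := Nat.le_of_mul_le_mul_right h1 (pow_pos hq0 _)
  have h3 : Y ^ (8 * (r - 1)) ≤ Y ^ (r + 1) * q' ^ (8 * (r + 1)) := by
    calc Y ^ (8 * (r - 1)) = (Y ^ (r - 1)) ^ 8 := by rw [mul_comm, pow_mul]
      _ ≤ (E ^ (r * (r + 1)) * q' ^ (r + 1)) ^ 8 := Nat.pow_le_pow_left (hq1.trans h2) _
      _ = (E ^ (8 * r)) ^ (r + 1) * q' ^ (8 * (r + 1)) := by
        rw [mul_pow, ← pow_mul, ← pow_mul, ← pow_mul]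
        ring_nf
      _ ≤ Y ^ (r + 1) * q' ^ (8 * (r + 1)) := Nat.mul_le_mul_right _ (Nat.pow_le_pow_left hE _)
  have h4 : Y ^ (r + 1) * Y ^ (7 * r - 9) ≤ Y ^ (r + 1) * q' ^ (8 * (r + 1)) := by
    rw [← pow_add, show r + 1 + (7 * r - 9) = 8 * (r - 1) by omega]
    exact h3
  have h5 : Y ^ (7 * r - 9) ≤ q' ^ (8 * (r + 1)) :=
    Nat.le_of_mul_le_mul_left h4 (pow_pos hY _)
  have h6 : (Y ^ 5) ^ (r + 1) ≤ (q' ^ 24) ^ (r + 1) := by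
    calc (Y ^ 5) ^ (r + 1) = Y ^ (5 * (r + 1)) := by rw [← pow_mul]
      _ ≤ Y ^ ((7 * r - 9) * 3) := Nat.pow_le_pow_right hY (by omega)
      _ = (Y ^ (7 * r - 9)) ^ 3 := by rw [pow_mul]
      _ ≤ (q' ^ (8 * (r + 1))) ^ 3 := Nat.pow_le_pow_left h5 _
      _ = (q' ^ 24) ^ (r + 1) := by
        rw [← pow_mul, ← pow_mul]
        ring_nf
  exact (Nat.pow_le_pow_iff_left (by omega)).1 h6

/-- Upper bound of the step. -/
theorem uu_small {r E Y q u : ℕ} (hr : 1 ≤ r) (hE : E ^ (8 * r) ≤ Y)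
    (hq2 : q ≤ Y ^ r) (hu : u ^ (r + 1) ≤ q * E ^ (r + 1)) (hY : 1 ≤ Y) :
    u ^ (24 * r) * Y ^ 5 ≤ Y ^ (24 * r) := by
  have h1 : (u ^ (r + 1)) ^ (8 * r) ≤ Y ^ (8 * r * r + (r + 1)) := by
    calc (u ^ (r + 1)) ^ (8 * r) ≤ (Y ^ r * E ^ (r + 1)) ^ (8 * r) :=
          Nat.pow_le_pow_left (hu.trans (Nat.mul_le_mul_right _ hq2)) _
      _ = Y ^ (8 * r * r) * (E ^ (8 * r)) ^ (r + 1) := by
        rw [mul_pow, ← pow_mul, ← pow_mul, ← pow_mul]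
        ring_nf
      _ ≤ Y ^ (8 * r * r) * Y ^ (r + 1) := Nat.mul_le_mul_left _ (Nat.pow_le_pow_left hE _)
      _ = _ := by rw [← pow_add]
  have h2 : (u ^ (24 * r) * Y ^ 5) ^ (r + 1) ≤ (Y ^ (24 * r)) ^ (r + 1) := by
    calc (u ^ (24 * r) * Y ^ 5) ^ (r + 1) = ((u ^ (r + 1)) ^ (8 * r)) ^ 3 * Y ^ (5 * (r + 1)) := by
          rw [mul_pow, ← pow_mul, ← pow_mul, ← pow_mul, ← pow_mul]
          ring_nf
      _ ≤ (Y ^ (8 * r * r + (r + 1))) ^ 3 * Y ^ (5 * (r + 1)) :=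
        Nat.mul_le_mul_right _ (Nat.pow_le_pow_left h1 _)
      _ = Y ^ (24 * r * r + 8 * (r + 1)) := by
        rw [← pow_mul, ← pow_add]
        ring_nf
      _ ≤ Y ^ (24 * r * (r + 1)) := Nat.pow_le_pow_right hY (by nlinarith)
      _ = _ := by rw [← pow_mul]
  exact (Nat.pow_le_pow_iff_left (by omega)).1 h2

end Pool.Agent.Lib.MP_570bef_ntLV.H
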