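import Mathlib
import Pool.Agent.Lib.MP_570bef_ntLV.Hf

/-!
# Block H, file g: the bound of the sum over `range Y`, with real exponents
-/

namespace Pool.Agent.Lib.MP_570bef_ntLV.H

open Finset Complex

theorem le_rpow_of_pow_le {a y : ℝ} (ha : 0 ≤ a) (hy : 0 < y) {n : ℕ} (hn : 0 < n) {c : ℝ}
    (h : a ^ n ≤ y ^ (c * n)) : a ≤ y ^ c := by
  have h1 : (y ^ c) ^ n = y ^ (c * n) := by
    rw [← Real.rpow_natCast, ← Real.rpow_mul hy.le]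
  rw [← h1] at h
  exact (pow_le_pow_iff_left₀ ha (Real.rpow_nonneg hy.le _) hn.ne').1 h

theorem sum_fin_succ (r0 : ℕ) : ((∑ i : Fin r0, ((i : ℕ) + 1) : ℕ) : ℝ)
    = (r0 : ℝ) * ((r0 : ℝ) + 1) / 2 := by
  induction r0 with
  | zero => simp
  | succ m ih =>
    rw [Fin.sum_univ_castSucc]
    push_cast at ih ⊢
    simp only [Fin.val_castSucc]
    rw [ih]
    ring

/-- The product of the linear factors. -/
theorem prod_le {r0 s Z : ℕ} (hs : 1 ≤ s) (hZ : 1 ≤ Z) :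
    (∏ i : Fin r0, ((s * Z ^ ((i : ℕ) + 1) + 1 : ℕ) : ℝ))
      ≤ (2 * (s : ℝ)) ^ r0 * (Z : ℝ) ^ ((r0 : ℝ) * ((r0 : ℝ) + 1) / 2) := by
  have hZr : (0 : ℝ) < Z := by exact_mod_cast hZ
  have h1 : (∏ i : Fin r0, ((s * Z ^ ((i : ℕ) + 1) + 1 : ℕ) : ℝ))
      ≤ ∏ i : Fin r0, (2 * (s : ℝ)) * (Z : ℝ) ^ ((i : ℕ) + 1) := by
    refine Finset.prod_le_prod (fun _ _ => by positivity) fun i _ => ?_
    have : 1 ≤ s * Z ^ ((i : ℕ) + 1) := Nat.mul_pos hs (pow_pos hZ _)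
    have h2 : s * Z ^ ((i : ℕ) + 1) + 1 ≤ 2 * s * Z ^ ((i : ℕ) + 1) := by nlinarith
    exact_mod_cast h2
  refine h1.trans (le_of_eq ?_)
  rw [Finset.prod_mul_distrib, Finset.prod_const, Finset.card_univ, Fintype.card_fin,
    Finset.prod_pow_eq_pow_sum, ← Real.rpow_natCast (Z : ℝ) (∑ i : Fin r0, ((i : ℕ) + 1)),
    sum_fin_succ]

/-- The bound over a range. -/
theorem high_range {k r0 s : ℕ} (hr0 : 1 ≤ r0) (hs : r0 + 1 ≤ s) {C0 : ℝ}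
    (hJ : ∀ Z : ℕ, 1 ≤ Z → (VM.JN s (r0 + 1) Z : ℝ)
      ≤ C0 * (Z : ℝ) ^ (2 * (s : ℝ) - ((r0 : ℝ) + 1) * ((r0 : ℝ) + 2) / 2 + 1 / 8))
    {P : Finset ℕ} (hP : ∀ p ∈ P, p.Prime) (hk : ∀ p ∈ P, k < p) (hrk : r0 + 1 < k)
    (j : ℕ → ℕ) {n : ℤ} (hn : ∀ p ∈ P, 0 < j p → ¬ (p : ℤ) ∣ n) {Y : ℕ} (hY : 1 ≤ Y)
    (hE : pp P (fun _ => 1) ^ (8 * (r0 + 1)) ≤ Y) (hq1 : Y ^ r0 ≤ pp P j)
    (hq2 : pp P j ≤ Y ^ (r0 + 1)) :
    ‖∑ y ∈ (range Y).filter (fun y => ∀ p ∈ P, ¬ p ∣ y),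
        ee ((n : ℝ) * (y : ℝ) ^ k / (pp P j : ℕ))‖
      ≤ (1 + (1 + (s : ℝ) * (2 * (s : ℝ)) ^ r0 * C0 * (1 + 2 ^ (r0 + 1))) * (k : ℝ) ^ P.card)
        * (Y : ℝ) ^ (1 - 1 / (24 * (s : ℝ))) := by
  have hC0 : 0 ≤ C0 := by
    have := hJ 1 le_rfl
    simp only [Nat.cast_one, Real.one_rpow, mul_one] at this
    exact le_trans (by positivity) this
  obtain ⟨T, hT0, hT1, hT2⟩ := main_bound hP hk hrk (show 1 ≤ s by omega) j hn Y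
  set u := uu P (r0 + 1) j with hu
  set q' := qq P (r0 + 1) j with hq'
  set q := pp P j with hq
  set Z := Y / u with hZ
  have hu0 : 0 < u := pp_pos hP _
  have hq'0 : 0 < q' := pp_pos hP _
  have hq0 : 0 < q := pp_pos hP _
  have hdvd : q' ∣ u := qq_dvd P (r0 + 1) j
  have hu1 : u ^ (r0 + 1 + 1) ≤ q * pp P (fun _ => 1) ^ (r0 + 1 + 1) := uu_pow_le hP (r0 + 1) j
  have hu2 : q ≤ u ^ (r0 + 1) * q' := le_uu_mul hP (r0 + 1) j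
  have hA : Y ^ 5 ≤ q' ^ 24 := qq_large (r := r0 + 1) (by omega) hE
    (by rw [Nat.add_sub_cancel]; exact hq1) hu1 hu2 hY
  have hB : u ^ (24 * (r0 + 1)) * Y ^ 5 ≤ Y ^ (24 * (r0 + 1)) :=
    uu_small (r := r0 + 1) (by omega) hE hq2 hu1 hY
  have huY : u ≤ Y := by
    have h1 : u ^ (24 * (r0 + 1)) ≤ Y ^ (24 * (r0 + 1)) :=
      le_trans (Nat.le_mul_of_pos_right _ (pow_pos hY _)) hB
    exact (Nat.pow_le_pow_iff_left (by omega)).1 h1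
  have hZ1 : 1 ≤ Z := (Nat.one_le_div_iff hu0).2 huY
  have hYr : (1 : ℝ) ≤ Y := by exact_mod_cast hY
  have hYp : (0 : ℝ) < Y := by linarith
  have hur : (0 : ℝ) < u := by exact_mod_cast hu0
  have hq'r : (0 : ℝ) < q' := by exact_mod_cast hq'0
  have hZr : (0 : ℝ) < Z := by exact_mod_cast hZ1
  have hsr : (0 : ℝ) < s := by exact_mod_cast (show 0 < s by omega)
  have huZ : (u : ℝ) * Z ≤ Y := by exact_mod_cast Nat.mul_div_le Y u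
  have hZY : (Z : ℝ) ≤ Y := by exact_mod_cast Nat.div_le_self Y u
  have h2uZ : (Y : ℝ) ≤ 2 * u * Z := by
    have h1 : Y < u * (Z + 1) := by
      rw [hZ]
      exact Nat.lt_mul_div_succ Y hu0
    have h2 : Y ≤ 2 * u * Z := by nlinarith
    exact_mod_cast h2
  -- 1 / q'
  have hc1 : (Y : ℝ) ^ ((5 : ℝ) / 24) ≤ q' := by
    have h1 : ((Y : ℝ) ^ ((5 : ℝ) / 24)) ^ 24 ≤ (q' : ℝ) ^ 24 := by
      rw [← Real.rpow_natCast, ← Real.rpow_mul hYp.le]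
      have : ((5 : ℝ) / 24) * ((24 : ℕ) : ℝ) = ((5 : ℕ) : ℝ) := by norm_num
      rw [this, Real.rpow_natCast]
      exact_mod_cast hA
    exact (pow_le_pow_iff_left₀ (by positivity) hq'r.le (by norm_num)).1 h1
  have hd1 : 1 / (q' : ℝ) ≤ (Y : ℝ) ^ (-((5 : ℝ) / 24)) := by
    rw [Real.rpow_neg hYp.le, ← one_div]
    exact one_div_le_one_div_of_le (by positivity) hc1
  -- 1 / Z ^ r
  have hd2 : ((u : ℝ) / Y) ^ (r0 + 1) ≤ (Y : ℝ) ^ (-((5 : ℝ) / 24)) := by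
    refine le_rpow_of_pow_le (by positivity) hYp (n := 24) (by norm_num) ?_
    have : (-((5 : ℝ) / 24)) * ((24 : ℕ) : ℝ) = -((5 : ℕ) : ℝ) := by norm_num
    rw [this, Real.rpow_neg hYp.le, Real.rpow_natCast, div_pow, div_pow, ← pow_mul, ← pow_mul,
      div_le_iff₀ (by positivity), inv_mul_eq_div, le_div_iff₀ (by positivity),
      mul_comm (r0 + 1) 24]
    exact_mod_cast hB
  have hd3 : 1 / (Z : ℝ) ^ (r0 + 1) ≤ 2 ^ (r0 + 1) * (Y : ℝ) ^ (-((5 : ℝ) / 24)) := by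
    have h1 : 1 / (Z : ℝ) ≤ 2 * ((u : ℝ) / Y) := by
      rw [div_le_iff₀ hZr]
      have : 2 * ((u : ℝ) / Y) * Z = (2 * u * Z) / Y := by ring
      rw [this, le_div_iff₀ hYp, one_mul]
      exact h2uZ
    calc 1 / (Z : ℝ) ^ (r0 + 1) = (1 / (Z : ℝ)) ^ (r0 + 1) := by rw [div_pow, one_pow]
      _ ≤ (2 * ((u : ℝ) / Y)) ^ (r0 + 1) := pow_le_pow_left₀ (by positivity) h1 _
      _ = 2 ^ (r0 + 1) * ((u : ℝ) / Y) ^ (r0 + 1) := by rw [mul_pow]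
      _ ≤ _ := mul_le_mul_of_nonneg_left hd2 (by positivity)
  -- the step
  have hu3 : (u : ℝ) ≤ (Y : ℝ) ^ (1 - 1 / (24 * (s : ℝ))) := by
    refine le_rpow_of_pow_le hur.le hYp (n := 24 * s) (by omega) ?_
    have h1 : (1 - 1 / (24 * (s : ℝ))) * ((24 * s : ℕ) : ℝ) = ((24 * s - 1 : ℕ) : ℝ) := by
      rw [Nat.cast_sub (by omega)]
      push_cast
      field_simp
    rw [h1, Real.rpow_natCast]
    have h2 : u ^ (24 * s) * Y ≤ Y ^ (24 * s - 1) * Y := by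
      calc u ^ (24 * s) * Y = u ^ (24 * (s - (r0 + 1))) * (u ^ (24 * (r0 + 1)) * Y) := by
            rw [← mul_assoc, ← pow_add]
            congr 2
            omega
        _ ≤ Y ^ (24 * (s - (r0 + 1))) * (u ^ (24 * (r0 + 1)) * Y ^ 5) := by
          refine Nat.mul_le_mul (Nat.pow_le_pow_left huY _) (Nat.mul_le_mul_left _ ?_)
          calc Y = Y ^ 1 := (pow_one Y).symm
            _ ≤ Y ^ 5 := Nat.pow_le_pow_right hY (by norm_num)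
        _ ≤ Y ^ (24 * (s - (r0 + 1))) * Y ^ (24 * (r0 + 1)) := Nat.mul_le_mul_left _ hB
        _ = Y ^ (24 * s - 1) * Y := by
          rw [← pow_add, ← pow_succ]
          congr 1
          omega
    exact_mod_cast Nat.le_of_mul_le_mul_right h2 hY
  -- the power mean
  set km : ℝ := (k : ℝ) ^ P.card with hkm
  have hkm1 : 1 ≤ km := one_le_pow₀ (by exact_mod_cast (show 1 ≤ k by omega))
  set C1 : ℝ := (s : ℝ) * (2 * (s : ℝ)) ^ r0 * C0 * (1 + 2 ^ (r0 + 1)) with hC1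
  have hC1n : 0 ≤ C1 := by positivity
  have hT3 : T ^ (2 * s) ≤ C1 * km * ((Y : ℝ) ^ (2 * (s : ℝ)) * (Y : ℝ) ^ (-(1 : ℝ) / 12)) := by
    refine hT2.trans ?_
    have e1 : (((u / q') * k ^ P.card : ℕ) : ℝ) = (u : ℝ) / q' * km := by
      rw [hkm]
      push_cast
      rw [Nat.cast_div hdvd hq'r.ne']
    have e2 : (∏ i : Fin r0, ((s * Z ^ ((i : ℕ) + 1) + 1 : ℕ) : ℝ))
      ≤ (2 * (s : ℝ)) ^ r0 * (Z : ℝ) ^ ((r0 : ℝ) * ((r0 : ℝ) + 1) / 2) :=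
        prod_le (by omega) hZ1
    have e3 : ((s * Z ^ (r0 + 1) + q' : ℕ) : ℝ) ≤ s * ((Z : ℝ) ^ (r0 + 1) + q') := by
      push_cast
      have : (1 : ℝ) ≤ s := by exact_mod_cast (show 1 ≤ s by omega)
      nlinarith
    have e4 := hJ Z hZ1
    have e5 : (u : ℝ) ^ (2 * s - 1) * (((u : ℝ) / q' * km)
          * ((2 * (s : ℝ)) ^ r0 * (Z : ℝ) ^ ((r0 : ℝ) * ((r0 : ℝ) + 1) / 2))
          * (s * ((Z : ℝ) ^ (r0 + 1) + q'))
          * (C0 * (Z : ℝ) ^ (2 * (s : ℝ) - ((r0 : ℝ) + 1) * ((r0 : ℝ) + 2) / 2 + 1 / 8)))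
        = (s : ℝ) * (2 * (s : ℝ)) ^ r0 * C0 * km * ((u : ℝ) * Z) ^ (2 * s)
          * (Z : ℝ) ^ ((1 : ℝ) / 8) * (1 / q' + 1 / (Z : ℝ) ^ (r0 + 1)) := by
      have f1 : (Z : ℝ) ^ (2 * (s : ℝ) - ((r0 : ℝ) + 1) * ((r0 : ℝ) + 2) / 2 + 1 / 8)
          * (Z : ℝ) ^ ((r0 : ℝ) * ((r0 : ℝ) + 1) / 2)
          = (Z : ℝ) ^ (2 * s) * (Z : ℝ) ^ ((1 : ℝ) / 8) / (Z : ℝ) ^ (r0 + 1) := by
        rw [eq_div_iff (by positivity), ← Real.rpow_natCast (Z : ℝ) (2 * s),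
          ← Real.rpow_natCast (Z : ℝ) (r0 + 1), ← Real.rpow_add hZr, ← Real.rpow_add hZr,
          ← Real.rpow_add hZr]
        congr 1
        push_cast
        ring
      have f2 : (u : ℝ) ^ (2 * s) = (u : ℝ) ^ (2 * s - 1) * u := by
        rw [← pow_succ]
        congr 1
        omega
      calc _ = (s : ℝ) * (2 * (s : ℝ)) ^ r0 * C0 * km * ((u : ℝ) ^ (2 * s - 1) * u)
            * ((Z : ℝ) ^ (2 * (s : ℝ) - ((r0 : ℝ) + 1) * ((r0 : ℝ) + 2) / 2 + 1 / 8)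
              * (Z : ℝ) ^ ((r0 : ℝ) * ((r0 : ℝ) + 1) / 2))
            * (((Z : ℝ) ^ (r0 + 1) + q') / q') := by ring
        _ = _ := by
          rw [f1, ← f2, mul_pow (u : ℝ) (Z : ℝ)]
          field_simp
    calc (u : ℝ) ^ (2 * s - 1) * ((((u / q') * k ^ P.card : ℕ) : ℝ)
          * (∏ i : Fin r0, ((s * Z ^ ((i : ℕ) + 1) + 1 : ℕ) : ℝ))
          * ((s * Z ^ (r0 + 1) + q' : ℕ) : ℝ) * (VM.JN s (r0 + 1) Z : ℝ))
        ≤ (u : ℝ) ^ (2 * s - 1) * (((u : ℝ) / q' * km)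
          * ((2 * (s : ℝ)) ^ r0 * (Z : ℝ) ^ ((r0 : ℝ) * ((r0 : ℝ) + 1) / 2))
          * (s * ((Z : ℝ) ^ (r0 + 1) + q'))
          * (C0 * (Z : ℝ) ^ (2 * (s : ℝ) - ((r0 : ℝ) + 1) * ((r0 : ℝ) + 2) / 2 + 1 / 8))) := by
          rw [e1]
          gcongr
      _ = _ := e5
      _ ≤ (s : ℝ) * (2 * (s : ℝ)) ^ r0 * C0 * km * (Y : ℝ) ^ (2 * s)
          * (Y : ℝ) ^ ((1 : ℝ) / 8) * ((Y : ℝ) ^ (-((5 : ℝ) / 24))
            + 2 ^ (r0 + 1) * (Y : ℝ) ^ (-((5 : ℝ) / 24))) := by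
          gcongr
      _ = C1 * km * ((Y : ℝ) ^ (2 * (s : ℝ)) * (Y : ℝ) ^ (-(1 : ℝ) / 12)) := by
          have g1 : (Y : ℝ) ^ (-(1 : ℝ) / 12)
              = (Y : ℝ) ^ ((1 : ℝ) / 8) * (Y : ℝ) ^ (-((5 : ℝ) / 24)) := by
            rw [← Real.rpow_add hYp]
            norm_num
          have g2 : (Y : ℝ) ^ (2 * (s : ℝ)) = (Y : ℝ) ^ (2 * s) := by
            rw [← Real.rpow_natCast]
            push_cast
            rfl
          rw [g1, g2, hC1]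
          ring
  have hT4 : T ≤ (1 + C1) * km * (Y : ℝ) ^ (1 - 1 / (24 * (s : ℝ))) := by
    have h1 : T ^ (2 * s) ≤ ((1 + C1) * km * (Y : ℝ) ^ (1 - 1 / (24 * (s : ℝ)))) ^ (2 * s) := by
      have h2 : ((Y : ℝ) ^ (1 - 1 / (24 * (s : ℝ)))) ^ (2 * s)
          = (Y : ℝ) ^ (2 * (s : ℝ)) * (Y : ℝ) ^ (-(1 : ℝ) / 12) := by
        rw [← Real.rpow_natCast, ← Real.rpow_mul hYp.le, ← Real.rpow_add hYp]
        congr 1
        push_cast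
        field_simp
        ring
      rw [mul_pow, h2]
      refine hT3.trans (mul_le_mul_of_nonneg_right ?_ (by positivity))
      have h3 : 1 ≤ (1 + C1) * km := by nlinarith
      calc C1 * km ≤ (1 + C1) * km := by nlinarith
        _ = ((1 + C1) * km) ^ 1 := (pow_one _).symm
        _ ≤ ((1 + C1) * km) ^ (2 * s) := pow_le_pow_right₀ h3 (by omega)
    exact (pow_le_pow_iff_left₀ hT0 (by positivity) (by omega)).1 h1
  calc _ ≤ (u : ℝ) + T := hT1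
    _ ≤ (Y : ℝ) ^ (1 - 1 / (24 * (s : ℝ))) + (1 + C1) * km * (Y : ℝ) ^ (1 - 1 / (24 * (s : ℝ))) :=
      add_le_add hu3 hT4
    _ = _ := by ring

end Pool.Agent.Lib.MP_570bef_ntLV.H
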