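import Mathlib
import Pool.Agent.Lib.MP_570bef_ntLV.FDefs
import Pool.Agent.Lib.MP_570bef_ntLV.Hg

/-!
# Block H, file h: the bound of the complete sums with large denominators (OFF-high)
-/

namespace Pool.Agent.Lib.MP_570bef_ntLV.H

open Finset Complex

theorem pp_factorization {E q k : ℕ} (hE : E ≠ 0) (hq : q ∣ E ^ k) :
    pp E.primeFactors (fun p => q.factorization p) = q := by
  have hEk : E ^ k ≠ 0 := pow_ne_zero _ hE
  have hq0 : q ≠ 0 := fun h => hEk (by rw [h] at hq; exact zero_dvd_iff.1 hq)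
  have h1 : q.factorization.prod (fun p e => p ^ e) = q := Nat.prod_factorization_pow_eq_self hq0
  unfold pp
  conv_rhs => rw [← h1]
  rw [Finsupp.prod, Nat.support_factorization]
  symm
  refine Finset.prod_subset ?_ ?_
  · intro p hp
    rw [Nat.mem_primeFactors] at hp ⊢
    exact ⟨hp.1, hp.1.dvd_of_dvd_pow (hp.2.1.trans hq), hE⟩
  · intro p hp hp2
    rw [Nat.mem_primeFactors] at hp
    have : ¬ p ∣ q := fun h => hp2 (Nat.mem_primeFactors.2 ⟨hp.1, h, hq0⟩)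
    rw [Nat.factorization_eq_zero_of_not_dvd this, pow_zero]

theorem pp_one {E : ℕ} (hE : Squarefree E) : pp E.primeFactors (fun _ => 1) = E := by
  unfold pp
  simp only [pow_one]
  exact Nat.prod_primeFactors_of_squarefree hE

theorem coprime_iff {E y : ℕ} (hE : E ≠ 0) :
    Nat.Coprime y E ↔ ∀ p ∈ E.primeFactors, ¬ p ∣ y := by
  constructor
  · intro h p hp h2
    rw [Nat.mem_primeFactors] at hp
    exact (Nat.not_coprime_of_dvd_of_dvd hp.1.one_lt h2 hp.2.1) h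
  · intro h
    by_contra h2
    obtain ⟨p, hp, h3, h4⟩ := Nat.Prime.not_coprime_iff_dvd.1 h2
    exact h p (Nat.mem_primeFactors.2 ⟨hp, h4, hE⟩) h3

/-- The numbers of `[1, Y]` prime to `E` are those of `range Y` prime to all primes of `E`, up to
the last one. -/
theorem norm_fs_cop_le {k E Y q : ℕ} (hE : 2 ≤ E) (n : ℤ) :
    ‖fs k ((Finset.Icc 1 Y).filter (fun y => Nat.Coprime y E)) ((n : ℝ) / q)‖
      ≤ 1 + ‖∑ y ∈ (range Y).filter (fun y => ∀ p ∈ E.primeFactors, ¬ p ∣ y),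
        ee ((n : ℝ) * (y : ℝ) ^ k / (q : ℕ))‖ := by
  classical
  have hE0 : E ≠ 0 := by omega
  have h1 : fs k ((Finset.Icc 1 Y).filter (fun y => Nat.Coprime y E)) ((n : ℝ) / q)
      = ∑ y ∈ (range (Y + 1)).filter (fun y => ∀ p ∈ E.primeFactors, ¬ p ∣ y),
        ee ((n : ℝ) * (y : ℝ) ^ k / (q : ℕ)) := by
    unfold fs
    have hset : (Finset.Icc 1 Y).filter (fun y => Nat.Coprime y E)
        = (range (Y + 1)).filter (fun y => ∀ p ∈ E.primeFactors, ¬ p ∣ y) := by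
      ext y
      rw [Finset.mem_filter, Finset.mem_filter, Finset.mem_Icc, Finset.mem_range, coprime_iff hE0]
      constructor
      · rintro ⟨⟨h1, h2⟩, h3⟩
        exact ⟨by omega, h3⟩
      · rintro ⟨h1, h2⟩
        refine ⟨⟨?_, by omega⟩, h2⟩
        rcases Nat.eq_zero_or_pos y with h0 | h0
        · exfalso
          obtain ⟨p, hp, hpE⟩ := Nat.exists_prime_and_dvd (show E ≠ 1 by omega)
          exact h2 p (Nat.mem_primeFactors.2 ⟨hp, hpE, hE0⟩) (by rw [h0]; exact dvd_zero p)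
        · exact h0
    rw [hset]
    refine Finset.sum_congr rfl fun y _ => ?_
    rw [show (n : ℝ) / (q : ℝ) * (y : ℝ) ^ k = (n : ℝ) * (y : ℝ) ^ k / (q : ℕ) by ring]
    rfl
  rw [h1, Finset.sum_filter, Finset.sum_range_succ, ← Finset.sum_filter, add_comm]
  refine (norm_add_le _ _).trans (add_le_add ?_ le_rfl)
  split_ifs
  · rw [norm_ee]
  · simp

/-- **OFF-high**, one degree. -/
theorem high {k r s : ℕ} (hr : 2 ≤ r) (hs : r ≤ s) {C0 : ℝ}
    (hJ : ∀ Z : ℕ, 1 ≤ Z → (VM.JN s r Z : ℝ)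
      ≤ C0 * (Z : ℝ) ^ (2 * (s : ℝ) - (r : ℝ) * ((r : ℝ) + 1) / 2 + 1 / 8)) :
    ∃ C : ℝ, 1 ≤ C ∧ ∀ (E Y q : ℕ) (n : ℤ), Squarefree E → (∀ p : ℕ, p.Prime → p ∣ E → k < p) →
      q ∣ E ^ k → IsCoprime n (q : ℤ) → E ^ (8 * r) ≤ Y → Y ^ (r - 1) ≤ q → q ≤ Y ^ r →
      ‖fs k ((Finset.Icc 1 Y).filter (fun y => Nat.Coprime y E)) ((n : ℝ) / q)‖
        ≤ C * (k : ℝ) ^ E.primeFactors.card * (Y : ℝ) ^ (1 - 1 / (24 * (s : ℝ))) := by
  obtain ⟨r0, rfl⟩ : ∃ r0, r = r0 + 1 := ⟨r - 1, by omega⟩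
  have hJ' : ∀ Z : ℕ, 1 ≤ Z → (VM.JN s (r0 + 1) Z : ℝ)
      ≤ C0 * (Z : ℝ) ^ (2 * (s : ℝ) - ((r0 : ℝ) + 1) * ((r0 : ℝ) + 2) / 2 + 1 / 8) := by
    intro Z hZ
    have := hJ Z hZ
    push_cast at this
    rw [show (r0 : ℝ) + 1 + 1 = (r0 : ℝ) + 2 by ring] at this
    exact this
  have hC0 : 0 ≤ C0 := by
    have := hJ 1 le_rfl
    simp only [Nat.cast_one, Real.one_rpow, mul_one] at this
    exact le_trans (by positivity) this
  set C1 : ℝ := 1 + (s : ℝ) * (2 * (s : ℝ)) ^ r0 * C0 * (1 + 2 ^ (r0 + 1)) with hC1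
  have hC11 : 1 ≤ C1 := by
    have : 0 ≤ (s : ℝ) * (2 * (s : ℝ)) ^ r0 * C0 * (1 + 2 ^ (r0 + 1)) := by positivity
    linarith
  refine ⟨2 + C1, by linarith, ?_⟩
  intro E Y q n hE hk hqE hn hEY hq1 hq2
  have hE0 : E ≠ 0 := hE.ne_zero
  have hY : 1 ≤ Y := le_trans (Nat.one_le_pow _ _ (Nat.pos_of_ne_zero hE0)) hEY
  have hYr : (1 : ℝ) ≤ Y := by exact_mod_cast hY
  have hs0 : (0 : ℝ) < s := by exact_mod_cast (show 0 < s by omega)
  have hexp : 0 ≤ 1 - 1 / (24 * (s : ℝ)) := by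
    have : 1 / (24 * (s : ℝ)) ≤ 1 := by
      rw [div_le_one (by positivity)]
      have : (1 : ℝ) ≤ s := by exact_mod_cast (show 1 ≤ s by omega)
      linarith
    linarith
  have hYe : (1 : ℝ) ≤ (Y : ℝ) ^ (1 - 1 / (24 * (s : ℝ))) := Real.one_le_rpow hYr hexp
  rcases Nat.lt_or_ge E 2 with hE2 | hE2
  · -- trivial case
    have hE1 : E = 1 := by omega
    subst hE1
    rw [one_pow, Nat.dvd_one] at hqE
    subst hqE
    have hY1 : Y = 1 := by
      have h1 : Y ^ (r0 + 1 - 1) ≤ 1 := hq1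
      have h2 : Y ^ 1 ≤ Y ^ (r0 + 1 - 1) := Nat.pow_le_pow_right hY (by omega)
      rw [pow_one] at h2
      omega
    subst hY1
    refine (norm_fs_le _ _ _).trans ?_
    have hc : ((Finset.Icc 1 1).filter (fun y => Nat.Coprime y 1)).card ≤ 1 :=
      (Finset.card_filter_le _ _).trans (by simp)
    have hc' : (((Finset.Icc 1 1).filter (fun y => Nat.Coprime y 1)).card : ℝ) ≤ 1 := by
      exact_mod_cast hc
    refine hc'.trans ?_
    simp only [Nat.primeFactors_one, Finset.card_empty, pow_zero, Nat.cast_one, Real.one_rpow,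
      mul_one]
    linarith
  · -- main case
    have hP : ∀ p ∈ E.primeFactors, p.Prime := fun p hp => (Nat.mem_primeFactors.1 hp).1
    have hkP : ∀ p ∈ E.primeFactors, k < p := fun p hp =>
      hk p (Nat.mem_primeFactors.1 hp).1 (Nat.mem_primeFactors.1 hp).2.1
    have hrk : r0 + 1 < k := by
      have h1 : E ^ (8 * (r0 + 1) * (r0 + 1 - 1)) ≤ E ^ k := by
        calc E ^ (8 * (r0 + 1) * (r0 + 1 - 1)) = (E ^ (8 * (r0 + 1))) ^ (r0 + 1 - 1) := by
              rw [pow_mul]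
          _ ≤ Y ^ (r0 + 1 - 1) := Nat.pow_le_pow_left hEY _
          _ ≤ q := hq1
          _ ≤ E ^ k := Nat.le_of_dvd (by positivity) hqE
      have h2 := (Nat.pow_le_pow_iff_right (show 1 < E by omega)).1 h1
      have h3 : r0 + 1 - 1 = r0 := by omega
      rw [h3] at h2
      have h4 : 1 ≤ r0 := by omega
      nlinarith
    have hqq := pp_factorization hE0 hqE
    have h1E := pp_one hE
    have hnP : ∀ p ∈ E.primeFactors, 0 < q.factorization p → ¬ (p : ℤ) ∣ n := by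
      intro p hp h0 hd
      have h2 : p ∣ q := Nat.dvd_of_factorization_pos (by omega)
      have h3 : (p : ℤ) ∣ (q : ℤ) := by exact_mod_cast h2
      have h4 := hn.isUnit_of_dvd' hd h3
      have h5 : Prime (p : ℤ) := Nat.prime_iff_prime_int.1 (hP p hp)
      exact h5.not_isUnit h4
    have hmain := high_range (k := k) (r0 := r0) (s := s) (by omega) hs hJ' hP hkP hrk
      (fun p => q.factorization p) hnP hY (by rw [h1E]; exact hEY)
      (by rw [hqq]; exact hq1) (by rw [hqq]; exact hq2)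
    rw [hqq] at hmain
    refine (norm_fs_cop_le hE2 n).trans ?_
    have hkm1 : (1 : ℝ) ≤ (k : ℝ) ^ E.primeFactors.card :=
      one_le_pow₀ (by exact_mod_cast (show 1 ≤ k by omega))
    set km : ℝ := (k : ℝ) ^ E.primeFactors.card with hkm
    set Ye : ℝ := (Y : ℝ) ^ (1 - 1 / (24 * (s : ℝ))) with hYedef
    have hkY : 1 ≤ km * Ye := by nlinarith
    have h6 : Ye ≤ km * Ye := by nlinarith
    calc 1 + _ ≤ km * Ye + (1 + C1 * km) * Ye := add_le_add hkY hmain
      _ = km * Ye + Ye + C1 * (km * Ye) := by ring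
      _ ≤ km * Ye + km * Ye + C1 * (km * Ye) := by linarith
      _ = (2 + C1) * km * Ye := by ring

end Pool.Agent.Lib.MP_570bef_ntLV.H
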