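import Mathlib
import Pool.Agent.Lib.MP_570bef_ntLV.Hh

/-!
# Block H, file i: OFF-high for all denominators between `Y` and `Y ^ R`
-/

namespace Pool.Agent.Lib.MP_570bef_ntLV.H

open Finset Complex

/-- The mean value theorem (statement of `VM.J_le`). -/
def JLe : Prop := ∀ r t : ℕ, 1 ≤ r → ∃ C : ℝ, 1 ≤ C ∧ ∀ Z : ℕ, 1 ≤ Z →
  (VM.JN (r * t) r Z : ℝ) ≤ C * (Z : ℝ) ^ (2 * r * t - r * (r + 1) / 2
    + (r * (r + 1) / 2) * (1 - 1 / (r : ℝ)) ^ t : ℝ)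

theorem small_defect {r : ℕ} (hr : 1 ≤ r) :
    ((r : ℝ) * ((r : ℝ) + 1) / 2) * (1 - 1 / (r : ℝ)) ^ (4 * r ^ 2 * (r + 1)) ≤ 1 / 8 := by
  have hr0 : (1 : ℝ) ≤ r := by exact_mod_cast hr
  have hrp : (0 : ℝ) < r := by linarith
  have h1 : 1 - 1 / (r : ℝ) ≤ Real.exp (-(1 / (r : ℝ))) := by
    have := Real.add_one_le_exp (-(1 / (r : ℝ)))
    linarith
  have h0 : 0 ≤ 1 - 1 / (r : ℝ) := by
    have : 1 / (r : ℝ) ≤ 1 := by rw [div_le_one hrp]; exact hr0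
    linarith
  have h2 : (1 - 1 / (r : ℝ)) ^ (4 * r ^ 2 * (r + 1)) ≤ Real.exp (-(4 * r * (r + 1))) := by
    calc (1 - 1 / (r : ℝ)) ^ (4 * r ^ 2 * (r + 1))
        ≤ (Real.exp (-(1 / (r : ℝ)))) ^ (4 * r ^ 2 * (r + 1)) := pow_le_pow_left₀ h0 h1 _
      _ = Real.exp (-(4 * r * (r + 1))) := by
        rw [← Real.exp_nat_mul]
        congr 1
        push_cast
        field_simp
  have h3 : Real.exp (-(4 * (r : ℝ) * (r + 1))) ≤ 1 / (4 * r * (r + 1)) := by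
    rw [Real.exp_neg, ← one_div]
    refine one_div_le_one_div_of_le (by positivity) ?_
    have := Real.add_one_le_exp (4 * (r : ℝ) * (r + 1))
    linarith
  calc ((r : ℝ) * ((r : ℝ) + 1) / 2) * (1 - 1 / (r : ℝ)) ^ (4 * r ^ 2 * (r + 1))
      ≤ ((r : ℝ) * ((r : ℝ) + 1) / 2) * (1 / (4 * r * (r + 1))) :=
        mul_le_mul_of_nonneg_left (h2.trans h3) (by positivity)
    _ = 1 / 8 := by field_simp; ring

theorem high' (hJ : JLe) (k : ℕ) {r : ℕ} (hr : 2 ≤ r) :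
    ∃ C : ℝ, 1 ≤ C ∧ ∀ (E Y q : ℕ) (n : ℤ), Squarefree E → (∀ p : ℕ, p.Prime → p ∣ E → k < p) →
      q ∣ E ^ k → IsCoprime n (q : ℤ) → E ^ (8 * r) ≤ Y → Y ^ (r - 1) ≤ q → q ≤ Y ^ r →
      ‖fs k ((Finset.Icc 1 Y).filter (fun y => Nat.Coprime y E)) ((n : ℝ) / q)‖
        ≤ C * (k : ℝ) ^ E.primeFactors.card
          * (Y : ℝ) ^ (1 - 1 / (96 * (r : ℝ) ^ 3 * ((r : ℝ) + 1))) := by
  obtain ⟨C0, hC0, hC⟩ := hJ r (4 * r ^ 2 * (r + 1)) (by omega)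
  obtain ⟨C, hC1, h⟩ := high (k := k) (r := r) (s := r * (4 * r ^ 2 * (r + 1))) hr
    (Nat.le_mul_of_pos_right _ (by positivity)) (C0 := C0) (by
      intro Z hZ
      refine (hC Z hZ).trans ?_
      refine mul_le_mul_of_nonneg_left ?_ (by linarith)
      refine Real.rpow_le_rpow_of_exponent_le (by exact_mod_cast hZ) ?_
      have h1 := small_defect (show 1 ≤ r by omega)
      push_cast
      linarith)
  refine ⟨C, hC1, ?_⟩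
  intro E Y q n h1 h2 h3 h4 h5 h6 h7
  refine (h E Y q n h1 h2 h3 h4 h5 h6 h7).trans (le_of_eq ?_)
  congr 3
  push_cast
  ring

/-- **OFF-high**. -/
theorem off_high (hJ : JLe) (k : ℕ) {R : ℕ} (hR : 2 ≤ R) :
    ∃ C : ℝ, 1 ≤ C ∧ ∀ (E Y q : ℕ) (n : ℤ), Squarefree E → (∀ p : ℕ, p.Prime → p ∣ E → k < p) →
      q ∣ E ^ k → IsCoprime n (q : ℤ) → E ^ (8 * R) ≤ Y → Y ≤ q → q ≤ Y ^ R →
      ‖fs k ((Finset.Icc 1 Y).filter (fun y => Nat.Coprime y E)) ((n : ℝ) / q)‖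
        ≤ C * (k : ℝ) ^ E.primeFactors.card
          * (Y : ℝ) ^ (1 - 1 / (96 * (R : ℝ) ^ 3 * ((R : ℝ) + 1))) := by
  classical
  have hch : ∀ r : ℕ, ∃ C : ℝ, 1 ≤ C ∧ (2 ≤ r → ∀ (E Y q : ℕ) (n : ℤ), Squarefree E →
      (∀ p : ℕ, p.Prime → p ∣ E → k < p) →
      q ∣ E ^ k → IsCoprime n (q : ℤ) → E ^ (8 * r) ≤ Y → Y ^ (r - 1) ≤ q → q ≤ Y ^ r →
      ‖fs k ((Finset.Icc 1 Y).filter (fun y => Nat.Coprime y E)) ((n : ℝ) / q)‖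
        ≤ C * (k : ℝ) ^ E.primeFactors.card
          * (Y : ℝ) ^ (1 - 1 / (96 * (r : ℝ) ^ 3 * ((r : ℝ) + 1)))) := by
    intro r
    rcases Nat.lt_or_ge r 2 with h | h
    · exact ⟨1, le_rfl, fun h2 => absurd h2 (by omega)⟩
    · obtain ⟨C, hC1, hC⟩ := high' hJ k h
      exact ⟨C, hC1, fun _ => hC⟩
  choose CC hCC1 hCC using hch
  refine ⟨∑ r ∈ Finset.Icc 2 R, CC r, ?_, ?_⟩
  · have h1 : CC 2 ≤ ∑ r ∈ Finset.Icc 2 R, CC r :=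
      Finset.single_le_sum (fun r _ => by have := hCC1 r; linarith) (Finset.mem_Icc.2 ⟨le_rfl, hR⟩)
    exact (hCC1 2).trans h1
  intro E Y q n hE hk hqE hn hEY hq1 hq2
  have hE0 : E ≠ 0 := hE.ne_zero
  have hY : 1 ≤ Y := le_trans (Nat.one_le_pow _ _ (Nat.pos_of_ne_zero hE0)) hEY
  have hYr : (1 : ℝ) ≤ Y := by exact_mod_cast hY
  -- the degree
  obtain ⟨r, hr2, hrR, hr3, hr4⟩ : ∃ r, 2 ≤ r ∧ r ≤ R ∧ Y ^ (r - 1) ≤ q ∧ q ≤ Y ^ r := by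
    have hex : ∃ r, 2 ≤ r ∧ q ≤ Y ^ r := ⟨R, hR, hq2⟩
    refine ⟨Nat.find hex, (Nat.find_spec hex).1, Nat.find_min' hex ⟨hR, hq2⟩, ?_,
      (Nat.find_spec hex).2⟩
    rcases Nat.eq_or_lt_of_le (Nat.find_spec hex).1 with h2 | h2
    · rw [← h2]
      simpa using hq1
    · have h3 := Nat.find_min hex (m := Nat.find hex - 1) (by omega)
      by_contra h4
      exact h3 ⟨by omega, by omega⟩
  have hEr : E ^ (8 * r) ≤ Y :=
    le_trans (Nat.pow_le_pow_right (Nat.pos_of_ne_zero hE0) (by omega)) hEY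
  have hmain := hCC r hr2 E Y q n hE hk hqE hn hEr hr3 hr4
  refine hmain.trans ?_
  have hCr : CC r ≤ ∑ r ∈ Finset.Icc 2 R, CC r :=
    Finset.single_le_sum (fun r _ => by have := hCC1 r; linarith) (Finset.mem_Icc.2 ⟨hr2, hrR⟩)
  have hrr : (r : ℝ) ≤ R := by exact_mod_cast hrR
  have hr0 : (0 : ℝ) < r := by exact_mod_cast (show 0 < r by omega)
  have hexp : (Y : ℝ) ^ (1 - 1 / (96 * (r : ℝ) ^ 3 * ((r : ℝ) + 1)))
      ≤ (Y : ℝ) ^ (1 - 1 / (96 * (R : ℝ) ^ 3 * ((R : ℝ) + 1))) := by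
    refine Real.rpow_le_rpow_of_exponent_le hYr ?_
    have : 1 / (96 * (R : ℝ) ^ 3 * ((R : ℝ) + 1)) ≤ 1 / (96 * (r : ℝ) ^ 3 * ((r : ℝ) + 1)) := by
      refine one_div_le_one_div_of_le (by positivity) ?_
      gcongr
    linarith
  have hc0 := hCC1 r
  have hS0 : 0 ≤ ∑ r ∈ Finset.Icc 2 R, CC r := by linarith
  have hS1 : 0 ≤ (∑ r ∈ Finset.Icc 2 R, CC r) * (k : ℝ) ^ E.primeFactors.card := by positivity
  gcongr

end Pool.Agent.Lib.MP_570bef_ntLV.H
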