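import Mathlib
import Pool.Agent.Lib.MP_570bef_ntLV.Hi
import Pool.Agent.Lib.MP_570bef_ntV.VM.Mean
import Pool.Agent.Lib.MP_570bef_ntV.OF.Defs
import Pool.Agent.Lib.MP_570bef_ntV.OF.LnC

/-!
# Block H, file j: the second sufficient condition for `NS` (from the mean value theorem)
-/

namespace Pool.Agent.Lib.MP_570bef_ntLV.H

open Finset Complex

open Pool.Agent.Lib.MP_570bef_ntV

theorem e_eq (x : ℝ) : Pool.Agent.Lib.MP_2a816b_nt.e x = Pool.Agent.Lib.MP_570bef_ntLV.ee x := by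
  unfold Pool.Agent.Lib.MP_2a816b_nt.e Pool.Agent.Lib.MP_570bef_ntLV.ee
  congr 1
  ring

theorem TS_eq (k : ℕ) (n : ℤ) (q E Y : ℕ) :
    OF.TS k n q E Y
      = fs k ((Finset.Icc 1 Y).filter (fun y => Nat.Coprime y E)) ((n : ℝ) / q) := by
  unfold OF.TS OF.cop fs
  refine Finset.sum_congr rfl fun y _ => ?_
  rw [e_eq]
  congr 1
  ring

/-- OFF-high, unconditional. -/
theorem off_high' (k : ℕ) {R : ℕ} (hR : 2 ≤ R) :
    ∃ C : ℝ, 1 ≤ C ∧ ∀ (E Y q : ℕ) (n : ℤ), OF.Adm k E →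
      q ∣ E ^ k → IsCoprime n (q : ℤ) → E ^ (8 * R) ≤ Y → Y ≤ q → q ≤ Y ^ R →
      ‖OF.TS k n q E Y‖
        ≤ C * (k : ℝ) ^ OF.om E * (Y : ℝ) ^ (1 - 1 / (96 * (R : ℝ) ^ 3 * ((R : ℝ) + 1))) := by
  obtain ⟨C, hC, h⟩ := off_high (fun r t hr => _root_.VM.J_le r t hr) k hR
  refine ⟨C, hC, ?_⟩
  intro E Y q n hA hq hn h1 h2 h3
  rw [TS_eq]
  exact h E Y q n hA.sqf hA.big hq hn h1 h2 h3

/-- **OFF2**: all non squarefree denominators have small sums if `E` is a small power of `Y`. -/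
theorem off2 (k R : ℕ) (hk : 2 ≤ k) (hR : 2 ≤ R) :
    ∃ C : ℝ, 1 ≤ C ∧ ∀ (E Y : ℕ) (L : ℝ), OF.Adm k E → 1 ≤ L → E ^ (8 * R) ≤ Y →
      E ^ k ≤ Y ^ R →
      C * (k : ℝ) ^ OF.om E * L ≤ (Y : ℝ) ^ (1 / (96 * (R : ℝ) ^ 3 * ((R : ℝ) + 1))) →
      OF.NS k E Y L := by
  obtain ⟨C, hC, h⟩ := off_high' k hR
  refine ⟨C + 17, by linarith, ?_⟩
  intro E Y L hA hL hEY hEk hCL q n hq hn hns
  have hE1 : 1 ≤ E := hA.pos
  have hY : 1 ≤ Y := le_trans (Nat.one_le_pow _ _ hE1) hEY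
  have hYr : (1 : ℝ) ≤ Y := by exact_mod_cast hY
  have hYp : (0 : ℝ) < Y := by linarith
  have hkm1 : (1 : ℝ) ≤ (k : ℝ) ^ OF.om E := one_le_pow₀ (by exact_mod_cast (show 1 ≤ k by omega))
  set K : ℝ := (k : ℝ) ^ OF.om E with hK
  set τ : ℝ := 1 / (96 * (R : ℝ) ^ 3 * ((R : ℝ) + 1)) with hτ
  have hR2 : (2 : ℝ) ≤ R := by exact_mod_cast hR
  have hτ1 : τ ≤ 1 / 8 := by
    rw [hτ]
    refine one_div_le_one_div_of_le (by norm_num) ?_
    have h1 : (1 : ℝ) ≤ (R : ℝ) ^ 3 := one_le_pow₀ (by linarith)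
    nlinarith
  -- it suffices to have the bound with `C + 17`
  have hsuff : ‖OF.TS k n q E Y‖ ≤ (C + 17) * K * (Y : ℝ) ^ (1 - τ) → ‖OF.TS k n q E Y‖ ≤ Y / L := by
    intro h1
    refine h1.trans ?_
    rw [le_div_iff₀ (by linarith)]
    calc (C + 17) * K * (Y : ℝ) ^ (1 - τ) * L = (C + 17) * K * L * (Y : ℝ) ^ (1 - τ) := by ring
      _ ≤ (Y : ℝ) ^ τ * (Y : ℝ) ^ (1 - τ) := mul_le_mul_of_nonneg_right hCL (by positivity)
      _ = Y := by
        rw [← Real.rpow_add hYp]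
        simp
  apply hsuff
  rcases Nat.lt_or_ge q Y with hqY | hqY
  · -- small denominators
    have hq0 : 0 < q := hA.pos_of_dvd hq
    have hqr : (1 : ℝ) ≤ q := by exact_mod_cast hq0
    have hqY' : (q : ℝ) ≤ Y := by exact_mod_cast hqY.le
    have h1 := OF.TS_nsq k E q Y n hk hA hq hn hns
    have h2 : (E : ℝ) ≤ (Y : ℝ) ^ ((1 : ℝ) / 16) := by
      refine le_rpow_of_pow_le (by positivity) hYp (n := 16) (by norm_num) ?_
      rw [show (1 : ℝ) / 16 * ((16 : ℕ) : ℝ) = 1 by norm_num, Real.rpow_one]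
      have : E ^ 16 ≤ Y := le_trans (Nat.pow_le_pow_right hE1 (by omega)) hEY
      exact_mod_cast this
    have h3 : Real.sqrt q ≤ (Y : ℝ) ^ ((1 : ℝ) / 2) := by
      rw [Real.sqrt_eq_rpow]
      exact Real.rpow_le_rpow (by positivity) hqY' (by norm_num)
    have h4 : 1 + Real.log q ≤ 17 * (Y : ℝ) ^ ((1 : ℝ) / 16) := by
      have h5 : Real.log q ≤ Real.log Y := Real.log_le_log (by linarith) hqY'
      have h6 : Real.log Y = 16 * Real.log ((Y : ℝ) ^ ((1 : ℝ) / 16)) := by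
        rw [Real.log_rpow hYp]
        ring
      have h7 : Real.log ((Y : ℝ) ^ ((1 : ℝ) / 16)) ≤ (Y : ℝ) ^ ((1 : ℝ) / 16) := by
        have := Real.log_le_sub_one_of_pos (show 0 < (Y : ℝ) ^ ((1 : ℝ) / 16) by positivity)
        linarith
      have h8 : (1 : ℝ) ≤ (Y : ℝ) ^ ((1 : ℝ) / 16) := Real.one_le_rpow hYr (by norm_num)
      linarith
    have h0 : 0 ≤ 1 + Real.log q := by
      have := Real.log_nonneg hqr
      linarith
    calc ‖OF.TS k n q E Y‖ ≤ K * E * Real.sqrt q * (1 + Real.log q) := h1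
      _ ≤ K * (Y : ℝ) ^ ((1 : ℝ) / 16) * (Y : ℝ) ^ ((1 : ℝ) / 2) * (17 * (Y : ℝ) ^ ((1 : ℝ) / 16)) := by
        gcongr
      _ = 17 * K * (Y : ℝ) ^ ((5 : ℝ) / 8) := by
        have : (Y : ℝ) ^ ((5 : ℝ) / 8) = (Y : ℝ) ^ ((1 : ℝ) / 16) * (Y : ℝ) ^ ((1 : ℝ) / 2)
            * (Y : ℝ) ^ ((1 : ℝ) / 16) := by
          rw [← Real.rpow_add hYp, ← Real.rpow_add hYp]
          norm_num
        rw [this]
        ring
      _ ≤ (C + 17) * K * (Y : ℝ) ^ (1 - τ) := by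
        have h9 : (Y : ℝ) ^ ((5 : ℝ) / 8) ≤ (Y : ℝ) ^ (1 - τ) :=
          Real.rpow_le_rpow_of_exponent_le hYr (by linarith)
        have h10 : 17 * K ≤ (C + 17) * K := mul_le_mul_of_nonneg_right (by linarith) (by linarith)
        exact mul_le_mul h10 h9 (by positivity) (by positivity)
  · have hqR : q ≤ Y ^ R := (Nat.le_of_dvd (by positivity) hq).trans hEk
    refine (h E Y q n hA hq hn hEY hqY hqR).trans ?_
    have : C * K ≤ (C + 17) * K := mul_le_mul_of_nonneg_right (by linarith) (by linarith)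
    exact mul_le_mul_of_nonneg_right this (by positivity)

end Pool.Agent.Lib.MP_570bef_ntLV.H
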