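import Mathlib
import Pool.Agent.Lib.MP_570bef_ntLV.Hj
import Pool.Agent.Lib.MP_570bef_ntLG.Ns

/-!
# Block H, file k: the hypothesis `High` of the glue
-/

namespace Pool.Agent.Lib.MP_570bef_ntLV.H

open Pool.Agent.Lib.MP_570bef_ntV

theorem high_all (k : ℕ) (hk : 2 ≤ k) : Pool.Agent.Lib.MP_570bef_ntLG.High k := by
  intro R hR _
  refine ⟨1 / (96 * (R : ℝ) ^ 3 * ((R : ℝ) + 1)), ?_, ?_⟩
  · have hR2 : (2 : ℝ) ≤ R := by exact_mod_cast hR
    have hR0 : (0 : ℝ) < R := by linarith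
    refine one_div_le_one_div_of_le (by positivity) ?_
    have h3 : (R : ℝ) + 1 ≤ 2 * R := by linarith
    calc 96 * (R : ℝ) ^ 3 * ((R : ℝ) + 1) ≤ 96 * (R : ℝ) ^ 3 * (2 * R) := by gcongr
      _ = 192 * (R : ℝ) ^ 4 := by ring
      _ ≤ 10 ^ 6 * (R : ℝ) ^ 4 := mul_le_mul_of_nonneg_right (by norm_num) (by positivity)
  · obtain ⟨C, hC, h⟩ := off2 k R hk hR
    refine ⟨C, by linarith, ?_⟩
    intro E Y L hA _ hL h1 h2 h3
    exact h E Y L hA hL (by exact_mod_cast h1) (by exact_mod_cast h2) h3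

end Pool.Agent.Lib.MP_570bef_ntLV.H
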