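import Mathlib

/-!
Block (A) of the LV stream: layer cake.
-/

set_option autoImplicit false

open MeasureTheory Set

namespace LVA

/-- integral of t^(v-1-a) over (0, T] -/
theorem int_pow (c T : ℝ) (hc : 0 < c) (hT : 0 ≤ T) :
    ∫⁻ t in Ioc (0 : ℝ) T, ENNReal.ofReal (t ^ (c - 1)) = ENNReal.ofReal (T ^ c / c) := by
  have h1 : IntervalIntegrable (fun t : ℝ => t ^ (c - 1)) volume 0 T :=
    intervalIntegral.intervalIntegrable_rpow' (by linarith)
  rw [← ofReal_integral_eq_lintegral_ofReal]
  · rw [← intervalIntegral.integral_of_le hT, integral_rpow (Or.inl (by linarith))]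
    congr 1
    rw [sub_add_cancel, Real.zero_rpow hc.ne', sub_zero]
  · exact (intervalIntegrable_iff_integrableOn_Ioc_of_le hT).1 h1
  · filter_upwards [ae_restrict_mem measurableSet_Ioc] with t ht
    exact Real.rpow_nonneg ht.1.le _

/-- Layer cake: a level set bound from L0 on and the sup bound give the integral bound. -/
theorem layer (E : Set ℝ) (g : ℝ → ℝ) (hg : Measurable g)
    (hg0 : ∀ x, 0 ≤ g x) (S L0 K a v : ℝ) (hS : 0 < S) (hL0 : 0 < L0) (hK : 0 ≤ K) (hav : a < v)
    (hv : 0 < v)
    (hsup : ∀ x ∈ E, g x ≤ S / L0)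
    (hlev : ∀ L : ℝ, L0 ≤ L → volume {x ∈ E | S ≤ L * g x} ≤ ENNReal.ofReal (K * L ^ a)) :
    ∫⁻ x in E, ENNReal.ofReal (g x ^ v) ≤ ENNReal.ofReal (v / (v - a) * (K * S ^ v * L0 ^ (a - v))) := by
  rw [lintegral_rpow_eq_lintegral_meas_le_mul (volume.restrict E)
    (Filter.Eventually.of_forall hg0) hg.aemeasurable hv]
  have h1 : ∀ t : ℝ, t ∈ Ioi (0 : ℝ) → (volume.restrict E) {x | t ≤ g x} * ENNReal.ofReal (t ^ (v - 1)) ≤
      (Ioc (0 : ℝ) (S / L0)).indicator
        (fun t => ENNReal.ofReal (K * S ^ a) * ENNReal.ofReal (t ^ (v - a - 1))) t := by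
    intro t ht
    have ht0 : (0 : ℝ) < t := ht
    by_cases htS : t ≤ S / L0
    · rw [indicator_of_mem (show t ∈ Ioc (0 : ℝ) (S / L0) from ⟨ht0, htS⟩)]
      have hL : L0 ≤ S / t := by
        rw [le_div_iff₀ ht0]
        rw [le_div_iff₀ hL0] at htS
        linarith
      have h2 := hlev (S / t) hL
      have h3 : (volume.restrict E) {x | t ≤ g x} ≤ volume {x ∈ E | S ≤ S / t * g x} := by
        rw [Measure.restrict_apply (measurableSet_le measurable_const hg)]
        apply measure_mono
        rintro x ⟨hx1, hx2⟩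
        refine ⟨hx2, ?_⟩
        have hx1' : t ≤ g x := hx1
        calc S = S / t * t := by field_simp
          _ ≤ S / t * g x := by
            apply mul_le_mul_of_nonneg_left hx1'
            positivity
      calc (volume.restrict E) {x | t ≤ g x} * ENNReal.ofReal (t ^ (v - 1))
          ≤ ENNReal.ofReal (K * (S / t) ^ a) * ENNReal.ofReal (t ^ (v - 1)) := by
            gcongr
            exact h3.trans h2
        _ = ENNReal.ofReal (K * S ^ a) * ENNReal.ofReal (t ^ (v - a - 1)) := by
            rw [← ENNReal.ofReal_mul (by positivity), ← ENNReal.ofReal_mul (by positivity)]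
            congr 1
            rw [Real.div_rpow hS.le ht0.le, show v - a - 1 = (v - 1) - a by ring,
              Real.rpow_sub ht0 (v - 1) a]
            field_simp
    · rw [indicator_of_notMem (fun h => htS h.2)]
      have h3 : (volume.restrict E) {x | t ≤ g x} = 0 := by
        rw [Measure.restrict_apply (measurableSet_le measurable_const hg)]
        have h6 : {x | t ≤ g x} ∩ E = ∅ := by
          apply eq_empty_of_forall_notMem
          rintro x ⟨h4, h5⟩
          exact htS (le_trans h4 (hsup x h5))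
        rw [h6, measure_empty]
      rw [h3, zero_mul]
  calc ENNReal.ofReal v * ∫⁻ t in Ioi (0 : ℝ), (volume.restrict E) {x | t ≤ g x} * ENNReal.ofReal (t ^ (v - 1))
      ≤ ENNReal.ofReal v * ∫⁻ t in Ioi (0 : ℝ), (Ioc (0 : ℝ) (S / L0)).indicator
        (fun t => ENNReal.ofReal (K * S ^ a) * ENNReal.ofReal (t ^ (v - a - 1))) t := by
        gcongr 1
        exact setLIntegral_mono' measurableSet_Ioi h1
    _ ≤ ENNReal.ofReal v * ∫⁻ t in Ioc (0 : ℝ) (S / L0),
        ENNReal.ofReal (K * S ^ a) * ENNReal.ofReal (t ^ (v - a - 1)) := by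
        gcongr 1
        refine (setLIntegral_le_lintegral _ _).trans ?_
        rw [lintegral_indicator measurableSet_Ioc]
    _ = ENNReal.ofReal (v / (v - a) * (K * S ^ v * L0 ^ (a - v))) := by
        rw [lintegral_const_mul' _ _ ENNReal.ofReal_ne_top, int_pow _ _ (by linarith) (by positivity),
          ← ENNReal.ofReal_mul (by positivity), ← ENNReal.ofReal_mul (by positivity)]
        congr 1
        rw [Real.div_rpow hS.le hL0.le, Real.rpow_sub hS, show a - v = -(v - a) by ring,
          Real.rpow_neg hL0.le]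
        field_simp

end LVA
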