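import Pool.Agent.Lib.MP_570bef_ntLV.FDefs

/-!
# Change of variables `α ↦ N α` on `ℝ / ℤ`
-/

set_option autoImplicit false

namespace Pool.Agent.Lib.MP_570bef_ntLV

open Finset MeasureTheory

/-- bounded measurable functions are interval integrable -/
theorem ii_of_bdd {G : ℝ → ℝ} (hG : Measurable G) {C : ℝ} (hC : ∀ x, |G x| ≤ C) (a b : ℝ) :
    IntervalIntegrable G volume a b := by
  refine IntervalIntegrable.mono_fun (intervalIntegrable_const (c := C))
    hG.aestronglyMeasurable ?_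
  refine Filter.Eventually.of_forall fun x => ?_
  simp only [Real.norm_eq_abs]
  exact (hC x).trans (le_abs_self C)

theorem fib_int {G : ℝ → ℝ} (hG : Measurable G) {C : ℝ} (hC : ∀ x, |G x| ≤ C) (N : ℕ)
    (hN : 0 < N) :
    ∫ x in (0 : ℝ)..1, G x = (1 / (N : ℝ)) * ∫ x in (0 : ℝ)..1, ∑ b ∈ range N, G ((x + b) / N) := by
  have hN' : (N : ℝ) ≠ 0 := by exact_mod_cast hN.ne'
  have h1 : ∫ x in (0 : ℝ)..1, G x = ∑ b ∈ range N,
      ∫ x in ((b : ℝ) / N)..(((b + 1 : ℕ) : ℝ) / N), G x := by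
    have := intervalIntegral.sum_integral_adjacent_intervals (f := G) (μ := volume)
      (a := fun b : ℕ => (b : ℝ) / N) (n := N) (fun k _ => ii_of_bdd hG hC _ _)
    rw [this]
    simp [div_self hN']
  have h2 : ∫ x in (0 : ℝ)..1, ∑ b ∈ range N, G ((x + b) / N) =
      ∑ b ∈ range N, ∫ x in (0 : ℝ)..1, G ((x + b) / N) := by
    refine intervalIntegral.integral_finsetSum fun b _ => ?_
    refine ii_of_bdd (C := C) (hG.comp (by fun_prop)) (fun x => hC _) _ _
  rw [h1, h2, mul_sum]
  refine sum_congr rfl fun b _ => ?_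
  have h3 := intervalIntegral.integral_comp_div_add (a := 0) (b := 1) (f := G) hN' ((b : ℝ) / N)
  have h4 : (fun x : ℝ => G ((x + b) / N)) = fun x => G (x / N + b / N) := by
    funext x
    rw [add_div]
  rw [h4, h3, smul_eq_mul, ← mul_assoc, one_div_mul_cancel hN', one_mul]
  congr 1
  · rw [zero_div, zero_add]
  · push_cast
    rw [add_comm, add_div]

theorem mul_int {G : ℝ → ℝ} (hG : Measurable G) {C : ℝ} (hC : ∀ x, |G x| ≤ C)
    (hper : ∀ (x : ℝ) (n : ℕ), G (x + n) = G x) (N : ℕ) (hN : 0 < N) :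
    ∫ x in (0 : ℝ)..1, G (N * x) = ∫ x in (0 : ℝ)..1, G x := by
  have hN' : (N : ℝ) ≠ 0 := by exact_mod_cast hN.ne'
  rw [fib_int (G := fun x => G (N * x)) (hG.comp (by fun_prop)) (fun x => hC _) N hN]
  have h1 : ∀ x : ℝ, ∑ b ∈ range N, G (N * ((x + b) / N)) = N * G x := by
    intro x
    rw [← nsmul_eq_mul]
    have : ∀ b ∈ range N, G (N * ((x + b) / N)) = G x := by
      intro b _
      rw [mul_div_cancel₀ _ hN', hper]
    rw [sum_congr rfl this, sum_const, card_range]
  simp_rw [h1]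
  rw [intervalIntegral.integral_const_mul, ← mul_assoc, one_div_mul_cancel hN', one_mul]

/-- indicator function with real values -/
noncomputable def ind (A : Set ℝ) : ℝ → ℝ := A.indicator fun _ => 1

theorem ind_nonneg (A : Set ℝ) (x : ℝ) : 0 ≤ ind A x := by
  unfold ind
  exact Set.indicator_nonneg (fun _ _ => zero_le_one) x

theorem ind_le_one (A : Set ℝ) (x : ℝ) : ind A x ≤ 1 := by
  unfold ind
  by_cases h : x ∈ A
  · rw [Set.indicator_of_mem h]
  · rw [Set.indicator_of_notMem h]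
    exact zero_le_one

theorem ind_abs (A : Set ℝ) (x : ℝ) : |ind A x| ≤ 1 := by
  rw [abs_of_nonneg (ind_nonneg A x)]
  exact ind_le_one A x

theorem ind_of_mem {A : Set ℝ} {x : ℝ} (h : x ∈ A) : ind A x = 1 := by
  unfold ind
  rw [Set.indicator_of_mem h]

theorem ind_of_notMem {A : Set ℝ} {x : ℝ} (h : x ∉ A) : ind A x = 0 := by
  unfold ind
  rw [Set.indicator_of_notMem h]

theorem measurable_ind {A : Set ℝ} (hA : MeasurableSet A) : Measurable (ind A) := by
  unfold ind
  exact measurable_const.indicator hA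

/-- the level set -/
def lset (k : ℕ) (S : Finset ℕ) (L : ℝ) : Set ℝ := {α | (S.card : ℝ) / L ≤ ‖fs k S α‖}

theorem isClosed_lset (k : ℕ) (S : Finset ℕ) (L : ℝ) : IsClosed (lset k S L) := by
  unfold lset
  exact isClosed_le continuous_const (continuous_norm.comp (continuous_fs k S))

theorem lev_eq (k : ℕ) (S : Finset ℕ) (L : ℝ) :
    lev k S L = ∫ x in (0 : ℝ)..1, ind (lset k S L) x := by
  rw [intervalIntegral.integral_of_le zero_le_one, ← integral_Icc_eq_integral_Ioc, ind,
    integral_indicator (isClosed_lset k S L).measurableSet, setIntegral_const]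
  simp only [smul_eq_mul, mul_one]
  rw [Measure.real, Measure.restrict_apply (isClosed_lset k S L).measurableSet, lev, Set.inter_comm]
  rfl

theorem lev_nonneg (k : ℕ) (S : Finset ℕ) (L : ℝ) : 0 ≤ lev k S L := ENNReal.toReal_nonneg

theorem lev_le_one (k : ℕ) (S : Finset ℕ) (L : ℝ) : lev k S L ≤ 1 := by
  rw [lev_eq]
  calc ∫ x in (0 : ℝ)..1, ind (lset k S L) x ≤ ∫ _x in (0 : ℝ)..1, (1 : ℝ) := by
        refine intervalIntegral.integral_mono_on zero_le_one ?_ (by simp) fun x _ => ind_le_one _ _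
        exact ii_of_bdd (measurable_ind (isClosed_lset k S L).measurableSet) (ind_abs _) _ _
    _ = 1 := by simp

theorem lev_mono (k : ℕ) (S : Finset ℕ) {L L' : ℝ} (hL : 0 < L) (h : L ≤ L') :
    lev k S L ≤ lev k S L' := by
  rw [lev_eq, lev_eq]
  refine intervalIntegral.integral_mono_on zero_le_one
    (ii_of_bdd (measurable_ind (isClosed_lset k S L).measurableSet) (ind_abs _) _ _)
    (ii_of_bdd (measurable_ind (isClosed_lset k S L').measurableSet) (ind_abs _) _ _) fun x _ => ?_
  by_cases hx : x ∈ lset k S L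
  · have hx' : x ∈ lset k S L' := by
      change (S.card : ℝ) / L' ≤ ‖fs k S x‖
      change (S.card : ℝ) / L ≤ ‖fs k S x‖ at hx
      refine le_trans ?_ hx
      gcongr
    rw [ind_of_mem hx, ind_of_mem hx']
  · rw [ind_of_notMem hx]
    exact ind_nonneg _ _

end Pool.Agent.Lib.MP_570bef_ntLV
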