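import Pool.Agent.Lib.MP_570bef_ntLV.A1
import Pool.Agent.Lib.MP_570bef_ntLV.FCov
import Pool.Agent.Lib.MP_570bef_ntLC.Defs

/-!
Block (A) of the LV stream: from level set bounds and the pointwise bound for the
product sets at all large P to the mean value over the minor arcs at all large X.
-/

set_option autoImplicit false

open MeasureTheory Set
open Pool.Agent.Lib.MP_570bef_ntLV Pool.Agent.Lib.MP_570bef_ntLC

namespace LVA

/-- major arcs with exponent 1/6 -/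
def Mj6 (k Q : ℕ) : Set ℝ :=
  {α | ∃ (q : ℕ) (a : ℤ), 1 ≤ q ∧ (q : ℝ) ^ 6 ≤ Q ∧ (|α - a / q| * (Q : ℝ) ^ k) ^ 6 ≤ Q}

theorem Mj6_sub (k Q X M : ℕ) (hQX : Q ≤ X) (hX : X ≤ 2 ^ M * Q) (hQ : 2 ^ (30 * M * k) ≤ Q) :
    Mj6 k Q ⊆ Mj k X := by
  rintro α ⟨q, a, hq, hq6, h6⟩
  refine ⟨q, a, hq, ?_, ?_⟩
  · have hq1 : (1 : ℝ) ≤ q := by exact_mod_cast hq
    calc (q : ℝ) ^ 5 ≤ (q : ℝ) ^ 6 := pow_le_pow_right₀ hq1 (by norm_num)
      _ ≤ Q := hq6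
      _ ≤ X := by exact_mod_cast hQX
  · have hX' : (X : ℝ) ≤ 2 ^ M * Q := by exact_mod_cast hX
    have hQ' : (2 : ℝ) ^ (30 * M * k) ≤ Q := by exact_mod_cast hQ
    have hQX' : (Q : ℝ) ≤ X := by exact_mod_cast hQX
    have hQ0 : (0 : ℝ) ≤ Q := by positivity
    set t : ℝ := |α - a / q| * (Q : ℝ) ^ k with ht
    have ht0 : 0 ≤ t := by positivity
    have h1 : |α - a / q| * (X : ℝ) ^ k ≤ t * 2 ^ (M * k) := by
      calc |α - a / q| * (X : ℝ) ^ k ≤ |α - a / q| * (2 ^ M * Q : ℝ) ^ k := by gcongr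
        _ = t * 2 ^ (M * k) := by
          rw [ht, mul_pow, ← pow_mul]; ring
    have h2 : (t * 2 ^ (M * k)) ^ 5 ≤ (Q : ℝ) := by
      refine le_of_pow_le_pow_left₀ (by norm_num : (6 : ℕ) ≠ 0) hQ0 ?_
      calc ((t * 2 ^ (M * k)) ^ 5) ^ 6 = (t ^ 6) ^ 5 * 2 ^ (30 * M * k) := by
            rw [mul_pow, mul_pow, ← pow_mul, ← pow_mul, ← pow_mul, ← pow_mul]
            congr 2
            ring
        _ ≤ (Q : ℝ) ^ 5 * Q := by
            gcongr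
        _ = (Q : ℝ) ^ 6 := by ring
    have h3 : (|α - a / q| * (X : ℝ) ^ k) ^ 5 ≤ (t * 2 ^ (M * k)) ^ 5 := by gcongr
    exact (h3.trans h2).trans hQX'

theorem fs_eq (k : ℕ) (S : Finset ℕ) (α : ℝ) : fs k S α = fS k S α := by
  unfold fs fS
  refine Finset.sum_congr rfl fun x _ => ?_
  unfold ee Pool.Agent.Lib.MP_2a816b_nt.e
  congr 1
  push_cast
  ring

theorem ofReal_lev (k : ℕ) (S : Finset ℕ) (L : ℝ) :
    volume (Set.Icc (0 : ℝ) 1 ∩ {α | (S.card : ℝ) / L ≤ ‖fs k S α‖}) = ENNReal.ofReal (lev k S L) := by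
  unfold lev
  rw [ENNReal.ofReal_toReal]
  refine ne_top_of_le_ne_top (b := volume (Set.Icc (0 : ℝ) 1)) (by simp) ?_
  exact measure_mono inter_subset_left

/-- the integral over the minor arcs at one P -/
theorem int_at (k s M P X : ℕ) (S : Finset ℕ) (L0 K a : ℝ) (hP : 1 ≤ P) (hS : S.Nonempty)
    (hL0 : 0 < L0) (hK : 0 ≤ K) (ha0 : 0 ≤ a) (ha : a < 2 * s)
    (hsub : Mj6 k ((2 * P) ^ M) ⊆ Mj k X)
    (hsup : ∀ α, α ∉ Mj6 k ((2 * P) ^ M) → ‖fs k S α‖ ≤ S.card / L0)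
    (hlev : ∀ L : ℝ, L0 ≤ L → (P : ℝ) ^ (k * M) * lev k S L ≤ K * L0 ^ (2 * s - a) * L ^ a) :
    (∫ α in Icc (0 : ℝ) 1 \ Mj k X, ‖fS k S α‖ ^ (2 * s)) * (P : ℝ) ^ (k * M) ≤
      2 * s / (2 * s - a) * K * (S.card : ℝ) ^ (2 * s) := by
  have hP0 : (0 : ℝ) < P := by exact_mod_cast hP
  have hs0 : (0 : ℝ) < 2 * s := by linarith
  have hSc : (0 : ℝ) < S.card := by exact_mod_cast hS.card_pos
  have hPk : (0 : ℝ) < (P : ℝ) ^ (k * M) := by positivity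
  have hK1 : 0 ≤ K * L0 ^ (2 * s - a) / (P : ℝ) ^ (k * M) := by positivity
  have h1 := layer (Icc (0 : ℝ) 1 \ Mj k X) (fun x => ‖fs k S x‖) (continuous_fs k S).norm.measurable
    (fun x => norm_nonneg _) S.card L0 (K * L0 ^ (2 * s - a) / (P : ℝ) ^ (k * M)) a (2 * s) hSc hL0 hK1
    ha hs0 (by
      rintro x ⟨-, hx⟩
      exact hsup x (fun h => hx (hsub h))) (by
      intro L hL
      have hL' : 0 < L := lt_of_lt_of_le hL0 hL
      have h2 : volume {x ∈ Icc (0 : ℝ) 1 \ Mj k X | (S.card : ℝ) ≤ L * ‖fs k S x‖} ≤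
          ENNReal.ofReal (lev k S L) := by
        rw [← ofReal_lev]
        apply measure_mono
        rintro x ⟨⟨hx1, -⟩, hx2⟩
        refine ⟨hx1, ?_⟩
        have hx2' : (S.card : ℝ) ≤ L * ‖fs k S x‖ := hx2
        show (S.card : ℝ) / L ≤ ‖fs k S x‖
        rw [div_le_iff₀ hL']
        linarith
      refine h2.trans (ENNReal.ofReal_le_ofReal ?_)
      have h3 := hlev L hL
      rw [div_mul_eq_mul_div, le_div_iff₀ hPk]
      linarith)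
  have h4 : ∫ α in Icc (0 : ℝ) 1 \ Mj k X, ‖fS k S α‖ ^ (2 * s) ≤
      2 * s / (2 * s - a) * (K * L0 ^ (2 * s - a) / (P : ℝ) ^ (k * M) * (S.card : ℝ) ^ (2 * s : ℝ) *
        L0 ^ (a - 2 * s)) := by
    have h5 : ∫ α in Icc (0 : ℝ) 1 \ Mj k X, ‖fS k S α‖ ^ (2 * s) =
        (∫⁻ α in Icc (0 : ℝ) 1 \ Mj k X, ENNReal.ofReal (‖fs k S α‖ ^ (2 * s : ℝ))).toReal := by
      rw [integral_eq_lintegral_of_nonneg_ae (f := fun α => ‖fS k S α‖ ^ (2 * s))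
        (Filter.Eventually.of_forall fun x => by positivity)
        ((Pool.Agent.Lib.MP_570bef_ntLC.continuous_fS k S).norm.pow _).aestronglyMeasurable]
      congr 1
      refine lintegral_congr fun x => ?_
      rw [fs_eq]
      congr 1
      rw [show (2 * (s : ℝ)) = ((2 * s : ℕ) : ℝ) by push_cast; ring, Real.rpow_natCast]
    rw [h5]
    refine ENNReal.toReal_le_of_le_ofReal ?_ h1
    have : 0 < 2 * s - a := by linarith
    positivity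
  have h6 : (S.card : ℝ) ^ (2 * s : ℝ) = (S.card : ℝ) ^ (2 * s) := by
    rw [show (2 * (s : ℝ)) = ((2 * s : ℕ) : ℝ) by push_cast; ring, Real.rpow_natCast]
  have h7 : L0 ^ (2 * s - a) * L0 ^ (a - 2 * s) = 1 := by
    rw [← Real.rpow_add hL0]
    simp
  rw [h6] at h4
  have h8 : 2 * s / (2 * s - a) * (K * L0 ^ (2 * s - a) / (P : ℝ) ^ (k * M) * (S.card : ℝ) ^ (2 * s) *
        L0 ^ (a - 2 * s)) = 2 * s / (2 * s - a) * K * (S.card : ℝ) ^ (2 * s) / (P : ℝ) ^ (k * M) := by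
    calc _ = 2 * s / (2 * s - a) * K * (S.card : ℝ) ^ (2 * s) / (P : ℝ) ^ (k * M) *
          (L0 ^ (2 * s - a) * L0 ^ (a - 2 * s)) := by ring
      _ = _ := by rw [h7, mul_one]
  rw [h8, le_div_iff₀ hPk] at h4
  exact h4

/-- from the product sets at all large P to all large X -/
theorem minorMV_of (k s M : ℕ) (hM : 1 ≤ M) (K a : ℝ) (hK : 0 ≤ K) (ha0 : 0 ≤ a) (ha : a < 2 * s)
    (H : ∃ P0 : ℕ, ∀ P ≥ P0, ∃ (S : Finset ℕ) (L0 : ℝ), S.Nonempty ∧ (∀ x ∈ S, x ≤ (2 * P) ^ M) ∧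
      0 < L0 ∧ (∀ α, α ∉ Mj6 k ((2 * P) ^ M) → ‖fs k S α‖ ≤ S.card / L0) ∧
      (∀ L : ℝ, L0 ≤ L → (P : ℝ) ^ (k * M) * lev k S L ≤ K * L0 ^ (2 * s - a) * L ^ a)) :
    MinorMV k s := by
  obtain ⟨P0, hP0⟩ := H
  obtain ⟨c, hc⟩ : ∃ c : ℕ, c = 2 ^ (30 * k) := ⟨_, rfl⟩
  refine ⟨2 * s / (2 * s - a) * K * 4 ^ (k * M), (2 * (P0 + c + 1)) ^ M, fun X hX => ?_⟩
  -- choose P maximal with (2P)^M <= X
  have hex : ∃ P : ℕ, (2 * P) ^ M ≤ X ∧ X < (2 * (P + 1)) ^ M ∧ P0 + c + 1 ≤ P := by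
    have hM0 : M ≠ 0 := by omega
    have hub : ∀ P : ℕ, (2 * P) ^ M ≤ X → P ≤ X := by
      intro P hP
      calc P ≤ 2 * P := by omega
        _ ≤ (2 * P) ^ M := Nat.le_self_pow hM0 _
        _ ≤ X := hP
    refine ⟨Nat.findGreatest (fun P => (2 * P) ^ M ≤ X) X, ?_, ?_, ?_⟩
    · exact Nat.findGreatest_spec (P := fun P => (2 * P) ^ M ≤ X) (hub _ hX) hX
    · by_contra hcon
      have h1 := Nat.le_findGreatest (P := fun P => (2 * P) ^ M ≤ X)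
        (hub _ (not_lt.1 hcon)) (not_lt.1 hcon)
      exact absurd h1 (by omega)
    · exact Nat.le_findGreatest (P := fun P => (2 * P) ^ M ≤ X) (hub _ hX) hX
  obtain ⟨P, h1, h2, h3⟩ := hex
  obtain ⟨S, L0, hS, hSx, hL0, hsup, hlev⟩ := hP0 P (by omega)
  have hP1 : 1 ≤ P := by omega
  have hsub : Mj6 k ((2 * P) ^ M) ⊆ Mj k X := by
    apply Mj6_sub k _ X M h1
    · calc X ≤ (2 * (P + 1)) ^ M := h2.le
        _ ≤ (2 * (2 * P)) ^ M := Nat.pow_le_pow_left (by omega) M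
        _ = 2 ^ M * (2 * P) ^ M := by rw [mul_pow]
    · calc 2 ^ (30 * M * k) = c ^ M := by rw [hc, ← pow_mul]; ring_nf
        _ ≤ (2 * P) ^ M := Nat.pow_le_pow_left (by omega) M
  have h4 := int_at k s M P X S L0 K a hP1 hS hL0 hK ha0 ha hsub hsup hlev
  refine ⟨S, hS, fun x hx => (hSx x hx).trans h1, ?_⟩
  have h5 : (X : ℝ) ^ k ≤ 4 ^ (k * M) * (P : ℝ) ^ (k * M) := by
    have h6 : X ≤ (4 * P) ^ M := by
      calc X ≤ (2 * (P + 1)) ^ M := h2.le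
        _ ≤ (4 * P) ^ M := Nat.pow_le_pow_left (by omega) M
    have h7 : X ^ k ≤ 4 ^ (k * M) * P ^ (k * M) := by
      calc X ^ k ≤ ((4 * P) ^ M) ^ k := Nat.pow_le_pow_left h6 k
        _ = 4 ^ (k * M) * P ^ (k * M) := by rw [← pow_mul, mul_comm M k, mul_pow]
    exact_mod_cast h7
  have h8 : 0 ≤ ∫ α in Icc (0 : ℝ) 1 \ Mj k X, ‖fS k S α‖ ^ (2 * s) :=
    integral_nonneg fun x => by positivity
  calc (∫ α in Icc (0 : ℝ) 1 \ Mj k X, ‖fS k S α‖ ^ (2 * s)) * (X : ℝ) ^ k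
      ≤ (∫ α in Icc (0 : ℝ) 1 \ Mj k X, ‖fS k S α‖ ^ (2 * s)) * (4 ^ (k * M) * (P : ℝ) ^ (k * M)) := by
        gcongr
    _ = 4 ^ (k * M) * ((∫ α in Icc (0 : ℝ) 1 \ Mj k X, ‖fS k S α‖ ^ (2 * s)) * (P : ℝ) ^ (k * M)) := by
        ring
    _ ≤ 4 ^ (k * M) * (2 * s / (2 * s - a) * K * (S.card : ℝ) ^ (2 * s)) := by gcongr
    _ = 2 * s / (2 * s - a) * K * 4 ^ (k * M) * (S.card : ℝ) ^ (2 * s) := by ring

end LVA
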