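import Pool.Agent.Lib.MP_570bef_ntLV.BMain

/-!
# LV, block B: algebra of the exponents
-/

set_option autoImplicit false

namespace Pool.Agent.Lib.MP_570bef_ntLV

open Finset MeasureTheory

/-- the bound for `q'`: `K₁ = 2 ^ m`, `K₂` the constant of the inequality -/
theorem alg_q {k : ℕ} (hk : 3 ≤ k) {u K₁ K₂ x : ℝ} (hK₁ : 1 ≤ K₁) (hK₂ : 1 ≤ K₂)
    (hu : 2 * K₂ * K₁ ≤ u) (hx : 0 < x)
    (h : u ^ (1000 * k - 9) ≤ K₂ * u ^ (306 * k) * (K₁ * u ^ (1000 * k) / x + 1)) :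
    x ≤ u ^ (306 * k + 10) := by
  have hK : 1 ≤ K₂ * K₁ := one_le_mul_of_one_le_of_one_le hK₂ hK₁
  have hu2 : 2 ≤ u := by nlinarith
  have hu0 : 0 < u := by linarith
  have hu1 : 1 ≤ u := by linarith
  by_contra hcon
  rw [not_le] at hcon
  have h1 : K₁ * u ^ (1000 * k) / x ≤ K₁ * u ^ (694 * k - 10) := by
    rw [div_le_iff₀ hx]
    have e : u ^ (1000 * k) = u ^ (694 * k - 10) * u ^ (306 * k + 10) := by
      rw [← pow_add]
      congr 1
      omega
    rw [e]
    have h2 : u ^ (694 * k - 10) * u ^ (306 * k + 10) ≤ u ^ (694 * k - 10) * x :=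
      mul_le_mul_of_nonneg_left hcon.le (by positivity)
    nlinarith
  have h2 : (1 : ℝ) ≤ u ^ (694 * k - 10) := one_le_pow₀ hu1
  have h3 : K₁ * u ^ (1000 * k) / x + 1 ≤ (K₁ + 1) * u ^ (694 * k - 10) := by nlinarith
  have h4 : u ^ (1000 * k - 9) ≤ K₂ * (K₁ + 1) * (u ^ (306 * k) * u ^ (694 * k - 10)) := by
    refine h.trans ?_
    have h5 : K₂ * u ^ (306 * k) * (K₁ * u ^ (1000 * k) / x + 1) ≤
        K₂ * u ^ (306 * k) * ((K₁ + 1) * u ^ (694 * k - 10)) :=
      mul_le_mul_of_nonneg_left h3 (by positivity)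
    refine h5.trans (le_of_eq (by ring))
  rw [← pow_add] at h4
  have e : 306 * k + (694 * k - 10) = 1000 * k - 10 := by omega
  have e2 : 1000 * k - 9 = 1000 * k - 10 + 1 := by omega
  rw [e, e2, pow_succ] at h4
  have h5 : (0 : ℝ) < u ^ (1000 * k - 10) := by positivity
  have h6 : u ≤ K₂ * (K₁ + 1) := by
    refine le_of_mul_le_mul_left ?_ h5
    linarith
  have h8 : u = 2 * K₂ * K₁ ∧ K₁ = 1 ∨ u < 2 * K₂ * K₁ ∨ K₁ = 1 := by
    rcases hK₁.eq_or_lt with h9 | h9
    · exact Or.inr (Or.inr h9.symm)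
    · refine Or.inr (Or.inl (lt_of_le_of_lt h6 ?_))
      nlinarith
  -- strictness: use that the inequality for `x` is strict
  have hstrict : K₁ * u ^ (1000 * k) / x < K₁ * u ^ (694 * k - 10) := by
    rw [div_lt_iff₀ hx]
    have e : u ^ (1000 * k) = u ^ (694 * k - 10) * u ^ (306 * k + 10) := by
      rw [← pow_add]
      congr 1
      omega
    rw [e]
    have h2 : u ^ (694 * k - 10) * u ^ (306 * k + 10) < u ^ (694 * k - 10) * x :=
      mul_lt_mul_of_pos_left hcon (by positivity)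
    nlinarith
  have h10 : K₁ * u ^ (1000 * k) / x + 1 < (K₁ + 1) * u ^ (694 * k - 10) := by nlinarith
  have h11 : u ^ (1000 * k - 9) < K₂ * (K₁ + 1) * (u ^ (306 * k) * u ^ (694 * k - 10)) := by
    refine lt_of_le_of_lt h ?_
    have h5 : K₂ * u ^ (306 * k) * (K₁ * u ^ (1000 * k) / x + 1) <
        K₂ * u ^ (306 * k) * ((K₁ + 1) * u ^ (694 * k - 10)) :=
      mul_lt_mul_of_pos_left h10 (by positivity)
    refine h5.trans_le (le_of_eq (by ring))
  rw [← pow_add, e, e2, pow_succ] at h11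
  have h12 : u < K₂ * (K₁ + 1) := by
    refine lt_of_mul_lt_mul_left ?_ h5.le
    linarith
  nlinarith

/-- the bound for `β` -/
theorem alg_b {k : ℕ} (hk : 3 ≤ k) {u K b : ℝ} (hK : 1 ≤ K) (hu : 4 * K ≤ u) (hb : 0 < b)
    (h : u ^ (1000 * k - 9) ≤ K * u ^ (305 * k) * (2 * (1 / (b * u ^ (2000 * k * k - 1000 * k))) + 1)) :
    b * u ^ (2000 * k * k) ≤ u ^ (305 * k + 10) := by
  have hu4 : 4 ≤ u := by linarith
  have hu0 : 0 < u := by linarith
  have hu1 : 1 ≤ u := by linarith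
  by_contra hcon
  rw [not_le] at hcon
  have e1 : u ^ (2000 * k * k) = u ^ (2000 * k * k - 1000 * k) * u ^ (1000 * k) := by
    rw [← pow_add]
    congr 1
    have : 1000 * k ≤ 2000 * k * k := by nlinarith
    omega
  have e3 : u ^ (1000 * k) = u ^ (695 * k - 10) * u ^ (305 * k + 10) := by
    rw [← pow_add]
    congr 1
    omega
  have h1 : 1 / (b * u ^ (2000 * k * k - 1000 * k)) ≤ u ^ (695 * k - 10) := by
    rw [div_le_iff₀ (by positivity)]
    have h2 : u ^ (305 * k + 10) ≤ b * u ^ (2000 * k * k - 1000 * k) * u ^ (1000 * k) := by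
      rw [mul_assoc, ← e1]
      exact hcon.le
    rw [e3] at h2
    have h3 : (0 : ℝ) < u ^ (305 * k + 10) := by positivity
    have h4 : 1 * u ^ (305 * k + 10) ≤
        (u ^ (695 * k - 10) * (b * u ^ (2000 * k * k - 1000 * k))) * u ^ (305 * k + 10) := by
      refine le_trans (by rw [one_mul]) (h2.trans (le_of_eq (by ring)))
    exact le_of_mul_le_mul_right h4 h3
  have h2 : (1 : ℝ) ≤ u ^ (695 * k - 10) := one_le_pow₀ hu1
  have h3 : 2 * (1 / (b * u ^ (2000 * k * k - 1000 * k))) + 1 ≤ 3 * u ^ (695 * k - 10) := by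
    linarith
  have h4 : u ^ (1000 * k - 9) ≤ 3 * K * (u ^ (305 * k) * u ^ (695 * k - 10)) := by
    refine h.trans ?_
    have h5 : K * u ^ (305 * k) * (2 * (1 / (b * u ^ (2000 * k * k - 1000 * k))) + 1) ≤
        K * u ^ (305 * k) * (3 * u ^ (695 * k - 10)) :=
      mul_le_mul_of_nonneg_left h3 (by positivity)
    refine h5.trans (le_of_eq (by ring))
  rw [← pow_add] at h4
  have e : 305 * k + (695 * k - 10) = 1000 * k - 10 := by omega
  have e2 : 1000 * k - 9 = 1000 * k - 10 + 1 := by omega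
  rw [e, e2, pow_succ] at h4
  have h5 : (0 : ℝ) < u ^ (1000 * k - 10) := by positivity
  have h6 : u ≤ 3 * K := by
    refine le_of_mul_le_mul_left ?_ h5
    linarith
  linarith

end Pool.Agent.Lib.MP_570bef_ntLV
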