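import Pool.Agent.Lib.MP_570bef_ntLV.BRt

/-!
# LV, block B: Dirichlet's theorem and clusters of the points `D ^ k α`
-/

set_option autoImplicit false

namespace Pool.Agent.Lib.MP_570bef_ntLV

open Finset

/-- Dirichlet's theorem -/
theorem dirichlet (α : ℝ) {Q : ℕ} (hQ : 0 < Q) : ∃ (n : ℤ) (q : ℕ), 0 < q ∧ q ≤ Q ∧
    IsCoprime n (q : ℤ) ∧ |α - n / q| ≤ 1 / ((Q + 1) * q) := by
  obtain ⟨r, h1, h2⟩ := Real.exists_rat_abs_sub_le_and_den_le α hQ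
  refine ⟨r.num, r.den, r.den_pos, h2, ?_, ?_⟩
  · exact Int.isCoprime_iff_gcd_eq_one.2 r.reduced
  · have e : ((r : ℚ) : ℝ) = (r.num : ℝ) / (r.den : ℝ) := Rat.cast_def r
    rw [← e]
    exact h1

/-- close points -/
theorem div_of_close {α : ℝ} {k Y : ℕ} {n : ℤ} {q : ℕ} (hY : 1 ≤ Y) (hq : 0 < q)
    (hqQ : q ≤ 2 * Y ^ k) (hc : IsCoprime n (q : ℤ))
    (hα : |α - n / q| ≤ 1 / (((2 * Y ^ k : ℕ) + 1) * q)) {D D' : ℕ} (hD : D ≤ Y) (hD' : D' ≤ Y)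
    {z : ℤ} {δ : ℝ} (h : |((D : ℝ) ^ k - (D' : ℝ) ^ k) * α - z| ≤ δ)
    (hδ : δ < 1 / (4 * (Y : ℝ) ^ k)) :
    ((q : ℤ) ∣ (D : ℤ) ^ k - (D' : ℤ) ^ k) ∧
      |(D : ℝ) ^ k - (D' : ℝ) ^ k| * |α - n / q| ≤ δ := by
  have hq0 : (0 : ℝ) < q := by exact_mod_cast hq
  have hYk : (0 : ℝ) < (Y : ℝ) ^ k := by positivity
  have hqQ' : (q : ℝ) ≤ 2 * (Y : ℝ) ^ k := by exact_mod_cast hqQ
  obtain ⟨u, hu⟩ : ∃ u : ℝ, u = (D : ℝ) ^ k - (D' : ℝ) ^ k := ⟨_, rfl⟩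
  obtain ⟨β, hβ⟩ : ∃ β : ℝ, β = α - n / q := ⟨_, rfl⟩
  rw [← hu] at h ⊢
  rw [← hβ] at hα ⊢
  have hu1 : |u| ≤ (Y : ℝ) ^ k := by
    have h1 : (D : ℝ) ^ k ≤ (Y : ℝ) ^ k := by gcongr
    have h2 : (D' : ℝ) ^ k ≤ (Y : ℝ) ^ k := by gcongr
    have h3 : (0 : ℝ) ≤ (D : ℝ) ^ k := by positivity
    have h4 : (0 : ℝ) ≤ (D' : ℝ) ^ k := by positivity
    rw [hu, abs_le]
    constructor <;> linarith
  have h1 : |u * β| < 1 / (2 * q) := by
    rw [abs_mul]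
    calc |u| * |β| ≤ (Y : ℝ) ^ k * (1 / (((2 * Y ^ k : ℕ) + 1) * q)) :=
          mul_le_mul hu1 hα (abs_nonneg _) hYk.le
      _ < 1 / (2 * q) := by
          push_cast
          rw [mul_one_div, div_lt_div_iff₀ (by positivity) (by positivity)]
          nlinarith
  have h2 : δ < 1 / (2 * q) := by
    refine hδ.trans_le ?_
    exact one_div_le_one_div_of_le (by positivity) (by linarith)
  have h3 : u * (n / q) - z = (u * α - z) - u * β := by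
    rw [hβ]; ring
  have h4 : |u * (n / q) - z| < 1 / q := by
    rw [h3]
    calc |(u * α - z) - u * β| ≤ |u * α - z| + |u * β| := abs_sub _ _
      _ < 1 / (2 * q) + 1 / (2 * q) := by linarith
      _ = 1 / q := by field_simp; norm_num
  have h5 : |(((D : ℤ) ^ k - (D' : ℤ) ^ k) * n - z * q : ℤ)| < 1 := by
    have h6 : |u * n - z * q| < 1 := by
      have e : u * n - z * q = (u * (n / q) - z) * q := by field_simp
      rw [e, abs_mul, abs_of_pos hq0]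
      calc |u * (n / q) - z| * q < 1 / q * q := mul_lt_mul_of_pos_right h4 hq0
        _ = 1 := by field_simp
    rw [hu] at h6
    exact_mod_cast h6
  have h6 : ((D : ℤ) ^ k - (D' : ℤ) ^ k) * n - z * q = 0 := Int.abs_lt_one_iff.1 h5
  have h7 : (q : ℤ) ∣ (D : ℤ) ^ k - (D' : ℤ) ^ k := by
    refine hc.symm.dvd_of_dvd_mul_right ?_
    exact ⟨z, by linarith⟩
  refine ⟨h7, ?_⟩
  have h8 : u * (n / q) - z = 0 := by
    have h9 : u * n - z * q = 0 := by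
      rw [hu]
      exact_mod_cast h6
    have e : u * (n / q) - z = (u * n - z * q) / q := by field_simp
    rw [e, h9, zero_div]
  rw [h3] at h8
  rw [← abs_mul, ← sub_eq_zero.1 h8]
  exact h

/-- differences of `k`-th powers -/
theorem pow_sub_ge {k : ℕ} (hk : 1 ≤ k) {Y₁ : ℝ} (hY : 0 ≤ Y₁) {a b : ℝ} (ha : Y₁ ≤ a) (hb : Y₁ ≤ b) :
    |a - b| * Y₁ ^ (k - 1) ≤ |a ^ k - b ^ k| := by
  obtain ⟨j, rfl⟩ := Nat.exists_eq_add_of_le' hk
  rw [Nat.add_sub_cancel]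
  have key : ∀ a b : ℝ, Y₁ ≤ b → b ≤ a → (a - b) * Y₁ ^ j ≤ a ^ (j + 1) - b ^ (j + 1) := by
    intro a b hb hab
    have hb0 : 0 ≤ b := hY.trans hb
    have h1 : Y₁ ^ j ≤ a ^ j := pow_le_pow_left₀ hY (hb.trans hab) j
    have h2 : b ^ j ≤ a ^ j := pow_le_pow_left₀ hb0 hab j
    have h3 : (a - b) * Y₁ ^ j ≤ (a - b) * a ^ j :=
      mul_le_mul_of_nonneg_left h1 (by linarith)
    have h4 : b * b ^ j ≤ b * a ^ j := mul_le_mul_of_nonneg_left h2 hb0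
    calc (a - b) * Y₁ ^ j ≤ (a - b) * a ^ j := h3
      _ = a ^ (j + 1) - b * a ^ j := by ring
      _ ≤ a ^ (j + 1) - b * b ^ j := by linarith
      _ = a ^ (j + 1) - b ^ (j + 1) := by ring
  rcases le_total b a with h | h
  · rw [abs_of_nonneg (by linarith)]
    exact (key a b hb h).trans (le_abs_self _)
  · rw [abs_sub_comm, abs_of_nonneg (by linarith), abs_sub_comm (a ^ (j + 1))]
    exact (key b a ha h).trans (le_abs_self _)

/-- the number of the natural numbers in a short interval -/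
theorem card_near (S : Finset ℕ) (a : ℕ) {r : ℝ} (hr : 0 ≤ r)
    (h : ∀ x ∈ S, |(x : ℝ) - a| ≤ r) : (S.card : ℝ) ≤ 2 * r + 1 := by
  have h1 : S ⊆ Icc (a - ⌊r⌋₊) (a + ⌊r⌋₊) := by
    intro x hx
    have h2 := h x hx
    rw [abs_le] at h2
    rw [mem_Icc]
    constructor
    · rw [Nat.sub_le_iff_le_add]
      by_contra hcon
      rw [not_le] at hcon
      have h3 : (x : ℝ) + ⌊r⌋₊ + 1 ≤ a := by exact_mod_cast hcon
      have h4 := Nat.lt_floor_add_one r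
      linarith
    · by_contra hcon
      rw [not_le] at hcon
      have h3 : (a : ℝ) + ⌊r⌋₊ + 1 ≤ x := by exact_mod_cast hcon
      have h4 := Nat.lt_floor_add_one r
      linarith
  have h2 := card_le_card h1
  rw [Nat.card_Icc] at h2
  have h3 : S.card ≤ 2 * ⌊r⌋₊ + 1 := by omega
  have h4 : (S.card : ℝ) ≤ 2 * ⌊r⌋₊ + 1 := by exact_mod_cast h3
  have h5 := Nat.floor_le hr
  linarith

/-- the cluster bounds the distance -/
theorem cluster_beta {k : ℕ} (hk : 1 ≤ k) {Y₁ : ℕ} (hY1 : 1 ≤ Y₁) (S : Finset ℕ) {D' : ℕ}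
    (hD' : Y₁ ≤ D') (hS : ∀ D ∈ S, Y₁ ≤ D) {β δ : ℝ} (hβ : 0 < β) (hδ : 0 ≤ δ)
    (h : ∀ D ∈ S, |(D : ℝ) ^ k - (D' : ℝ) ^ k| * β ≤ δ) :
    (S.card : ℝ) ≤ 2 * (δ / (β * (Y₁ : ℝ) ^ (k - 1))) + 1 := by
  have hY0 : (0 : ℝ) < Y₁ := by exact_mod_cast hY1
  refine card_near S D' (by positivity) fun D hD => ?_
  rw [le_div_iff₀ (by positivity)]
  have h1 := pow_sub_ge hk hY0.le (a := D) (b := D') (by exact_mod_cast hS D hD)
    (by exact_mod_cast hD')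
  calc |(D : ℝ) - D'| * (β * (Y₁ : ℝ) ^ (k - 1)) = (|(D : ℝ) - D'| * (Y₁ : ℝ) ^ (k - 1)) * β := by
        ring
    _ ≤ |(D : ℝ) ^ k - (D' : ℝ) ^ k| * β := mul_le_mul_of_nonneg_right h1 hβ.le
    _ ≤ δ := h D hD

/-- the cluster bounds the denominator -/
theorem cluster_q {k : ℕ} (hk : 1 ≤ k) {Y q g : ℕ} (hq : 0 < q) (S : Finset ℕ) {D' : ℕ}
    (hD'S : D' ∈ S) (hS : ∀ D ∈ S, 1 ≤ D ∧ D ≤ Y ∧ Squarefree D ∧ Nat.gcd D q = g)
    (h : ∀ D ∈ S, D ^ k ≡ D' ^ k [MOD q]) :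
    S.card ≤ (Y / g / (q / Nat.gcd q (g ^ k)) + 1) * nT k (q / Nat.gcd q (g ^ k)) := by
  classical
  obtain ⟨h1, h2, h3, h4⟩ := hS D' hD'S
  have hg : 0 < g := by
    rw [← h4]
    exact Nat.gcd_pos_of_pos_right _ hq
  have hgS : ∀ D ∈ S, g ∣ D := fun D hD => by
    rw [← (hS D hD).2.2.2]
    exact Nat.gcd_dvd_left _ _
  have hq' : 0 < q / Nat.gcd q (g ^ k) :=
    Nat.div_pos (Nat.le_of_dvd hq (Nat.gcd_dvd_left _ _)) (Nat.gcd_pos_of_pos_left _ hq)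
  have hcop : (D' / g).Coprime q := by
    rw [Nat.coprime_iff_gcd_eq_one]
    by_contra hne
    obtain ⟨p, hp, hpd⟩ := Nat.exists_prime_and_dvd hne
    have hp1 : p ∣ D' / g := hpd.trans (Nat.gcd_dvd_left _ _)
    have hp2 : p ∣ q := hpd.trans (Nat.gcd_dvd_right _ _)
    obtain ⟨e, he⟩ := hgS D' hD'S
    have he' : D' / g = e := by rw [he, Nat.mul_div_cancel_left _ hg]
    rw [he'] at hp1
    have hp3 : p ∣ D' := by rw [he]; exact hp1.mul_left _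
    have hp4 : p ∣ g := by
      rw [← h4]
      exact Nat.dvd_gcd hp3 hp2
    have hp5 : p * p ∣ D' := by
      rw [he]
      exact Nat.mul_dvd_mul hp4 hp1
    exact hp.one_lt.ne' (Nat.isUnit_iff.1 (h3 p hp5))
  have hcop' : (D' / g).Coprime (q / Nat.gcd q (g ^ k)) :=
    hcop.coprime_dvd_right (Nat.div_dvd_of_dvd (Nat.gcd_dvd_left _ _))
  refine le_trans ?_ (count_pow hk hq' hcop' (Y / g))
  refine Finset.card_le_card_of_injOn (fun D => D / g) ?_ ?_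
  · intro D hD
    have hD' : D ∈ S := hD
    obtain ⟨a1, a2, a3, a4⟩ := hS D hD'
    simp only [coe_filter, mem_Icc, Set.mem_ofPred_eq]
    obtain ⟨e, he⟩ := hgS D hD'
    obtain ⟨e', he'⟩ := hgS _ hD'S
    have e1 : D / g = e := by rw [he, Nat.mul_div_cancel_left _ hg]
    have e2 : D' / g = e' := by rw [he', Nat.mul_div_cancel_left _ hg]
    refine ⟨⟨?_, Nat.div_le_div_right a2⟩, ?_⟩
    · rw [e1]
      refine Nat.pos_of_ne_zero ?_
      rintro rfl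
      omega
    · rw [e1, e2]
      have h5 := h D hD'
      rw [he, he', mul_pow, mul_pow] at h5
      exact Nat.ModEq.cancel_left_div_gcd hq h5
  · intro D hD E hE hDE
    have hDE' : D / g = E / g := hDE
    rw [← Nat.div_mul_cancel (hgS D hD), ← Nat.div_mul_cancel (hgS E hE), hDE']

end Pool.Agent.Lib.MP_570bef_ntLV
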