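import Mathlib

/-!
# LV, block B: `k ^ ω(q) ≤ C q ^ ε`, and the packing lemma
-/

set_option autoImplicit false

namespace Pool.Agent.Lib.MP_570bef_ntLV

open Finset MeasureTheory

theorem pow_omega_le (k : ℕ) (hk : 1 ≤ k) {ε : ℝ} (hε : 0 < ε) :
    ∃ C : ℝ, 1 ≤ C ∧ ∀ q : ℕ, 0 < q → (k : ℝ) ^ q.primeFactors.card ≤ C * (q : ℝ) ^ ε := by
  classical
  obtain ⟨K₀, hK₀⟩ : ∃ K₀ : ℕ, (k : ℝ) ^ (1 / ε) ≤ K₀ := ⟨_, Nat.le_ceil _⟩
  have hk1 : (1 : ℝ) ≤ k := by exact_mod_cast hk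
  have hk0 : (0 : ℝ) ≤ k := by positivity
  refine ⟨(k : ℝ) ^ K₀, one_le_pow₀ hk1, fun q hq => ?_⟩
  have h1 : ∀ p : ℕ, K₀ ≤ p → (k : ℝ) ≤ (p : ℝ) ^ ε := by
    intro p hp
    have h2 : (k : ℝ) ^ (1 / ε) ≤ p := hK₀.trans (by exact_mod_cast hp)
    calc (k : ℝ) = ((k : ℝ) ^ (1 / ε)) ^ ε := by
          rw [← Real.rpow_mul hk0, one_div_mul_cancel hε.ne', Real.rpow_one]
      _ ≤ (p : ℝ) ^ ε := Real.rpow_le_rpow (by positivity) h2 hε.le
  have hS : (k : ℝ) ^ q.primeFactors.card = ∏ p ∈ q.primeFactors, (k : ℝ) := by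
    rw [prod_const]
  rw [hS, ← prod_filter_mul_prod_filter_not q.primeFactors (fun p => p < K₀)]
  refine mul_le_mul ?_ ?_ (prod_nonneg fun _ _ => hk0) (by positivity)
  · rw [prod_const]
    refine pow_le_pow_right₀ hk1 ?_
    calc (q.primeFactors.filter fun p => p < K₀).card ≤ (range K₀).card := by
          refine card_le_card fun p hp => ?_
          rw [mem_filter] at hp
          exact mem_range.2 hp.2
      _ = K₀ := card_range _
  · calc ∏ p ∈ q.primeFactors.filter (fun p => ¬ p < K₀), (k : ℝ)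
        ≤ ∏ p ∈ q.primeFactors.filter (fun p => ¬ p < K₀), (p : ℝ) ^ ε := by
          refine prod_le_prod (fun _ _ => hk0) fun p hp => ?_
          rw [mem_filter, not_lt] at hp
          exact h1 p hp.2
      _ ≤ ∏ p ∈ q.primeFactors, (p : ℝ) ^ ε := by
          refine prod_le_prod_of_subset_of_one_le (filter_subset _ _)
            (fun p _ => by positivity) fun p hp _ => ?_
          refine Real.one_le_rpow ?_ hε.le
          exact_mod_cast (Nat.prime_of_mem_primeFactors hp).one_le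
      _ = ((∏ p ∈ q.primeFactors, p : ℕ) : ℝ) ^ ε := by
          push_cast
          rw [← Real.finsetProd_rpow _ _ fun p _ => by positivity]
      _ ≤ (q : ℝ) ^ ε := by
          refine Real.rpow_le_rpow (by positivity) ?_ hε.le
          exact_mod_cast Nat.le_of_dvd hq (Nat.prod_primeFactors_dvd q)

/-- **Packing.** Points of `[0,1]` whose neighbourhoods of radius `ρ` lie in a set of measure `μ`: there is a large cluster. -/
theorem pack {E : Set ℝ} {μ : ℝ} (hμ0 : 0 ≤ μ)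
    (hμ : volume (E ∩ Set.Icc 0 1) ≤ ENNReal.ofReal μ) {ι : Type*} (G : Finset ι) (x : ι → ℝ)
    (hx : ∀ i ∈ G, x i ∈ Set.Icc (0 : ℝ) 1) {ρ : ℝ} (hρ : 0 < ρ) (hρ1 : ρ ≤ 1 / 2)
    (hball : ∀ i ∈ G, ∀ β : ℝ, |β - x i| ≤ ρ → β ∈ Set.Icc (0 : ℝ) 1 → β ∈ E)
    (hG : G.Nonempty) :
    ∃ i₀ ∈ G, ρ * G.card ≤ μ * ((G.filter fun i => |x i - x i₀| ≤ 2 * ρ).card : ℝ) := by
  classical
  -- half intervals
  let a : ι → ℝ := fun i => if x i ≤ 1 / 2 then x i else x i - ρ
  have ha : ∀ i ∈ G, Set.Icc (a i) (a i + ρ) ⊆ E ∩ Set.Icc 0 1 := by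
    intro i hi β hβ
    obtain ⟨h0, h1⟩ := hx i hi
    obtain ⟨h2, h3⟩ := hβ
    have h4 : β ∈ Set.Icc (0 : ℝ) 1 ∧ |β - x i| ≤ ρ := by
      by_cases hc : x i ≤ 1 / 2
      · have e : a i = x i := if_pos hc
        rw [e] at h2 h3
        exact ⟨⟨by linarith, by linarith⟩, by rw [abs_le]; constructor <;> linarith⟩
      · have e : a i = x i - ρ := if_neg hc
        rw [e] at h2 h3
        rw [not_le] at hc
        exact ⟨⟨by linarith, by linarith⟩, by rw [abs_le]; constructor <;> linarith⟩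
    exact ⟨hball i hi β h4.2 h4.1, h4.1⟩
  have hab : ∀ i : ι, ∀ β ∈ Set.Icc (a i) (a i + ρ), |β - x i| ≤ ρ := by
    intro i β hβ
    obtain ⟨h2, h3⟩ := hβ
    by_cases hc : x i ≤ 1 / 2
    · have e : a i = x i := if_pos hc
      rw [e] at h2 h3
      rw [abs_le]; constructor <;> linarith
    · have e : a i = x i - ρ := if_neg hc
      rw [e] at h2 h3
      rw [abs_le]; constructor <;> linarith
  obtain ⟨i₁, hi₁, hmax⟩ := exists_max_image G
    (fun i₀ => (G.filter fun i => |x i - x i₀| ≤ 2 * ρ).card) hG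
  refine ⟨i₁, hi₁, ?_⟩
  obtain ⟨c, hc⟩ : ∃ c : ℝ, c = ((G.filter fun i => |x i - x i₁| ≤ 2 * ρ).card : ℝ) := ⟨_, rfl⟩
  rw [← hc]
  -- the number of intervals containing a point
  have hN : ∀ β : ℝ, ∑ i ∈ G, Set.indicator (Set.Icc (a i) (a i + ρ)) (fun _ => (1 : ℝ)) β ≤ c := by
    intro β
    by_cases hβ : ∃ i₀ ∈ G, β ∈ Set.Icc (a i₀) (a i₀ + ρ)
    · obtain ⟨i₀, hi₀, hβ₀⟩ := hβ
      have h0 : ((G.filter fun i => |x i - x i₀| ≤ 2 * ρ).card : ℝ) ≤ c := by
        rw [hc]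
        exact_mod_cast hmax i₀ hi₀
      refine le_trans ?_ h0
      rw [card_filter]
      push_cast
      refine sum_le_sum fun i _ => ?_
      by_cases hi : β ∈ Set.Icc (a i) (a i + ρ)
      · rw [Set.indicator_of_mem hi, if_pos]
        have h1 := hab i β hi
        have h2 := hab i₀ β hβ₀
        rw [abs_le] at h1 h2 ⊢
        constructor <;> linarith
      · rw [Set.indicator_of_notMem hi]
        split_ifs <;> norm_num
    · push Not at hβ
      rw [sum_eq_zero fun i hi => Set.indicator_of_notMem (hβ i hi) _, hc]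
      positivity
  have hfin : volume (E ∩ Set.Icc 0 1) < ⊤ := lt_of_le_of_lt hμ ENNReal.ofReal_lt_top
  have hI : ∀ i ∈ G, Integrable (Set.indicator (Set.Icc (a i) (a i + ρ)) (fun _ => (1 : ℝ)))
      (volume.restrict (E ∩ Set.Icc 0 1)) := by
    intro i _
    refine Integrable.indicator ?_ measurableSet_Icc
    exact integrableOn_const hfin.ne
  have hint : ∫ β in E ∩ Set.Icc 0 1, ∑ i ∈ G,
      Set.indicator (Set.Icc (a i) (a i + ρ)) (fun _ => (1 : ℝ)) β = ρ * G.card := by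
    rw [integral_finsetSum _ hI]
    have h1 : ∀ i ∈ G, ∫ β in E ∩ Set.Icc 0 1,
        Set.indicator (Set.Icc (a i) (a i + ρ)) (fun _ => (1 : ℝ)) β = ρ := by
      intro i hi
      rw [setIntegral_indicator measurableSet_Icc, Set.inter_eq_self_of_subset_right (ha i hi)]
      simp [hρ.le]
    rw [sum_congr rfl h1, sum_const, nsmul_eq_mul, mul_comm]
  have hmeas : (volume (E ∩ Set.Icc 0 1)).toReal ≤ μ := by
    rw [← ENNReal.toReal_ofReal hμ0]
    exact ENNReal.toReal_mono ENNReal.ofReal_ne_top hμ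
  have hc0 : 0 ≤ c := by rw [hc]; positivity
  rw [← hint]
  calc ∫ β in E ∩ Set.Icc 0 1, ∑ i ∈ G,
        Set.indicator (Set.Icc (a i) (a i + ρ)) (fun _ => (1 : ℝ)) β
      ≤ ∫ _ in E ∩ Set.Icc 0 1, c := by
        refine integral_mono (integrable_finsetSum _ hI) ?_ hN
        exact integrableOn_const hfin.ne
    _ = (volume (E ∩ Set.Icc 0 1)).toReal * c := by
        rw [integral_const, smul_eq_mul, measureReal_restrict_apply_univ]
        rfl
    _ ≤ μ * c := mul_le_mul_of_nonneg_right hmeas hc0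

end Pool.Agent.Lib.MP_570bef_ntLV
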