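import Pool.Agent.Lib.MP_570bef_ntLV.FCover
import Pool.Agent.Lib.MP_570bef_ntLV.BDir
import Pool.Agent.Lib.MP_570bef_ntLV.BEp

/-!
# LV, block B: the finite form of the pointwise bound
-/

set_option autoImplicit false

namespace Pool.Agent.Lib.MP_570bef_ntLV

open Finset MeasureTheory
open scoped Pointwise

variable {PP : ℕ → Finset ℕ} {P : ℕ}

theorem norm_ee_sub_le (x y : ℝ) : ‖ee x - ee y‖ ≤ 2 * Real.pi * |x - y| := by
  have h1 : ee x - ee y = ee y * (ee (x - y) - 1) := by
    rw [mul_sub, ← ee_add, mul_one]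
    congr 2
    ring
  rw [h1, norm_mul, norm_ee, one_mul]
  have h2 : ee (x - y) = Complex.exp (Complex.I * ((2 * Real.pi * (x - y) : ℝ) : ℂ)) := by
    rw [ee]
    congr 1
    push_cast
    ring
  rw [h2]
  refine (Real.norm_exp_I_mul_ofReal_sub_one_le).trans ?_
  rw [Real.norm_eq_abs, abs_mul, abs_of_pos (by positivity : (0 : ℝ) < 2 * Real.pi)]

theorem fs_lip (k : ℕ) (S : Finset ℕ) {Y : ℕ} (hS : ∀ y ∈ S, y ≤ Y) (α β : ℝ) :
    ‖fs k S α - fs k S β‖ ≤ 2 * Real.pi * (Y : ℝ) ^ k * S.card * |α - β| := by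
  rw [fs, fs, ← sum_sub_distrib]
  calc ‖∑ x ∈ S, (ee (α * (x : ℝ) ^ k) - ee (β * (x : ℝ) ^ k))‖
      ≤ ∑ x ∈ S, ‖ee (α * (x : ℝ) ^ k) - ee (β * (x : ℝ) ^ k)‖ := norm_sum_le _ _
    _ ≤ ∑ x ∈ S, 2 * Real.pi * (Y : ℝ) ^ k * |α - β| := by
        refine sum_le_sum fun x hx => ?_
        refine (norm_ee_sub_le _ _).trans ?_
        have h1 : α * (x : ℝ) ^ k - β * (x : ℝ) ^ k = (α - β) * (x : ℝ) ^ k := by ring
        rw [h1, abs_mul, abs_of_nonneg (by positivity : (0 : ℝ) ≤ (x : ℝ) ^ k)]
        have h2 : (x : ℝ) ^ k ≤ (Y : ℝ) ^ k := by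
          have := hS x hx
          gcongr
        have h3 : |α - β| * (x : ℝ) ^ k ≤ |α - β| * (Y : ℝ) ^ k :=
          mul_le_mul_of_nonneg_left h2 (abs_nonneg _)
        have h4 : (0 : ℝ) < 2 * Real.pi := by positivity
        nlinarith
    _ = 2 * Real.pi * (Y : ℝ) ^ k * S.card * |α - β| := by
        rw [sum_const, nsmul_eq_mul]
        ring

theorem fs_add_int (k : ℕ) (S : Finset ℕ) (α : ℝ) (n : ℤ) : fs k S (α + n) = fs k S α := by
  unfold fs
  refine sum_congr rfl fun x _ => ?_
  rw [add_mul, ee_add, show (n : ℝ) * (x : ℝ) ^ k = ((n * x ^ k : ℤ) : ℝ) by push_cast; ring,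
    ee_int, mul_one]

theorem fs_fract (k : ℕ) (S : Finset ℕ) (α : ℝ) : fs k S (Int.fract α) = fs k S α := by
  have h := fs_add_int k S (Int.fract α) ⌊α⌋
  rw [Int.fract_add_floor] at h
  exact h.symm

theorem PS_squarefree (hB : Blk PP P) (J : Finset ℕ) : ∀ x ∈ PS PP J, Squarefree x := by
  classical
  induction J using Finset.induction_on with
  | empty =>
    intro x hx
    rw [PS_empty, mem_singleton] at hx
    rw [hx]
    exact squarefree_one
  | insert i J hi ih =>
    intro x hx
    rw [PS_insert hi, mem_mul] at hx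
    obtain ⟨a, ha, b, hb, rfl⟩ := hx
    have hd : Disjoint ({i} : Finset ℕ) J := by simpa using hi
    have hc : a.Coprime b := PS_coprime hB hd (by rwa [PS_singleton]) hb
    rw [Nat.squarefree_mul hc]
    exact ⟨(hB.prime i a ha).squarefree, ih b hb⟩

/-- the number of the primes greater than `P` which divide `q` -/
theorem card_big_primes {q t : ℕ} (hP : 2 ≤ P) (hq : 0 < q) (hqt : q < P ^ (t + 1)) :
    (q.primeFactors.filter fun p => P < p).card ≤ t := by
  by_contra hcon
  rw [not_le] at hcon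
  have h1 : P ^ (q.primeFactors.filter fun p => P < p).card ≤ q := by
    calc P ^ (q.primeFactors.filter fun p => P < p).card
        = ∏ _p ∈ q.primeFactors.filter fun p => P < p, P := by rw [prod_const]
      _ ≤ ∏ p ∈ q.primeFactors.filter fun p => P < p, p :=
          prod_le_prod' fun p hp => ((mem_filter.1 hp).2).le
      _ ≤ ∏ p ∈ q.primeFactors, p := by
          refine prod_le_prod_of_subset_of_one_le' (filter_subset _ _) fun p hp _ => ?_
          exact (Nat.prime_of_mem_primeFactors hp).one_le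
      _ ≤ q := Nat.le_of_dvd hq (Nat.prod_primeFactors_dvd q)
  have h2 : P ^ (t + 1) ≤ P ^ (q.primeFactors.filter fun p => P < p).card :=
    Nat.pow_le_pow_right (by omega) hcon
  omega

/-- the number of the greatest common divisors -/
theorem card_gcds (hB : Blk PP P) (hP : 2 ≤ P) (J : Finset ℕ) {q t : ℕ} (hq : 0 < q)
    (hqt : q < P ^ (t + 1)) : ((PS PP J).image fun D => Nat.gcd D q).card ≤ 2 ^ t := by
  classical
  have h1 : ((PS PP J).image fun D => Nat.gcd D q).card ≤
      (q.primeFactors.filter fun p => P < p).powerset.card := by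
    refine card_le_card_of_injOn (fun g => g.primeFactors) ?_ ?_
    · intro g hg
      rw [mem_coe, mem_image] at hg
      obtain ⟨D, hD, rfl⟩ := hg
      rw [mem_coe, mem_powerset]
      intro p hp
      have hpp := Nat.prime_of_mem_primeFactors hp
      have hpd := Nat.dvd_of_mem_primeFactors hp
      obtain ⟨i, -, hi⟩ := (PS_prime_dvd hB J D hD).2 p hpp (hpd.trans (Nat.gcd_dvd_left _ _))
      rw [mem_filter, Nat.mem_primeFactors]
      exact ⟨⟨hpp, hpd.trans (Nat.gcd_dvd_right _ _), hq.ne'⟩, hB.low i p hi⟩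
    · intro g hg g' hg' h
      rw [mem_coe, mem_image] at hg hg'
      obtain ⟨D, hD, rfl⟩ := hg
      obtain ⟨D', hD', rfl⟩ := hg'
      have s1 : Squarefree (Nat.gcd D q) :=
        (PS_squarefree hB J D hD).squarefree_of_dvd (Nat.gcd_dvd_left _ _)
      have s2 : Squarefree (Nat.gcd D' q) :=
        (PS_squarefree hB J D' hD').squarefree_of_dvd (Nat.gcd_dvd_left _ _)
      have h' : (Nat.gcd D q).primeFactors = (Nat.gcd D' q).primeFactors := h
      rw [← Nat.prod_primeFactors_of_squarefree s1, ← Nat.prod_primeFactors_of_squarefree s2, h']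
  refine h1.trans ?_
  rw [card_powerset]
  exact Nat.pow_le_pow_right (by norm_num) (card_big_primes hP hq hqt)

end Pool.Agent.Lib.MP_570bef_ntLV
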