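import Pool.Agent.Lib.MP_570bef_ntLV.BFin
import Pool.Agent.Lib.MP_570bef_ntLV.FCov

/-!
# LV, block B: the finite form of the pointwise bound (main inequality)
-/

set_option autoImplicit false

namespace Pool.Agent.Lib.MP_570bef_ntLV

open Finset MeasureTheory
open scoped Pointwise

variable {PP : ℕ → Finset ℕ} {P : ℕ}

theorem vol_le_of_lev {k : ℕ} {S : Finset ℕ} {L μ : ℝ} (hμ0 : 0 ≤ μ) (h : lev k S L ≤ μ) :
    volume (lset k S L ∩ Set.Icc 0 1) ≤ ENNReal.ofReal μ := by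
  rw [Set.inter_comm]
  have hfin : volume (Set.Icc (0 : ℝ) 1 ∩ lset k S L) ≠ ⊤ := by
    refine ne_top_of_le_ne_top ?_ (measure_mono Set.inter_subset_left)
    simp
  rw [ENNReal.le_ofReal_iff_toReal_le hfin hμ0]
  exact h

/-- the multiples of `g` in a set of numbers at most `Y` -/
theorem card_multiples (S : Finset ℕ) {Y g : ℕ} (hg : 0 < g)
    (h : ∀ D ∈ S, 1 ≤ D ∧ D ≤ Y ∧ g ∣ D) : S.card ≤ Y / g := by
  have h1 : S.card ≤ (Icc 1 (Y / g)).card := by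
    refine card_le_card_of_injOn (fun D => D / g) ?_ ?_
    · intro D hD
      obtain ⟨a1, a2, e, he⟩ := h D hD
      have e1 : D / g = e := by rw [he, Nat.mul_div_cancel_left _ hg]
      rw [mem_coe, mem_Icc]
      refine ⟨?_, Nat.div_le_div_right a2⟩
      change 1 ≤ D / g
      rw [e1]
      refine Nat.pos_of_ne_zero ?_
      rintro rfl
      omega
    · intro D hD E hE hDE
      have hDE' : D / g = E / g := hDE
      rw [← Nat.div_mul_cancel (h D hD).2.2, ← Nat.div_mul_cancel (h E hE).2.2, hDE']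
  rw [Nat.card_Icc, Nat.add_sub_cancel] at h1
  exact h1

/-- **The finite form of the pointwise bound.** -/
theorem B_fin (hB : Blk PP P) (hP : 2 ≤ P) {k m : ℕ} (hk : 1 ≤ k) {J R : Finset ℕ}
    (hJR : Disjoint J R) (hJ : J.card = m) (hR : R.card = m) (hJne : (PS PP J).Nonempty)
    (hRne : (PS PP R).Nonempty) {L : ℝ} (hL : 1 ≤ L) {μ : ℝ} (hμ0 : 0 ≤ μ)
    (hμ : lev k (PS PP R) (4 * L) ≤ μ) {t : ℕ} (ht : 2 * ((2 * P) ^ m) ^ k < P ^ (t + 1)) {α : ℝ}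
    (hα : ((PS PP (J ∪ R)).card : ℝ) / L ≤ ‖fs k (PS PP (J ∪ R)) α‖) :
    ∃ (n : ℤ) (q g : ℕ) (T : ℝ), 0 < q ∧ 0 < g ∧ IsCoprime n (q : ℤ) ∧
      q ≤ 2 * ((2 * P) ^ m) ^ k ∧ T * (2 * L * 2 ^ t) = (PS PP J).card ∧
      T ≤ (((2 * P) ^ m / g : ℕ) : ℝ) ∧
      1 / (8 * Real.pi * L * (((2 * P) ^ m : ℕ) : ℝ) ^ k) * T ≤
        μ * ((((2 * P) ^ m / g / (q / Nat.gcd q (g ^ k)) + 1) *
          nT k (q / Nat.gcd q (g ^ k)) : ℕ) : ℝ) ∧
      (α ≠ n / q → 1 / (8 * Real.pi * L * (((2 * P) ^ m : ℕ) : ℝ) ^ k) * T ≤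
        μ * (2 * ((1 / (4 * Real.pi * L * (((2 * P) ^ m : ℕ) : ℝ) ^ k)) /
          (|α - n / q| * ((P ^ m : ℕ) : ℝ) ^ (k - 1))) + 1)) := by
  classical
  obtain ⟨Y, hY⟩ : ∃ Y : ℕ, Y = (2 * P) ^ m := ⟨_, rfl⟩
  rw [← hY] at ht ⊢
  have hY1 : 1 ≤ Y := by rw [hY]; exact Nat.one_le_pow _ _ (by omega)
  have hYr : (1 : ℝ) ≤ (Y : ℝ) := by exact_mod_cast hY1
  have hYk : (1 : ℝ) ≤ (Y : ℝ) ^ k := one_le_pow₀ hYr
  have hL0 : (0 : ℝ) < L := by linarith
  have hpi := Real.pi_gt_three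
  obtain ⟨S, hS⟩ : ∃ S : ℝ, S = ((PS PP R).card : ℝ) := ⟨_, rfl⟩
  have hS0 : 0 < S := by rw [hS]; exact_mod_cast card_pos.2 hRne
  obtain ⟨A, hA⟩ : ∃ A : ℝ, A = ((PS PP J).card : ℝ) := ⟨_, rfl⟩
  have hA0 : 0 < A := by rw [hA]; exact_mod_cast card_pos.2 hJne
  have hJle : ∀ D ∈ PS PP J, D ≤ Y := fun D hD => by
    rw [hY, ← hJ]
    exact PS_le hB J D hD
  have hJpos : ∀ D ∈ PS PP J, 1 ≤ D := fun D hD => (PS_prime_dvd hB J D hD).1
  have hRle : ∀ y ∈ PS PP R, y ≤ Y := fun y hy => by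
    rw [hY, ← hR]
    exact PS_le hB R y hy
  -- the large values
  obtain ⟨G, hG⟩ : ∃ G : Finset ℕ, G = (PS PP J).filter
    fun D : ℕ => S / (2 * L) ≤ ‖fs k (PS PP R) ((D : ℝ) ^ k * α)‖ := ⟨_, rfl⟩
  have hsum : A * S / L ≤ ∑ D ∈ PS PP J, ‖fs k (PS PP R) ((D : ℝ) ^ k * α)‖ := by
    have h1 : ((PS PP (J ∪ R)).card : ℝ) = A * S := by
      rw [hA, hS, ← Nat.cast_mul, PS_card hB hJR]
    rw [← h1]
    refine hα.trans ?_
    rw [fs_PS_union hB k hJR]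
    exact norm_sum_le _ _
  have hGcard : A / (2 * L) ≤ G.card := by
    have h1 : ∑ D ∈ PS PP J, ‖fs k (PS PP R) ((D : ℝ) ^ k * α)‖ ≤
        G.card * S + A * (S / (2 * L)) := by
      rw [← sum_filter_add_sum_filter_not (PS PP J)
        (fun D : ℕ => S / (2 * L) ≤ ‖fs k (PS PP R) ((D : ℝ) ^ k * α)‖), ← hG]
      refine add_le_add ?_ ?_
      · calc ∑ D ∈ G, ‖fs k (PS PP R) ((D : ℝ) ^ k * α)‖ ≤ ∑ _D ∈ G, S :=
              sum_le_sum fun D _ => by rw [hS]; exact norm_fs_le _ _ _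
          _ = G.card * S := by rw [sum_const, nsmul_eq_mul]
      · calc ∑ D ∈ (PS PP J).filter
              (fun D : ℕ => ¬ S / (2 * L) ≤ ‖fs k (PS PP R) ((D : ℝ) ^ k * α)‖),
              ‖fs k (PS PP R) ((D : ℝ) ^ k * α)‖
            ≤ ∑ D ∈ (PS PP J).filter
              (fun D : ℕ => ¬ S / (2 * L) ≤ ‖fs k (PS PP R) ((D : ℝ) ^ k * α)‖), S / (2 * L) :=
              sum_le_sum fun D hD => (not_le.1 (mem_filter.1 hD).2).le
          _ ≤ ∑ _D ∈ PS PP J, S / (2 * L) :=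
              sum_le_sum_of_subset_of_nonneg (filter_subset _ _) fun _ _ _ => by positivity
          _ = A * (S / (2 * L)) := by rw [sum_const, nsmul_eq_mul, hA]
    have h2 := hsum.trans h1
    have e1 : A * S / L = 2 * (A * (S / (2 * L))) := by field_simp
    rw [e1] at h2
    have h3 : A * (S / (2 * L)) ≤ G.card * S := by linarith
    have e2 : A * (S / (2 * L)) = A / (2 * L) * S := by ring
    rw [e2] at h3
    exact le_of_mul_le_mul_right h3 hS0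
  obtain ⟨n, q, hq, hqQ, hcop, hβ⟩ := dirichlet α (Q := 2 * Y ^ k) (by positivity)
  have hqt : q < P ^ (t + 1) := lt_of_le_of_lt hqQ ht
  have hGJ : G ⊆ PS PP J := by rw [hG]; exact filter_subset _ _
  have hGne : G.Nonempty := by
    rw [← card_pos]
    have h1 : (0 : ℝ) < G.card := lt_of_lt_of_le (by positivity) hGcard
    exact_mod_cast h1
  obtain ⟨T, hT⟩ : ∃ T : ℝ, T = A / (2 * L) / 2 ^ t := ⟨_, rfl⟩
  have hT0 : 0 < T := by rw [hT]; positivity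
  obtain ⟨g, hg1, hg2⟩ : ∃ g ∈ G.image (fun D => Nat.gcd D q),
      T ≤ ((G.filter fun D => Nat.gcd D q = g).card : ℝ) := by
    refine exists_le_of_sum_le (hGne.image _) ?_
    rw [sum_const, nsmul_eq_mul]
    have h1 : ((G.image fun D => Nat.gcd D q).card : ℝ) ≤ 2 ^ t := by
      have h2 : (G.image fun D => Nat.gcd D q).card ≤ 2 ^ t :=
        (card_le_card (image_subset_image hGJ)).trans (card_gcds hB hP J hq hqt)
      exact_mod_cast h2
    have h3 : (G.card : ℝ) = ∑ g ∈ G.image (fun D => Nat.gcd D q),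
        ((G.filter fun D => Nat.gcd D q = g).card : ℝ) := by
      rw [← Nat.cast_sum]
      congr 1
      exact card_eq_sum_card_fiberwise fun D hD => mem_image_of_mem _ hD
    rw [← h3]
    calc ((G.image fun D => Nat.gcd D q).card : ℝ) * T ≤ 2 ^ t * T :=
          mul_le_mul_of_nonneg_right h1 hT0.le
      _ = A / (2 * L) := by rw [hT]; field_simp
      _ ≤ G.card := hGcard
  obtain ⟨Gg, hGg⟩ : ∃ Gg : Finset ℕ, Gg = G.filter fun D => Nat.gcd D q = g := ⟨_, rfl⟩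
  rw [← hGg] at hg2
  have hgpos : 0 < g := by
    obtain ⟨D, -, hD⟩ := mem_image.1 hg1
    rw [← hD]
    exact Nat.gcd_pos_of_pos_right _ hq
  have hGgG : ∀ D ∈ Gg, D ∈ PS PP J ∧ Nat.gcd D q = g ∧
      S / (2 * L) ≤ ‖fs k (PS PP R) ((D : ℝ) ^ k * α)‖ := by
    intro D hD
    rw [hGg, mem_filter, hG, mem_filter] at hD
    exact ⟨hD.1.1, hD.2, hD.1.2⟩
  have hGgne : Gg.Nonempty := by
    rw [← card_pos]
    have h1 : (0 : ℝ) < Gg.card := lt_of_lt_of_le hT0 hg2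
    exact_mod_cast h1
  obtain ⟨ρ, hρ⟩ : ∃ ρ : ℝ, ρ = 1 / (8 * Real.pi * L * (Y : ℝ) ^ k) := ⟨_, rfl⟩
  have hden : (24 : ℝ) ≤ 8 * Real.pi * L * (Y : ℝ) ^ k := by
    have h1 : (24 : ℝ) ≤ 8 * Real.pi := by linarith
    have h2 : (1 : ℝ) ≤ L * (Y : ℝ) ^ k := by nlinarith
    nlinarith
  have hρ0 : 0 < ρ := by rw [hρ]; positivity
  have hρ1 : ρ ≤ 1 / 2 := by
    rw [hρ]
    exact one_div_le_one_div_of_le (by norm_num) (by linarith)
  obtain ⟨D', hD', hpack⟩ := pack (E := lset k (PS PP R) (4 * L)) hμ0 (vol_le_of_lev hμ0 hμ) Gg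
    (fun D : ℕ => Int.fract ((D : ℝ) ^ k * α))
    (fun D _ => ⟨Int.fract_nonneg _, (Int.fract_lt_one _).le⟩) hρ0 hρ1 (fun D hD β hβ' _ => by
      change ((PS PP R).card : ℝ) / (4 * L) ≤ ‖fs k (PS PP R) β‖
      have h1 := fs_lip k (PS PP R) hRle (Int.fract ((D : ℝ) ^ k * α)) β
      rw [fs_fract] at h1
      have h2 := (hGgG D hD).2.2
      rw [← hS] at h1 ⊢
      have h3 : 2 * Real.pi * (Y : ℝ) ^ k * S * |Int.fract ((D : ℝ) ^ k * α) - β| ≤
          2 * Real.pi * (Y : ℝ) ^ k * S * ρ := by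
        refine mul_le_mul_of_nonneg_left ?_ (by positivity)
        rw [abs_sub_comm]
        exact hβ'
      have h4 : 2 * Real.pi * (Y : ℝ) ^ k * S * ρ = S / (4 * L) := by
        rw [hρ]
        field_simp
        norm_num
      have h5 : S / (2 * L) = 2 * (S / (4 * L)) := by field_simp; norm_num
      have h6 : ‖fs k (PS PP R) ((D : ℝ) ^ k * α)‖ ≤
          ‖fs k (PS PP R) β‖ + ‖fs k (PS PP R) ((D : ℝ) ^ k * α) - fs k (PS PP R) β‖ := by
        have := norm_add_le (fs k (PS PP R) β)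
          (fs k (PS PP R) ((D : ℝ) ^ k * α) - fs k (PS PP R) β)
        rwa [add_sub_cancel] at this
      linarith) hGgne
  obtain ⟨C, hC⟩ : ∃ C : Finset ℕ, C = Gg.filter fun D : ℕ =>
    |Int.fract ((D : ℝ) ^ k * α) - Int.fract ((D' : ℝ) ^ k * α)| ≤ 2 * ρ := ⟨_, rfl⟩
  rw [← hC] at hpack
  have hδ : 2 * ρ < 1 / (4 * (Y : ℝ) ^ k) := by
    rw [hρ, mul_one_div, div_lt_div_iff₀ (by positivity) (by positivity)]
    have h1 : (1 : ℝ) < Real.pi * L := by nlinarith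
    have h2 : (0 : ℝ) < (Y : ℝ) ^ k := by positivity
    nlinarith
  have hCG : ∀ D ∈ C, D ∈ Gg := fun D hD => by
    rw [hC, mem_filter] at hD
    exact hD.1
  have hclose : ∀ D ∈ C, ((q : ℤ) ∣ (D : ℤ) ^ k - (D' : ℤ) ^ k) ∧
      |(D : ℝ) ^ k - (D' : ℝ) ^ k| * |α - n / q| ≤ 2 * ρ := by
    intro D hD
    refine div_of_close hY1 hq hqQ hcop ?_ (hJle D (hGgG D (hCG D hD)).1)
      (hJle D' (hGgG D' hD').1) (z := ⌊(D : ℝ) ^ k * α⌋ - ⌊(D' : ℝ) ^ k * α⌋) ?_ hδ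
    · push_cast at hβ ⊢
      exact hβ
    · rw [hC, mem_filter] at hD
      have e : ((D : ℝ) ^ k - (D' : ℝ) ^ k) * α -
          ((⌊(D : ℝ) ^ k * α⌋ - ⌊(D' : ℝ) ^ k * α⌋ : ℤ) : ℝ) =
          Int.fract ((D : ℝ) ^ k * α) - Int.fract ((D' : ℝ) ^ k * α) := by
        rw [Int.fract, Int.fract]
        push_cast
        ring
      rw [e]
      exact hD.2
  have hD'C : D' ∈ C := by
    rw [hC, mem_filter]
    refine ⟨hD', ?_⟩
    rw [sub_self, abs_zero]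
    linarith
  have hTC : ρ * T ≤ μ * (C.card : ℝ) :=
    (mul_le_mul_of_nonneg_left hg2 hρ0.le).trans hpack
  refine ⟨n, q, g, T, hq, hgpos, hcop, hqQ, ?_, ?_, ?_, ?_⟩
  · rw [hT, ← hA]
    field_simp
  · refine hg2.trans ?_
    have h1 : Gg.card ≤ Y / g := card_multiples Gg hgpos fun D hD =>
      ⟨hJpos D (hGgG D hD).1, hJle D (hGgG D hD).1, by
        rw [← (hGgG D hD).2.1]
        exact Nat.gcd_dvd_left _ _⟩
    exact_mod_cast h1
  · rw [← hρ]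
    refine hTC.trans (mul_le_mul_of_nonneg_left ?_ hμ0)
    have h1 := cluster_q hk (Y := Y) (g := g) hq C hD'C (fun D hD =>
      ⟨hJpos D (hGgG D (hCG D hD)).1, hJle D (hGgG D (hCG D hD)).1,
        PS_squarefree hB J D (hGgG D (hCG D hD)).1, (hGgG D (hCG D hD)).2.1⟩) (fun D hD => by
        have h2 := (hclose D hD).1
        rw [Nat.modEq_iff_dvd]
        push_cast
        have h3 : (D' : ℤ) ^ k - (D : ℤ) ^ k = -((D : ℤ) ^ k - (D' : ℤ) ^ k) := by ring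
        rw [h3, dvd_neg]
        exact h2)
    exact_mod_cast h1
  · intro hne
    rw [← hρ]
    refine hTC.trans (mul_le_mul_of_nonneg_left ?_ hμ0)
    have hβ0 : 0 < |α - n / q| := abs_pos.2 (sub_ne_zero.2 hne)
    have hlow : ∀ D ∈ PS PP J, P ^ m ≤ D := fun D hD => by
      rw [← hJ]
      exact le_PS hB J D hD
    have h1 := cluster_beta hk (Y₁ := P ^ m) (Nat.one_le_pow _ _ (by omega)) C
      (hlow D' (hGgG D' hD').1) (fun D hD => hlow D (hGgG D (hCG D hD)).1) hβ0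
      (δ := 2 * ρ) (by positivity) (fun D hD => (hclose D hD).2)
    have e : 2 * ρ = 1 / (4 * Real.pi * L * (Y : ℝ) ^ k) := by
      rw [hρ]
      field_simp
      norm_num
    rw [e] at h1
    exact h1

end Pool.Agent.Lib.MP_570bef_ntLV
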