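import Pool.Agent.Lib.MP_570bef_ntLV.BAlg

/-!
# LV, block B: the pointwise bound from the level set bound
-/

set_option autoImplicit false

namespace Pool.Agent.Lib.MP_570bef_ntLV

open Finset MeasureTheory
open scoped Pointwise

/-- **The pointwise bound, for given `P` and `u`.** -/
theorem pt_core {k m : ℕ} (hk : 3 ≤ k) (hm : 1 ≤ m) {C₂ : ℝ} (hC₂ : 1 ≤ C₂)
    (hom : ∀ q : ℕ, 0 < q → (k : ℝ) ^ q.primeFactors.card ≤ C₂ * (q : ℝ) ^ (1 / (1000 * k : ℝ)))
    {P : ℕ} {PP : ℕ → Finset ℕ} (hB : Blk PP P) {u : ℝ}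
    (hP : 2 ^ (m * k + 1) ≤ P) (hu : u ^ (1000 * k) = (P : ℝ) ^ m) (hu1 : 1 ≤ u)
    (hK1 : 2 * (16 * Real.pi * 2 ^ (m * k + 1) * 2 ^ (m * k) * 4 ^ (75 * k) *
      (2 * C₂ * 2 ^ (m * k + 1))) * 2 ^ m ≤ u)
    (hK2 : 2 ^ (m + 1 + (m * k + 1)) ≤ u) (hK3 : 2 ^ (2 * m * k) ≤ u)
    (hcard : u ^ (1000 * k - 1) ≤ ((PS PP (Ico m (2 * m))).card : ℝ))
    (hRne : (PS PP (range m)).Nonempty)
    (hlev : (P : ℝ) ^ (k * m) * lev k (PS PP (range m)) (4 * u ^ 4) ≤
      4 ^ (75 * k) * u ^ (305 * k)) {α : ℝ}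
    (hα : ((PS PP (range (2 * m))).card : ℝ) / u ^ 4 ≤ ‖fs k (PS PP (range (2 * m))) α‖) :
    ∃ (q : ℕ) (a : ℤ), 1 ≤ q ∧ (q : ℝ) ^ 6 ≤ (((2 * P) ^ (2 * m) : ℕ) : ℝ) ∧
      (|α - a / q| * (((2 * P) ^ (2 * m) : ℕ) : ℝ) ^ k) ^ 6 ≤ (((2 * P) ^ (2 * m) : ℕ) : ℝ) := by
  classical
  have hP2 : 2 ≤ P := by
    refine le_trans ?_ hP
    calc 2 = 2 ^ 1 := rfl
      _ ≤ 2 ^ (m * k + 1) := Nat.pow_le_pow_right (by norm_num) (by omega)
  have hpr : (2 : ℝ) ≤ (P : ℝ) := by exact_mod_cast hP2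
  have hu0 : 0 < u := by linarith
  have hpi := Real.pi_gt_three
  obtain ⟨t, ht⟩ : ∃ t : ℕ, t = m * k + 1 := ⟨_, rfl⟩
  rw [← ht] at hK1 hK2
  have hUnion : Ico m (2 * m) ∪ range m = range (2 * m) := by
    ext x
    simp only [mem_union, mem_Ico, mem_range]
    omega
  have hdisj : Disjoint (Ico m (2 * m)) (range m) := by
    rw [disjoint_left]
    intro x hx hx'
    rw [mem_Ico] at hx
    rw [mem_range] at hx'
    omega
  have hJc : (Ico m (2 * m)).card = m := by rw [Nat.card_Ico]; omega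
  have hJne : (PS PP (Ico m (2 * m))).Nonempty := by
    rw [← card_pos]
    have h1 : (0 : ℝ) < ((PS PP (Ico m (2 * m))).card : ℝ) := lt_of_lt_of_le (by positivity) hcard
    exact_mod_cast h1
  have hpk : (P : ℝ) ^ (k * m) = u ^ (1000 * k * k) := by
    rw [mul_comm k m, pow_mul, ← hu, ← pow_mul]
  obtain ⟨μ, hμ⟩ : ∃ μ : ℝ, μ = 4 ^ (75 * k) * u ^ (305 * k) / u ^ (1000 * k * k) := ⟨_, rfl⟩
  have hμ0 : 0 ≤ μ := by rw [hμ]; positivity
  have hμ1 : lev k (PS PP (range m)) (4 * u ^ 4) ≤ μ := by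
    rw [hμ, le_div_iff₀ (by positivity), mul_comm, ← hpk]
    exact hlev
  have htP : 2 * ((2 * P) ^ m) ^ k < P ^ (t + 1) := by
    have e : 2 * ((2 * P) ^ m) ^ k = 2 ^ (m * k + 1) * P ^ (m * k) := by
      rw [← pow_mul, mul_pow, pow_succ]
      ring
    rw [e, ht, pow_succ P (m * k + 1), pow_succ P (m * k)]
    have h1 : 0 < P ^ (m * k) := by positivity
    calc 2 ^ (m * k + 1) * P ^ (m * k) ≤ P * P ^ (m * k) := Nat.mul_le_mul_right _ hP
      _ = P ^ (m * k) * P := by ring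
      _ < P ^ (m * k) * P * P := by
          have : 0 < P ^ (m * k) * P := by positivity
          nlinarith
  obtain ⟨n, q, g, T, hq, hg, hcop, hqQ, hT, h1, h2, h3⟩ := B_fin hB hP2 (k := k) (m := m)
    (by omega) hdisj hJc (card_range m) hJne hRne (L := u ^ 4) (one_le_pow₀ hu1) hμ0 hμ1 htP
    (α := α) (by rw [hUnion]; exact hα)
  obtain ⟨Y, hY⟩ : ∃ Y : ℕ, Y = (2 * P) ^ m := ⟨_, rfl⟩
  rw [← hY] at h1 h2 h3 hqQ
  have hYr : (Y : ℝ) = 2 ^ m * u ^ (1000 * k) := by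
    rw [hY, hu]
    push_cast
    rw [mul_pow]
  have hYk : (Y : ℝ) ^ k = 2 ^ (m * k) * u ^ (1000 * k * k) := by
    rw [hYr, mul_pow, ← pow_mul, ← pow_mul]
  have hA : u ^ (1000 * k - 1) ≤ T * (2 * u ^ 4 * 2 ^ t) := by rw [hT]; exact hcard
  have hT0 : 0 < T := by
    have h5 : 0 < T * (2 * u ^ 4 * 2 ^ t) := lt_of_lt_of_le (by positivity) hA
    exact pos_of_mul_pos_left h5 (by positivity)
  have hQbig : u ^ (2000 * k) ≤ (((2 * P) ^ (2 * m) : ℕ) : ℝ) := by
    have e : u ^ (2000 * k) = (P : ℝ) ^ (2 * m) := by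
      have e1 : 2000 * k = 1000 * k * 2 := by ring
      rw [e1, pow_mul, hu, ← pow_mul, mul_comm m 2]
    rw [e]
    push_cast
    exact pow_le_pow_left₀ (by positivity) (by linarith) _
  -- the common left side
  have hLHS : u ^ (1000 * k - 9) ≤ 16 * Real.pi * 2 ^ t * 2 ^ (m * k) * u ^ (1000 * k * k) *
      (1 / (8 * Real.pi * u ^ 4 * (Y : ℝ) ^ k) * T) := by
    rw [hYk]
    have e1 : 16 * Real.pi * 2 ^ t * 2 ^ (m * k) * u ^ (1000 * k * k) *
        (1 / (8 * Real.pi * u ^ 4 * (2 ^ (m * k) * u ^ (1000 * k * k))) * T) =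
        (T * (2 * u ^ 4 * 2 ^ t)) / u ^ 8 := by
      field_simp
      ring
    rw [e1, le_div_iff₀ (by positivity), ← pow_add]
    have e2 : 1000 * k - 9 + 8 = 1000 * k - 1 := by omega
    rw [e2]
    exact hA
  have hkey : ∀ z : ℝ, 1 / (8 * Real.pi * u ^ 4 * (Y : ℝ) ^ k) * T ≤ μ * z →
      u ^ (1000 * k - 9) ≤ 16 * Real.pi * 2 ^ t * 2 ^ (m * k) * 4 ^ (75 * k) * u ^ (305 * k) * z := by
    intro z hz
    have h5 : 16 * Real.pi * 2 ^ t * 2 ^ (m * k) * u ^ (1000 * k * k) *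
        (1 / (8 * Real.pi * u ^ 4 * (Y : ℝ) ^ k) * T) ≤
        16 * Real.pi * 2 ^ t * 2 ^ (m * k) * u ^ (1000 * k * k) * (μ * z) :=
      mul_le_mul_of_nonneg_left hz (by positivity)
    refine (hLHS.trans h5).trans (le_of_eq ?_)
    rw [hμ]
    field_simp
  -- the bound for g
  have hgu : (g : ℝ) ≤ u ^ 6 := by
    have hg0 : (0 : ℝ) < g := by exact_mod_cast hg
    have h5 : T ≤ (Y : ℝ) / g := h1.trans Nat.cast_div_le
    rw [le_div_iff₀ hg0] at h5
    have h6 : g * u ^ (1000 * k - 1) ≤ 2 ^ (m + 1 + t) * u ^ (1000 * k + 4) := by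
      calc g * u ^ (1000 * k - 1) ≤ g * (T * (2 * u ^ 4 * 2 ^ t)) :=
            mul_le_mul_of_nonneg_left hA hg0.le
        _ = (T * g) * (2 * u ^ 4 * 2 ^ t) := by ring
        _ ≤ Y * (2 * u ^ 4 * 2 ^ t) := mul_le_mul_of_nonneg_right h5 (by positivity)
        _ = 2 ^ (m + 1 + t) * u ^ (1000 * k + 4) := by
            rw [hYr, pow_add, pow_add, pow_add]
            ring
    have e : u ^ (1000 * k + 4) = u ^ (1000 * k - 1) * u ^ 5 := by
      rw [← pow_add]
      congr 1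
      omega
    rw [e] at h6
    have h7 : (0 : ℝ) < u ^ (1000 * k - 1) := by positivity
    have h8 : (g : ℝ) ≤ 2 ^ (m + 1 + t) * u ^ 5 := by
      refine le_of_mul_le_mul_right ?_ h7
      refine h6.trans (le_of_eq (by ring))
    calc (g : ℝ) ≤ 2 ^ (m + 1 + t) * u ^ 5 := h8
      _ ≤ u * u ^ 5 := mul_le_mul_of_nonneg_right hK2 (by positivity)
      _ = u ^ 6 := by ring
  -- the bound for q
  obtain ⟨q', hq'⟩ : ∃ q' : ℕ, q' = q / Nat.gcd q (g ^ k) := ⟨_, rfl⟩
  rw [← hq'] at h2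
  have hgcd : 0 < Nat.gcd q (g ^ k) := Nat.gcd_pos_of_pos_left _ hq
  have hq'0 : 0 < q' := by
    rw [hq']
    exact Nat.div_pos (Nat.le_of_dvd hq (Nat.gcd_dvd_left _ _)) hgcd
  have hq'r : (0 : ℝ) < q' := by exact_mod_cast hq'0
  have hqq : q ≤ q' * g ^ k := by
    have h5 : q = q' * Nat.gcd q (g ^ k) := by
      rw [hq', Nat.div_mul_cancel (Nat.gcd_dvd_left _ _)]
    calc q = q' * Nat.gcd q (g ^ k) := h5
      _ ≤ q' * g ^ k := Nat.mul_le_mul_left _
          (Nat.le_of_dvd (by positivity) (Nat.gcd_dvd_right _ _))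
  have hq'Q : q' ≤ 2 * Y ^ k := by
    refine le_trans ?_ hqQ
    rw [hq']
    exact Nat.div_le_self _ _
  have hnT : (nT k q' : ℝ) ≤ 2 * C₂ * 2 ^ (m * k + 1) * u ^ k := by
    have h5 : (nT k q' : ℝ) ≤ 2 * (k : ℝ) ^ q'.primeFactors.card := by
      exact_mod_cast nT_le (by omega) hq'0
    have h6 := hom q' hq'0
    have hkr : (3 : ℝ) ≤ k := by exact_mod_cast hk
    have h7 : (q' : ℝ) ^ (1 / (1000 * k : ℝ)) ≤ 2 ^ (m * k + 1) * u ^ k := by
      have h8 : (q' : ℝ) ≤ 2 ^ (m * k + 1) * u ^ (1000 * k * k) := by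
        have h9 : (q' : ℝ) ≤ 2 * (Y : ℝ) ^ k := by exact_mod_cast hq'Q
        rw [hYk] at h9
        rw [pow_succ]
        linarith
      calc (q' : ℝ) ^ (1 / (1000 * k : ℝ))
          ≤ (2 ^ (m * k + 1) * u ^ (1000 * k * k)) ^ (1 / (1000 * k : ℝ)) :=
            Real.rpow_le_rpow (by positivity) h8 (by positivity)
        _ = ((2 : ℝ) ^ (m * k + 1)) ^ (1 / (1000 * k : ℝ)) *
            (u ^ (1000 * k * k)) ^ (1 / (1000 * k : ℝ)) :=
            Real.mul_rpow (by positivity) (by positivity)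
        _ ≤ 2 ^ (m * k + 1) * u ^ k := by
            refine mul_le_mul ?_ (le_of_eq ?_) (by positivity) (by positivity)
            · have h10 : (1 : ℝ) ≤ 2 ^ (m * k + 1) := one_le_pow₀ (by norm_num)
              calc ((2 : ℝ) ^ (m * k + 1)) ^ (1 / (1000 * k : ℝ))
                  ≤ ((2 : ℝ) ^ (m * k + 1)) ^ (1 : ℝ) := by
                    refine Real.rpow_le_rpow_of_exponent_le h10 ?_
                    rw [div_le_one (by positivity)]
                    linarith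
                _ = 2 ^ (m * k + 1) := Real.rpow_one _
            · rw [← Real.rpow_natCast u (1000 * k * k), ← Real.rpow_mul hu0.le]
              have e : ((1000 * k * k : ℕ) : ℝ) * (1 / (1000 * k : ℝ)) = (k : ℝ) := by
                push_cast
                field_simp
              rw [e, Real.rpow_natCast]
    calc (nT k q' : ℝ) ≤ 2 * (k : ℝ) ^ q'.primeFactors.card := h5
      _ ≤ 2 * (C₂ * (2 ^ (m * k + 1) * u ^ k)) := by
          refine mul_le_mul_of_nonneg_left (h6.trans ?_) (by norm_num)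
          exact mul_le_mul_of_nonneg_left h7 (by linarith)
      _ = 2 * C₂ * 2 ^ (m * k + 1) * u ^ k := by ring
  rw [← ht] at hnT
  have hq'u : (q' : ℝ) ≤ u ^ (306 * k + 10) := by
    refine alg_q (K₁ := 2 ^ m) (K₂ := 16 * Real.pi * 2 ^ t * 2 ^ (m * k) * 4 ^ (75 * k) *
      (2 * C₂ * 2 ^ t)) hk (one_le_pow₀ (by norm_num)) ?_ hK1 hq'r ?_
    · have a1 : (1 : ℝ) ≤ 16 * Real.pi := by linarith
      have a2 : (1 : ℝ) ≤ 2 ^ t := one_le_pow₀ (by norm_num)
      have a3 : (1 : ℝ) ≤ 2 ^ (m * k) := one_le_pow₀ (by norm_num)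
      have a4 : (1 : ℝ) ≤ 4 ^ (75 * k) := one_le_pow₀ (by norm_num)
      have a6 : (1 : ℝ) ≤ 2 * C₂ := by linarith
      exact one_le_mul_of_one_le_of_one_le (one_le_mul_of_one_le_of_one_le
        (one_le_mul_of_one_le_of_one_le (one_le_mul_of_one_le_of_one_le a1 a2) a3) a4)
        (one_le_mul_of_one_le_of_one_le a6 a2)
    · have h5 := hkey _ h2
      push_cast at h5
      have h6 : (((Y / g / q' : ℕ) : ℝ) + 1) * (nT k q' : ℝ) ≤
          (2 ^ m * u ^ (1000 * k) / q' + 1) * (2 * C₂ * 2 ^ t * u ^ k) := by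
        refine mul_le_mul ?_ hnT (by positivity) (by positivity)
        have h7 : ((Y / g / q' : ℕ) : ℝ) ≤ (Y : ℝ) / q' := by
          calc ((Y / g / q' : ℕ) : ℝ) ≤ ((Y / g : ℕ) : ℝ) / q' := Nat.cast_div_le
            _ ≤ (Y : ℝ) / q' := by
                refine div_le_div_of_nonneg_right ?_ hq'r.le
                exact_mod_cast Nat.div_le_self Y g
        rw [hYr] at h7
        linarith
      have h8 : u ^ (1000 * k - 9) ≤ 16 * Real.pi * 2 ^ t * 2 ^ (m * k) * 4 ^ (75 * k) *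
          u ^ (305 * k) * ((2 ^ m * u ^ (1000 * k) / q' + 1) *
          (2 * C₂ * 2 ^ t * u ^ k)) :=
        h5.trans (mul_le_mul_of_nonneg_left h6 (by positivity))
      have e : u ^ (306 * k) = u ^ (305 * k) * u ^ k := by
        rw [← pow_add]
        congr 1
        ring
      rw [e]
      refine h8.trans (le_of_eq (by ring))
  have hqu : (q : ℝ) ≤ u ^ (312 * k + 10) := by
    have h5 : (q : ℝ) ≤ q' * (g : ℝ) ^ k := by exact_mod_cast hqq
    calc (q : ℝ) ≤ q' * (g : ℝ) ^ k := h5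
      _ ≤ u ^ (306 * k + 10) * (u ^ 6) ^ k := by gcongr
      _ = u ^ (312 * k + 10) := by
          rw [← pow_mul, ← pow_add]
          congr 1
          ring
  refine ⟨q, n, hq, ?_, ?_⟩
  · refine le_trans ?_ hQbig
    calc (q : ℝ) ^ 6 ≤ (u ^ (312 * k + 10)) ^ 6 := by gcongr
      _ = u ^ ((312 * k + 10) * 6) := by rw [← pow_mul]
      _ ≤ u ^ (2000 * k) := pow_le_pow_right₀ hu1 (by omega)
  · by_cases hne : α = n / q
    · rw [← hne, sub_self, abs_zero, zero_mul, zero_pow (by norm_num)]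
      positivity
    · obtain ⟨b, hb⟩ : ∃ b : ℝ, b = |α - n / q| := ⟨_, rfl⟩
      have hb0 : 0 < b := by rw [hb]; exact abs_pos.2 (sub_ne_zero.2 hne)
      have h5 := hkey _ (h3 hne)
      rw [← hb] at h5 ⊢
      have hPm : ((P ^ m : ℕ) : ℝ) ^ (k - 1) = u ^ (1000 * k * (k - 1)) := by
        push_cast
        rw [← hu, ← pow_mul]
      have hfrac : (1 / (4 * Real.pi * u ^ 4 * (Y : ℝ) ^ k)) /
          (b * ((P ^ m : ℕ) : ℝ) ^ (k - 1)) ≤ 1 / (b * u ^ (2000 * k * k - 1000 * k)) := by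
        rw [hPm, div_div]
        have e : 2000 * k * k - 1000 * k = 1000 * k * k + 1000 * k * (k - 1) := by
          obtain ⟨j, rfl⟩ : ∃ j, k = j + 1 := ⟨k - 1, by omega⟩
          rw [Nat.add_sub_cancel]
          have : 2000 * (j + 1) * (j + 1) =
            1000 * (j + 1) * (j + 1) + 1000 * (j + 1) * j + 1000 * (j + 1) := by ring
          omega
        rw [e, pow_add]
        refine one_div_le_one_div_of_le (by positivity) ?_
        rw [hYk]
        have h6 : (1 : ℝ) ≤ 4 * Real.pi * u ^ 4 * 2 ^ (m * k) := by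
          have a1 : (1 : ℝ) ≤ 4 * Real.pi := by linarith
          exact one_le_mul_of_one_le_of_one_le (one_le_mul_of_one_le_of_one_le a1
            (one_le_pow₀ hu1)) (one_le_pow₀ (by norm_num))
        have h7 : (0 : ℝ) ≤ b * (u ^ (1000 * k * k) * u ^ (1000 * k * (k - 1))) := by positivity
        calc b * (u ^ (1000 * k * k) * u ^ (1000 * k * (k - 1)))
            = 1 * (b * (u ^ (1000 * k * k) * u ^ (1000 * k * (k - 1)))) := (one_mul _).symm
          _ ≤ (4 * Real.pi * u ^ 4 * 2 ^ (m * k)) *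
              (b * (u ^ (1000 * k * k) * u ^ (1000 * k * (k - 1)))) :=
              mul_le_mul_of_nonneg_right h6 h7
          _ = _ := by ring
      have h8 : b * u ^ (2000 * k * k) ≤ u ^ (305 * k + 10) := by
        refine alg_b (K := 16 * Real.pi * 2 ^ t * 2 ^ (m * k) * 4 ^ (75 * k)) hk ?_ ?_ hb0 ?_
        · have a1 : (1 : ℝ) ≤ 16 * Real.pi := by linarith
          exact one_le_mul_of_one_le_of_one_le (one_le_mul_of_one_le_of_one_le
            (one_le_mul_of_one_le_of_one_le a1 (one_le_pow₀ (by norm_num)))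
            (one_le_pow₀ (by norm_num))) (one_le_pow₀ (by norm_num))
        · refine le_trans ?_ hK1
          have a1 : (1 : ℝ) ≤ C₂ * 2 ^ (m * k) * 2 ^ m := by
            exact one_le_mul_of_one_le_of_one_le (one_le_mul_of_one_le_of_one_le hC₂
              (one_le_pow₀ (by norm_num))) (one_le_pow₀ (by norm_num))
          have a2 : (0 : ℝ) ≤ 16 * Real.pi * 2 ^ t * 2 ^ (m * k) * 4 ^ (75 * k) := by positivity
          calc 4 * (16 * Real.pi * 2 ^ t * 2 ^ (m * k) * 4 ^ (75 * k))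
              = 4 * (16 * Real.pi * 2 ^ t * 2 ^ (m * k) * 4 ^ (75 * k)) * 1 := (mul_one _).symm
            _ ≤ 4 * (16 * Real.pi * 2 ^ t * 2 ^ (m * k) * 4 ^ (75 * k)) *
                (2 * (C₂ * 2 ^ (m * k) * 2 ^ m)) / 2 * 2 := by
                rw [div_mul_cancel₀ _ (by norm_num : (2 : ℝ) ≠ 0)]
                refine mul_le_mul_of_nonneg_left (by linarith) (by positivity)
            _ = 2 * (16 * Real.pi * 2 ^ t * 2 ^ (m * k) * 4 ^ (75 * k) *
                (2 * C₂ * (2 ^ (m * k) * 2))) * 2 ^ m := by ring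
            _ = _ := by rw [← pow_succ, ← ht]
        · refine h5.trans ?_
          refine mul_le_mul_of_nonneg_left ?_ (by positivity)
          linarith
      have hQk : (((2 * P) ^ (2 * m) : ℕ) : ℝ) ^ k = 2 ^ (2 * m * k) * u ^ (2000 * k * k) := by
        have e1 : u ^ (2000 * k * k) = ((P : ℝ) ^ (2 * m)) ^ k := by
          have e2 : 2000 * k * k = 1000 * k * (2 * k) := by ring
          rw [e2, pow_mul, hu, ← pow_mul, ← pow_mul]
          congr 1
          ring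
        rw [e1]
        push_cast
        rw [mul_pow, mul_pow, ← pow_mul]
      rw [hQk]
      refine le_trans ?_ hQbig
      have h9 : b * (2 ^ (2 * m * k) * u ^ (2000 * k * k)) ≤ u ^ (305 * k + 11) := by
        calc b * (2 ^ (2 * m * k) * u ^ (2000 * k * k))
            = 2 ^ (2 * m * k) * (b * u ^ (2000 * k * k)) := by ring
          _ ≤ u * u ^ (305 * k + 10) := mul_le_mul hK3 h8 (by positivity) hu0.le
          _ = u ^ (305 * k + 11) := by ring
      calc (b * (2 ^ (2 * m * k) * u ^ (2000 * k * k))) ^ 6 ≤ (u ^ (305 * k + 11)) ^ 6 := by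
            gcongr
        _ = u ^ ((305 * k + 11) * 6) := by rw [← pow_mul]
        _ ≤ u ^ (2000 * k) := pow_le_pow_right₀ hu1 (by omega)

end Pool.Agent.Lib.MP_570bef_ntLV
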