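import Mathlib

/-!
# LV, block B: the number of `k`-torsion elements of `(ZMod q)ˣ`
-/

set_option autoImplicit false

namespace Pool.Agent.Lib.MP_570bef_ntLV

open Finset

/-- the number of units `u` modulo `q` with `u ^ k = 1` -/
noncomputable def nT (k q : ℕ) : ℕ := Nat.card {u : (ZMod q)ˣ // u ^ k = 1}

theorem tor_cyc {G : Type*} [CommGroup G] [Finite G] [IsCyclic G] {k : ℕ} (hk : 0 < k) :
    Nat.card {u : G // u ^ k = 1} ≤ k := by
  classical
  have := Fintype.ofFinite G
  rw [Nat.card_eq_fintype_card, Fintype.card_subtype]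
  exact IsCyclic.card_pow_eq_one_le hk

theorem tor_index {G : Type*} [CommGroup G] [Finite G] (H : Subgroup G) [IsCyclic H] {k : ℕ}
    (hk : 0 < k) : Nat.card {u : G // u ^ k = 1} ≤ k * H.index := by
  classical
  have := Fintype.ofFinite G
  have hfin : Fintype (G ⧸ H) := Fintype.ofFinite _
  rw [Nat.card_eq_fintype_card, Fintype.card_subtype]
  have h1 : H.index = Fintype.card (G ⧸ H) := by
    rw [Subgroup.index_eq_card, Nat.card_eq_fintype_card]
  rw [h1]
  have h2 := Finset.card_le_mul_card_image_of_maps_to (s := univ.filter fun u : G => u ^ k = 1)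
    (t := (univ : Finset (G ⧸ H))) (f := fun u : G => (QuotientGroup.mk u : G ⧸ H))
    (fun u _ => mem_univ _) k ?_
  · rwa [Finset.card_univ] at h2
  · intro c _
    rcases ((univ.filter fun u : G => u ^ k = 1).filter fun u : G =>
      (QuotientGroup.mk u : G ⧸ H) = c).eq_empty_or_nonempty with h0 | ⟨u₀, hu₀⟩
    · rw [h0]
      simp
    · simp only [mem_filter, mem_univ, true_and] at hu₀
      have h3 : Fintype.card {h : H // h ^ k = 1} ≤ k := by
        rw [← Nat.card_eq_fintype_card]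
        exact tor_cyc hk
      refine le_trans ?_ h3
      rw [← Finset.card_univ]
      refine Finset.card_le_card_of_injOn (fun u => if hu : u₀⁻¹ * u ∈ H ∧ u ^ k = 1 then
        (⟨⟨u₀⁻¹ * u, hu.1⟩, by
          ext
          simp only [Subgroup.coe_pow, Subgroup.coe_one, mul_pow, inv_pow, hu.2, hu₀.1]
          simp⟩ : {h : H // h ^ k = 1}) else ⟨1, one_pow k⟩) (fun u _ => by simp) ?_
      intro u hu v hv huv
      simp only [coe_filter, mem_filter, mem_univ, true_and, Set.mem_ofPred_eq] at hu hv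
      have hu1 : u₀⁻¹ * u ∈ H := by
        rw [← QuotientGroup.eq, hu₀.2, hu.2]
      have hv1 : u₀⁻¹ * v ∈ H := by
        rw [← QuotientGroup.eq, hu₀.2, hv.2]
      simp only [hu1, hu.1, hv1, hv.1, and_self, dite_true, Subtype.mk.injEq] at huv
      exact mul_left_cancel huv

theorem nT_mul (k : ℕ) {a b : ℕ} (h : a.Coprime b) : nT k (a * b) = nT k a * nT k b := by
  have e : (ZMod (a * b))ˣ ≃* (ZMod a)ˣ × (ZMod b)ˣ :=
    (Units.mapEquiv (ZMod.chineseRemainder h).toMulEquiv).trans MulEquiv.prodUnits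
  have e2 : {u : (ZMod (a * b))ˣ // u ^ k = 1} ≃
      {u : (ZMod a)ˣ // u ^ k = 1} × {u : (ZMod b)ˣ // u ^ k = 1} := by
    refine (e.toEquiv.subtypeEquiv (q := fun p => p.1 ^ k = 1 ∧ p.2 ^ k = 1) fun u => ?_).trans
      (Equiv.subtypeProdEquivProd (p := fun u : (ZMod a)ˣ => u ^ k = 1)
        (q := fun u : (ZMod b)ˣ => u ^ k = 1))
    constructor
    · intro hu
      have h1 : e u ^ k = 1 := by rw [← map_pow, hu, map_one]
      exact ⟨congrArg Prod.fst h1, congrArg Prod.snd h1⟩
    · rintro ⟨h1, h2⟩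
      have h3 : e u ^ k = 1 := Prod.ext h1 h2
      rw [← map_pow] at h3
      exact (MulEquiv.map_eq_one_iff e).1 h3
  rw [nT, Nat.card_congr e2, Nat.card_prod]
  rfl

theorem nT_two_pow {k : ℕ} (hk : 0 < k) (n : ℕ) : nT k (2 ^ n) ≤ 2 * k := by
  have hne : NeZero (2 ^ n) := ⟨by positivity⟩
  rcases Nat.lt_or_ge n 3 with hn | hn
  · have hc : IsCyclic (ZMod (2 ^ n))ˣ := (ZMod.isCyclic_units_two_pow_iff n).2 (by omega)
    exact (tor_cyc hk).trans (by omega)
  · obtain ⟨m, rfl⟩ := Nat.exists_eq_add_of_le' hn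
    have h5 : IsUnit (5 : ZMod (2 ^ (m + 3))) := by
      have : ((5 : ℕ) : ZMod (2 ^ (m + 3))) = 5 := by norm_cast
      rw [← this, ZMod.isUnit_iff_coprime]
      exact Nat.Coprime.pow_right _ (by norm_num)
    obtain ⟨u, hu⟩ := h5
    have ho : orderOf u = 2 ^ (m + 1) := by
      rw [← orderOf_units, hu, ZMod.orderOf_five]
    have hcard : Nat.card (ZMod (2 ^ (m + 3)))ˣ = 2 ^ (m + 2) := by
      rw [Nat.card_eq_fintype_card, ZMod.card_units_eq_totient, Nat.totient_prime_pow
        Nat.prime_two (by omega)]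
      simp
    have hidx : (Subgroup.zpowers u).index = 2 := by
      have h1 := (Subgroup.zpowers u).index_mul_card
      rw [Nat.card_zpowers, ho, hcard, pow_succ 2 (m + 1), mul_comm (2 ^ (m + 1)) 2] at h1
      exact Nat.eq_of_mul_eq_mul_right (by positivity) h1
    have h2 := tor_index (Subgroup.zpowers u) hk
    rw [hidx] at h2
    rw [mul_comm]
    exact h2

theorem nT_prime_pow {k : ℕ} (hk : 0 < k) {p : ℕ} (hp : p.Prime) (hp2 : p ≠ 2) (n : ℕ) :
    nT k (p ^ n) ≤ k := by
  have hne : NeZero (p ^ n) := ⟨(pow_pos hp.pos n).ne'⟩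
  have hc := ZMod.isCyclic_units_of_prime_pow p hp hp2 n
  exact tor_cyc hk

/-- **The number of `k`-torsion elements.** -/
theorem nT_le {k : ℕ} (hk : 0 < k) {q : ℕ} (hq : 0 < q) :
    nT k q ≤ 2 * k ^ q.primeFactors.card := by
  have key : ∀ q : ℕ, 0 < q → nT k q ≤ (if 2 ∣ q then 2 else 1) * k ^ q.primeFactors.card := by
    intro q
    refine Nat.recOnPosPrimePosCoprime (motive := fun q => 0 < q →
      nT k q ≤ (if 2 ∣ q then 2 else 1) * k ^ q.primeFactors.card) ?_ ?_ ?_ ?_ q
    · intro p n hp hn _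
      rw [Nat.primeFactors_prime_pow hn.ne' hp, card_singleton, pow_one]
      by_cases h2 : p = 2
      · subst h2
        rw [if_pos (dvd_pow_self 2 hn.ne')]
        exact nT_two_pow hk n
      · refine (nT_prime_pow hk hp h2 n).trans ?_
        split_ifs <;> omega
    · intro h
      exact absurd h (lt_irrefl 0)
    · intro _
      have h1 : nT k 1 ≤ 1 := by
        rw [nT]
        have : Subsingleton (ZMod 1)ˣ := inferInstance
        exact Finite.card_le_one_iff_subsingleton.2 inferInstance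
      simpa using h1
    · intro a b ha hb hab h1 h2 _
      have h3 := h1 (by omega)
      have h4 := h2 (by omega)
      rw [nT_mul k hab, hab.primeFactors_mul, card_union_of_disjoint hab.disjoint_primeFactors,
        pow_add]
      have h5 : ¬ (2 ∣ a ∧ 2 ∣ b) := by
        rintro ⟨h6, h7⟩
        have := Nat.dvd_gcd h6 h7
        rw [hab] at this
        omega
      have h6 : 2 ∣ a * b ↔ 2 ∣ a ∨ 2 ∣ b := Nat.prime_two.dvd_mul
      calc nT k a * nT k b ≤ ((if 2 ∣ a then 2 else 1) * k ^ a.primeFactors.card) *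
            ((if 2 ∣ b then 2 else 1) * k ^ b.primeFactors.card) := Nat.mul_le_mul h3 h4
        _ = (if 2 ∣ a * b then 2 else 1) * (k ^ a.primeFactors.card * k ^ b.primeFactors.card) := by
          by_cases ha2 : 2 ∣ a
          · have hb2 : ¬ 2 ∣ b := fun h => h5 ⟨ha2, h⟩
            rw [if_pos ha2, if_neg hb2, if_pos (h6.2 (Or.inl ha2))]
            ring
          · by_cases hb2 : 2 ∣ b
            · rw [if_neg ha2, if_pos hb2, if_pos (h6.2 (Or.inr hb2))]
              ring
            · rw [if_neg ha2, if_neg hb2, if_neg fun h => (h6.1 h).elim ha2 hb2]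
              ring
  refine (key q hq).trans (Nat.mul_le_mul_right _ ?_)
  split_ifs <;> omega

/-- the number of solutions of `x ^ k = a ^ k` modulo `q` in an interval -/
theorem count_pow {k : ℕ} (hk : 0 < k) {q : ℕ} (hq : 0 < q) {a : ℕ} (ha : a.Coprime q) (Z : ℕ) :
    ((Icc 1 Z).filter fun x => x ^ k ≡ a ^ k [MOD q]).card ≤ (Z / q + 1) * nT k q := by
  classical
  have hne : NeZero q := ⟨hq.ne'⟩
  have hfin : Fintype {u : (ZMod q)ˣ // u ^ k = 1} := Fintype.ofFinite _
  have hnT : nT k q = Fintype.card {u : (ZMod q)ˣ // u ^ k = 1} := by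
    rw [nT, Nat.card_eq_fintype_card]
  have hau : IsUnit (a : ZMod q) := (ZMod.isUnit_iff_coprime a q).2 ha
  obtain ⟨ua, hua⟩ := hau
  have hunit : ∀ x : ℕ, x ^ k ≡ a ^ k [MOD q] → ∃ u : (ZMod q)ˣ, (u : ZMod q) = x ∧
      (u * ua⁻¹) ^ k = 1 := by
    intro x hx
    have h1 : (x : ZMod q) ^ k = (a : ZMod q) ^ k := by
      have := (ZMod.natCast_eq_natCast_iff _ _ _).2 hx
      push_cast at this
      exact this
    have h2 : IsUnit (x : ZMod q) := by
      rw [← isUnit_pow_iff hk.ne', h1, ← hua]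
      exact (ua ^ k).isUnit
    obtain ⟨u, hu⟩ := h2
    refine ⟨u, hu, ?_⟩
    rw [mul_pow, inv_pow, mul_inv_eq_one]
    ext
    push_cast
    rw [hu, hua, h1]
  choose! U hU1 hU2 using hunit
  rw [hnT, ← Finset.card_univ]
  refine Finset.card_le_mul_card_image_of_maps_to
    (f := fun x => if h : x ^ k ≡ a ^ k [MOD q] then
      (⟨U x * ua⁻¹, hU2 x h⟩ : {u : (ZMod q)ˣ // u ^ k = 1}) else ⟨1, one_pow k⟩)
    (fun x _ => mem_univ _) (Z / q + 1) ?_
  intro c _
  have hr : Z / q + 1 = (range (Z / q + 1)).card := (card_range _).symm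
  rw [hr]
  refine Finset.card_le_card_of_injOn (fun x => x / q) ?_ ?_
  · intro x hx
    simp only [coe_filter, mem_filter, mem_Icc, Set.mem_ofPred_eq] at hx
    simp only [coe_range, Set.mem_Iio]
    exact Nat.lt_succ_of_le (Nat.div_le_div_right hx.1.1.2)
  · intro x hx y hy hxy
    simp only [coe_filter, mem_filter, mem_Icc, Set.mem_ofPred_eq] at hx hy
    have hxy' : x / q = y / q := hxy
    have h1 := hx.2
    have h2 := hy.2
    rw [dif_pos hx.1.2] at h1
    rw [dif_pos hy.1.2] at h2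
    have h3 : U x * ua⁻¹ = U y * ua⁻¹ := congrArg Subtype.val (h1.trans h2.symm)
    have h4 : U x = U y := mul_right_cancel h3
    have h5 : (x : ZMod q) = (y : ZMod q) := by
      rw [← hU1 x hx.1.2, ← hU1 y hy.1.2, h4]
    have h6 : x % q = y % q := (ZMod.natCast_eq_natCast_iff' _ _ _).1 h5
    rw [← Nat.div_add_mod x q, ← Nat.div_add_mod y q, hxy', h6]

end Pool.Agent.Lib.MP_570bef_ntLV
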