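import Pool.Agent.Lib.MP_570bef_ntLV.FDefs

/-!
# Product sets of prime blocks and the core lemma
-/

set_option autoImplicit false

namespace Pool.Agent.Lib.MP_570bef_ntLV

open Finset
open scoped Pointwise

variable {PP : ℕ → Finset ℕ} {P : ℕ}

theorem PS_empty (PP : ℕ → Finset ℕ) : PS PP ∅ = {1} := by
  rw [PS, prod_empty]
  rfl

theorem PS_insert {i : ℕ} {J : Finset ℕ} (hi : i ∉ J) :
    PS PP (insert i J) = PP i * PS PP J := by
  rw [PS, prod_insert hi]
  rfl

theorem PS_union {J J' : Finset ℕ} (h : Disjoint J J') :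
    PS PP (J ∪ J') = PS PP J * PS PP J' := by
  rw [PS, prod_union h]
  rfl

theorem PS_prime_dvd (hB : Blk PP P) (J : Finset ℕ) :
    ∀ x ∈ PS PP J, 0 < x ∧ ∀ p : ℕ, p.Prime → p ∣ x → ∃ i ∈ J, p ∈ PP i := by
  classical
  induction J using Finset.induction_on with
  | empty =>
    intro x hx
    rw [PS_empty, mem_singleton] at hx
    subst hx
    refine ⟨one_pos, fun p hp h => ?_⟩
    exact absurd (Nat.dvd_one.1 h) hp.one_lt.ne'
  | insert i J hi ih =>
    intro x hx
    rw [PS_insert hi, mem_mul] at hx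
    obtain ⟨a, ha, b, hb, rfl⟩ := hx
    have hb' := ih b hb
    have ha' := hB.prime i a ha
    refine ⟨Nat.mul_pos ha'.pos hb'.1, fun p hp h => ?_⟩
    rcases (Nat.Prime.dvd_mul hp).1 h with h | h
    · refine ⟨i, mem_insert_self _ _, ?_⟩
      rw [(Nat.prime_dvd_prime_iff_eq hp ha').1 h]
      exact ha
    · obtain ⟨j, hj, hpj⟩ := hb'.2 p hp h
      exact ⟨j, mem_insert_of_mem hj, hpj⟩

theorem PS_coprime (hB : Blk PP P) {J J' : Finset ℕ} (h : Disjoint J J') {x y : ℕ}
    (hx : x ∈ PS PP J) (hy : y ∈ PS PP J') : x.Coprime y := by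
  refine Nat.coprime_of_dvd fun p hp h1 h2 => ?_
  obtain ⟨i, hi, hpi⟩ := (PS_prime_dvd hB J x hx).2 p hp h1
  obtain ⟨j, hj, hpj⟩ := (PS_prime_dvd hB J' y hy).2 p hp h2
  have hij : i ≠ j := fun e => by
    subst e
    exact (disjoint_left.1 h hi) hj
  exact (disjoint_left.1 (hB.disj i j hij) hpi) hpj

theorem PS_mul_inj (hB : Blk PP P) {J J' : Finset ℕ} (h : Disjoint J J') {x y x' y' : ℕ}
    (hx : x ∈ PS PP J) (hy : y ∈ PS PP J') (hx' : x' ∈ PS PP J) (hy' : y' ∈ PS PP J')
    (hxy : x * y = x' * y') : x = x' ∧ y = y' := by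
  have h1 : x ∣ x' := (PS_coprime hB h hx hy').dvd_of_dvd_mul_right ⟨y, hxy.symm⟩
  have h2 : x' ∣ x := (PS_coprime hB h hx' hy).dvd_of_dvd_mul_right ⟨y', hxy⟩
  have h3 : x = x' := Nat.dvd_antisymm h1 h2
  subst h3
  exact ⟨rfl, Nat.eq_of_mul_eq_mul_left (PS_prime_dvd hB J x hx).1 hxy⟩

/-- summation over a product set -/
theorem PS_sum (hB : Blk PP P) {J J' : Finset ℕ} (h : Disjoint J J') {A : Type*}
    [AddCommMonoid A] (g : ℕ → A) :
    ∑ x ∈ PS PP (J ∪ J'), g x = ∑ D ∈ PS PP J, ∑ y ∈ PS PP J', g (D * y) := by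
  rw [PS_union h, ← sum_product' (f := fun a b => g (a * b))]
  symm
  refine sum_nbij (fun z => z.1 * z.2) ?_ ?_ ?_ ?_
  · intro z hz
    rw [mem_product] at hz
    exact mul_mem_mul hz.1 hz.2
  · intro z hz w hw hzw
    rw [mem_coe, mem_product] at hz hw
    obtain ⟨h1, h2⟩ := PS_mul_inj hB h hz.1 hz.2 hw.1 hw.2 hzw
    exact Prod.ext h1 h2
  · intro x hx
    rw [mem_coe, mem_mul] at hx
    obtain ⟨a, ha, b, hb, rfl⟩ := hx
    exact ⟨(a, b), mem_coe.2 (mem_product.2 ⟨ha, hb⟩), rfl⟩
  · intro z _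
    rfl

theorem PS_card (hB : Blk PP P) {J J' : Finset ℕ} (h : Disjoint J J') :
    (PS PP (J ∪ J')).card = (PS PP J).card * (PS PP J').card := by
  have := PS_sum hB h (fun _ => (1 : ℕ))
  simpa using this

theorem PS_singleton (i : ℕ) : PS PP {i} = PP i := by
  rw [PS, prod_singleton]

theorem PS_card_insert (hB : Blk PP P) {i : ℕ} {J : Finset ℕ} (hi : i ∉ J) :
    (PS PP (insert i J)).card = (PP i).card * (PS PP J).card := by
  have h := PS_card hB (J := {i}) (J' := J) (by simpa using hi)
  rw [← insert_eq, PS_singleton] at h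
  exact h

theorem PS_card_eq (hB : Blk PP P) (J : Finset ℕ) :
    (PS PP J).card = ∏ i ∈ J, (PP i).card := by
  classical
  induction J using Finset.induction_on with
  | empty => simp [PS_empty]
  | insert i J hi ih => rw [PS_card_insert hB hi, prod_insert hi, ih]

theorem PS_le (hB : Blk PP P) (J : Finset ℕ) : ∀ x ∈ PS PP J, x ≤ (2 * P) ^ J.card := by
  classical
  induction J using Finset.induction_on with
  | empty =>
    intro x hx
    rw [PS_empty, mem_singleton] at hx
    simp [hx]
  | insert i J hi ih =>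
    intro x hx
    rw [PS_insert hi, mem_mul] at hx
    obtain ⟨a, ha, b, hb, rfl⟩ := hx
    rw [card_insert_of_notMem hi, pow_succ, mul_comm]
    exact Nat.mul_le_mul (ih b hb) (hB.upp i a ha)

theorem le_PS (hB : Blk PP P) (J : Finset ℕ) : ∀ x ∈ PS PP J, P ^ J.card ≤ x := by
  classical
  induction J using Finset.induction_on with
  | empty =>
    intro x hx
    rw [PS_empty, mem_singleton] at hx
    simp [hx]
  | insert i J hi ih =>
    intro x hx
    rw [PS_insert hi, mem_mul] at hx
    obtain ⟨a, ha, b, hb, rfl⟩ := hx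
    rw [card_insert_of_notMem hi, pow_succ, mul_comm]
    exact Nat.mul_le_mul (hB.low i a ha).le (ih b hb)

/-- the elements of `PS (insert i J)` divisible by `p ∈ PP i` -/
theorem PS_dvd (hB : Blk PP P) {i : ℕ} {J : Finset ℕ} (hi : i ∉ J) {p x : ℕ} (hp : p ∈ PP i)
    (hx : x ∈ PS PP (insert i J)) (h : p ∣ x) : ∃ y ∈ PS PP J, x = p * y := by
  rw [PS_insert hi, mem_mul] at hx
  obtain ⟨a, ha, b, hb, rfl⟩ := hx
  have hpp := hB.prime i p hp
  rcases (Nat.Prime.dvd_mul hpp).1 h with h | h
  · have h' := (Nat.prime_dvd_prime_iff_eq hpp (hB.prime i a ha)).1 h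
    exact ⟨b, hb, by rw [h']⟩
  · exfalso
    obtain ⟨j, hj, hpj⟩ := (PS_prime_dvd hB J b hb).2 p hpp h
    have hij : i ≠ j := fun e => hi (e ▸ hj)
    exact (disjoint_left.1 (hB.disj i j hij) hp) hpj

/-- **Core lemma**. -/
theorem core (hB : Blk PP P) (R : ℝ) (hR : 0 < R) : ∀ (n : ℕ) (J : Finset ℕ), J.card = n →
    ∀ G ⊆ PS PP J, G.Nonempty →
    ∃ Jc ⊆ J, ∃ c ∈ PS PP Jc, ∃ G' ⊆ PS PP (J \ Jc), G'.Nonempty ∧ (∀ D ∈ G', c * D ∈ G) ∧
      R ^ Jc.card * G.card * (PS PP (J \ Jc)).card ≤ G'.card * (PS PP J).card ∧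
      ∀ i ∈ J \ Jc, ∀ p ∈ PP i,
        ((G'.filter (p ∣ ·)).card : ℝ) * (PP i).card ≤ R * G'.card := by
  classical
  intro n
  induction n with
  | zero =>
    intro J hJ G hG hne
    rw [card_eq_zero] at hJ
    subst hJ
    refine ⟨∅, subset_rfl, 1, by simp [PS_empty], G, by simpa using hG, hne, ?_, ?_, ?_⟩
    · intro D hD
      simpa using hD
    · simp
    · intro i hi
      simp at hi
  | succ n ih =>
    intro J hJ G hG hne
    by_cases hall : ∀ i ∈ J, ∀ p ∈ PP i,
        ((G.filter (p ∣ ·)).card : ℝ) * (PP i).card ≤ R * G.card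
    · refine ⟨∅, empty_subset _, 1, by simp [PS_empty], G, by simpa using hG, hne, ?_, ?_, ?_⟩
      · intro D hD
        simpa using hD
      · simp
      · intro i hi
        rw [sdiff_empty] at hi
        exact hall i hi
    · push Not at hall
      obtain ⟨i, hi, p, hp, hlt⟩ := hall
      set J1 := J.erase i with hJ1
      have hi1 : i ∉ J1 := notMem_erase _ _
      have hins : insert i J1 = J := insert_erase hi
      set G1 := (PS PP J1).filter (fun D => p * D ∈ G) with hG1
      have hcard : (G.filter (p ∣ ·)).card = G1.card := by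
        symm
        refine card_bij (fun D _ => p * D) ?_ ?_ ?_
        · intro D hD
          rw [hG1, mem_filter] at hD
          rw [mem_filter]
          exact ⟨hD.2, dvd_mul_right _ _⟩
        · intro D _ D' _ h
          exact Nat.eq_of_mul_eq_mul_left (hB.prime i p hp).pos h
        · intro x hx
          rw [mem_filter] at hx
          have hx' : x ∈ PS PP (insert i J1) := by
            rw [hins]
            exact hG hx.1
          obtain ⟨y, hy, rfl⟩ := PS_dvd hB hi1 hp hx' hx.2
          exact ⟨y, by rw [hG1, mem_filter]; exact ⟨hy, hx.1⟩, rfl⟩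
      have hG1ne : G1.Nonempty := by
        rw [← card_pos]
        rcases Nat.eq_zero_or_pos G1.card with h | h
        · exfalso
          rw [hcard, h] at hlt
          have h1 : (0 : ℝ) ≤ R * G.card := by positivity
          simp at hlt
          linarith
        · exact h
      have hJ1c : J1.card = n := by
        rw [hJ1, card_erase_of_mem hi, hJ]
        rfl
      obtain ⟨Jc, hJc, c, hc, G', hG', hne', hcD, hdens, hsh⟩ :=
        ih J1 hJ1c G1 (filter_subset _ _) hG1ne
      have hiJc : i ∉ Jc := fun h => hi1 (hJc h)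
      have hsd : J \ insert i Jc = J1 \ Jc := by
        rw [hJ1]
        ext x
        simp only [mem_sdiff, mem_insert, mem_erase]
        tauto
      refine ⟨insert i Jc, insert_subset hi (hJc.trans (erase_subset _ _)), p * c, ?_, G', ?_,
        hne', ?_, ?_, ?_⟩
      · rw [PS_insert hiJc]
        exact mul_mem_mul hp hc
      · rwa [hsd]
      · intro D hD
        have h := hcD D hD
        rw [hG1, mem_filter] at h
        rw [mul_assoc]
        exact h.2
      · rw [hsd, card_insert_of_notMem hiJc]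
        have hcJ : (PS PP J).card = (PP i).card * (PS PP J1).card := by
          rw [← hins]
          exact PS_card_insert hB hi1
        rw [hcJ]
        push_cast
        rw [hcard] at hlt
        have h1 : R ^ (Jc.card + 1) * (G.card : ℝ) * ((PS PP (J1 \ Jc)).card : ℝ)
            = R ^ Jc.card * (R * G.card) * ((PS PP (J1 \ Jc)).card : ℝ) := by ring
        rw [h1]
        calc R ^ Jc.card * (R * G.card) * ((PS PP (J1 \ Jc)).card : ℝ)
            ≤ R ^ Jc.card * (G1.card * (PP i).card) * ((PS PP (J1 \ Jc)).card : ℝ) := by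
              have := hlt.le
              gcongr
          _ = (PP i).card * (R ^ Jc.card * G1.card * ((PS PP (J1 \ Jc)).card : ℝ)) := by ring
          _ ≤ (PP i).card * (G'.card * (PS PP J1).card) := by gcongr
          _ = _ := by ring
      · rw [hsd]
        exact hsh

end Pool.Agent.Lib.MP_570bef_ntLV
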