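import Pool.Agent.Lib.MP_570bef_ntLV.FDefs

/-!
# The fibre lemma (Halász–Montgomery in the fibres of `α ↦ D^k α`)
-/

set_option autoImplicit false

namespace Pool.Agent.Lib.MP_570bef_ntLV

open Finset

theorem exists_phase (z : ℂ) : ∃ a : ℂ, ‖a‖ ≤ 1 ∧ a * z = (‖z‖ : ℂ) := by
  by_cases h : z = 0
  · exact ⟨0, by simp, by simp [h]⟩
  · refine ⟨(starRingEnd ℂ) z / ‖z‖, ?_, ?_⟩
    · rw [norm_div, RCLike.norm_conj, Complex.norm_real, norm_norm,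
        div_self (norm_ne_zero_iff.2 h)]
    · have h1 : (‖z‖ : ℂ) ≠ 0 := by
        exact_mod_cast norm_ne_zero_iff.2 h
      rw [div_mul_eq_mul_div, div_eq_iff h1, mul_comm, Complex.mul_conj, Complex.normSq_eq_norm_sq]
      push_cast
      ring

/-- dual form of the large sieve for one set of points, row sum version -/
theorem dual_sum (k : ℕ) (T B : Finset ℕ) (β : ℕ → ℝ) (a : ℕ → ℂ) (ha : ∀ b ∈ B, ‖a b‖ ≤ 1)
    (Z : ℝ) (hrow : ∀ b ∈ B, ∑ b' ∈ B, ‖fs k T (β b - β b')‖ ≤ Z) :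
    ∑ y ∈ T, ‖∑ b ∈ B, a b * ee (β b * (y : ℝ) ^ k)‖ ^ 2 ≤ B.card * Z := by
  have h1 : ∀ y ∈ T, ((‖∑ b ∈ B, a b * ee (β b * (y : ℝ) ^ k)‖ ^ 2 : ℝ) : ℂ) =
      ∑ b ∈ B, ∑ b' ∈ B, a b * (starRingEnd ℂ) (a b') * ee ((β b - β b') * (y : ℝ) ^ k) := by
    intro y _
    rw [← Complex.normSq_eq_norm_sq, ← Complex.mul_conj, map_sum, sum_mul_sum]
    refine sum_congr rfl fun b _ => sum_congr rfl fun b' _ => ?_
    rw [map_mul, ← ee_neg, sub_mul, sub_eq_add_neg, ee_add]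
    ring
  have h2 : ((∑ y ∈ T, ‖∑ b ∈ B, a b * ee (β b * (y : ℝ) ^ k)‖ ^ 2 : ℝ) : ℂ) =
      ∑ b ∈ B, ∑ b' ∈ B, a b * (starRingEnd ℂ) (a b') * fs k T (β b - β b') := by
    rw [Complex.ofReal_sum, sum_congr rfl h1, sum_comm]
    refine sum_congr rfl fun b _ => ?_
    rw [sum_comm]
    refine sum_congr rfl fun b' _ => ?_
    rw [fs, mul_sum]
  have h3 : (∑ y ∈ T, ‖∑ b ∈ B, a b * ee (β b * (y : ℝ) ^ k)‖ ^ 2 : ℝ) =
      ‖((∑ y ∈ T, ‖∑ b ∈ B, a b * ee (β b * (y : ℝ) ^ k)‖ ^ 2 : ℝ) : ℂ)‖ := by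
    rw [Complex.norm_real, Real.norm_of_nonneg]
    exact sum_nonneg fun _ _ => sq_nonneg _
  rw [h3, h2]
  calc ‖∑ b ∈ B, ∑ b' ∈ B, a b * (starRingEnd ℂ) (a b') * fs k T (β b - β b')‖
      ≤ ∑ b ∈ B, ∑ b' ∈ B, ‖fs k T (β b - β b')‖ := by
        refine (norm_sum_le _ _).trans (sum_le_sum fun b hb => ?_)
        refine (norm_sum_le _ _).trans (sum_le_sum fun b' hb' => ?_)
        rw [norm_mul, norm_mul, RCLike.norm_conj]
        have h4 : ‖a b‖ * ‖a b'‖ ≤ 1 := mul_le_one₀ (ha b hb) (norm_nonneg _) (ha b' hb')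
        calc ‖a b‖ * ‖a b'‖ * ‖fs k T (β b - β b')‖ ≤ 1 * ‖fs k T (β b - β b')‖ := by gcongr
          _ = ‖fs k T (β b - β b')‖ := one_mul _
    _ ≤ ∑ b ∈ B, Z := sum_le_sum hrow
    _ = B.card * Z := by
        rw [sum_const, nsmul_eq_mul]

/-- **Fibre lemma** (row sum version): if at the points `(γ+b)/D^k`, `b ∈ B`, the sum over
`E ∈ A` of `|f(E^k ·)|` is at least `V`, then `|B| V² ≤ |A|² |S| Z`, `Z` a bound for the row sums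
of the kernel over `T ⊇ S`. -/
theorem fibre (k D : ℕ) (S A T : Finset ℕ) (hST : S ⊆ T) (B : Finset ℕ) (Z : ℝ) (hZ : 0 ≤ Z)
    (hrow : ∀ b ∈ B, ∀ E ∈ A,
      ∑ b' ∈ B, ‖fs k T ((E : ℝ) ^ k * (((b : ℝ) - b') / (D : ℝ) ^ k))‖ ≤ Z)
    (γ V : ℝ) (hV0 : 0 ≤ V)
    (hV : ∀ b ∈ B, V ≤ ∑ E ∈ A, ‖fs k S ((E : ℝ) ^ k * ((γ + b) / (D : ℝ) ^ k))‖) :
    B.card * V ^ 2 ≤ (A.card : ℝ) ^ 2 * S.card * Z := by
  rcases B.eq_empty_or_nonempty with hB | hB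
  · subst hB
    simp only [card_empty, Nat.cast_zero, zero_mul]
    positivity
  choose a ha1 ha2 using fun b E : ℕ =>
    exists_phase (fs k S ((E : ℝ) ^ k * ((γ + b) / (D : ℝ) ^ k)))
  set z : ℕ → ℕ → ℂ := fun E y =>
    ∑ b ∈ B, a b E * ee ((E : ℝ) ^ k * ((γ + b) / (D : ℝ) ^ k) * (y : ℝ) ^ k) with hz
  have h1 : (B.card : ℝ) * V ≤ ∑ E ∈ A, ∑ y ∈ S, ‖z E y‖ := by
    have h2 : (B.card : ℝ) * V ≤
        ∑ b ∈ B, ∑ E ∈ A, ‖fs k S ((E : ℝ) ^ k * ((γ + b) / (D : ℝ) ^ k))‖ := by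
      rw [← nsmul_eq_mul, ← sum_const]
      exact sum_le_sum hV
    refine h2.trans ?_
    rw [sum_comm]
    refine sum_le_sum fun E _ => ?_
    have h3 : ((∑ b ∈ B, ‖fs k S ((E : ℝ) ^ k * ((γ + b) / (D : ℝ) ^ k))‖ : ℝ) : ℂ) =
        ∑ y ∈ S, z E y := by
      rw [Complex.ofReal_sum, hz]
      simp only
      rw [sum_comm]
      refine sum_congr rfl fun b _ => ?_
      rw [← ha2 b E, fs, mul_sum]
    have h4 : (∑ b ∈ B, ‖fs k S ((E : ℝ) ^ k * ((γ + b) / (D : ℝ) ^ k))‖ : ℝ) =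
        ‖∑ y ∈ S, z E y‖ := by
      rw [← h3, Complex.norm_real, Real.norm_of_nonneg]
      exact sum_nonneg fun _ _ => norm_nonneg _
    rw [h4]
    exact norm_sum_le _ _
  have h5 : (∑ E ∈ A, ∑ y ∈ S, ‖z E y‖) ^ 2 ≤
      (A.card * S.card : ℝ) * ∑ E ∈ A, ∑ y ∈ S, ‖z E y‖ ^ 2 := by
    have h6 := sq_sum_le_card_mul_sum_sq (s := A ×ˢ S) (f := fun x => ‖z x.1 x.2‖)
    rw [sum_product, sum_product, card_product] at h6
    push_cast at h6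
    exact h6
  have h7 : ∀ E ∈ A, ∑ y ∈ S, ‖z E y‖ ^ 2 ≤ B.card * Z := by
    intro E hE
    refine le_trans (sum_le_sum_of_subset_of_nonneg hST fun _ _ _ => sq_nonneg _) ?_
    refine dual_sum k T B (fun b => (E : ℝ) ^ k * ((γ + b) / (D : ℝ) ^ k)) (fun b => a b E)
      (fun b _ => ha1 b E) Z ?_
    intro b hb
    refine le_trans (le_of_eq (sum_congr rfl fun b' _ => ?_)) (hrow b hb E hE)
    have h8 : (E : ℝ) ^ k * ((γ + b) / (D : ℝ) ^ k) - (E : ℝ) ^ k * ((γ + b') / (D : ℝ) ^ k) =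
        (E : ℝ) ^ k * (((b : ℝ) - b') / (D : ℝ) ^ k) := by ring
    rw [h8]
  have h9 : ((B.card : ℝ) * V) ^ 2 ≤
      (A.card * S.card : ℝ) * (A.card * (B.card * Z)) := by
    calc ((B.card : ℝ) * V) ^ 2 ≤ (∑ E ∈ A, ∑ y ∈ S, ‖z E y‖) ^ 2 := by
          have : 0 ≤ (B.card : ℝ) * V := by positivity
          gcongr
      _ ≤ (A.card * S.card : ℝ) * ∑ E ∈ A, ∑ y ∈ S, ‖z E y‖ ^ 2 := h5
      _ ≤ (A.card * S.card : ℝ) * ∑ E ∈ A, (B.card * Z : ℝ) := by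
          have := sum_le_sum h7
          gcongr
      _ = _ := by rw [sum_const, nsmul_eq_mul]
  have hBpos : (0 : ℝ) < B.card := by exact_mod_cast hB.card_pos
  have h10 : (B.card : ℝ) * (B.card * V ^ 2) ≤
      B.card * ((A.card : ℝ) ^ 2 * S.card * Z) := by
    calc (B.card : ℝ) * (B.card * V ^ 2) = ((B.card : ℝ) * V) ^ 2 := by ring
      _ ≤ _ := h9
      _ = _ := by ring
  exact le_of_mul_le_mul_left h10 hBpos

end Pool.Agent.Lib.MP_570bef_ntLV
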