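import Pool.Agent.Lib.MP_570bef_ntLV.FRow

/-!
# One step in `P`-power form
-/

set_option autoImplicit false

namespace Pool.Agent.Lib.MP_570bef_ntLV

open Finset
open Pool.Agent.Lib.MP_570bef_ntV.OF (cop TS Adm om NS row)

variable {PP : ℕ → Finset ℕ} {P : ℕ}

/-- normalized measure of the level set of the first `n` blocks -/
noncomputable def nu (PP : ℕ → Finset ℕ) (P k n : ℕ) (l : ℝ) : ℝ :=
  (P : ℝ) ^ (k * n) * lev k (PS PP (range n)) ((P : ℝ) ^ l)

theorem nu_nonneg (PP : ℕ → Finset ℕ) (P k n : ℕ) (l : ℝ) : 0 ≤ nu PP P k n l := by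
  unfold nu
  have := lev_nonneg k (PS PP (range n)) ((P : ℝ) ^ l)
  positivity

theorem nu_le (PP : ℕ → Finset ℕ) (P k n : ℕ) (l : ℝ) : nu PP P k n l ≤ (P : ℝ) ^ (k * n) := by
  unfold nu
  have := lev_le_one k (PS PP (range n)) ((P : ℝ) ^ l)
  calc (P : ℝ) ^ (k * n) * lev k (PS PP (range n)) ((P : ℝ) ^ l) ≤ (P : ℝ) ^ (k * n) * 1 := by
        gcongr
    _ = _ := mul_one _

theorem Blk.card_le (hB : Blk PP P) (i : ℕ) : (PP i).card ≤ P := by
  have h : PP i ⊆ Ioc P (2 * P) := fun p hp => mem_Ioc.2 ⟨hB.low i p hp, hB.upp i p hp⟩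
  refine (card_le_card h).trans ?_
  rw [Nat.card_Ioc]
  omega

theorem PS_card_le (hB : Blk PP P) (J : Finset ℕ) : (PS PP J).card ≤ P ^ J.card := by
  rw [PS_card_eq hB]
  exact prod_le_pow_card _ _ _ fun i _ => hB.card_le i

theorem polylog_le (A : ℝ) (B : ℕ) {kap : ℝ} (hkap : 0 < kap) :
    ∃ P0 : ℕ, ∀ P : ℕ, P0 ≤ P → A * Real.log P ^ B ≤ (P : ℝ) ^ kap := by
  have h1 : (fun x : ℝ => A * Real.log x ^ B) =o[Filter.atTop] fun x : ℝ => x ^ kap := by
    refine Asymptotics.IsLittleO.const_mul_left ?_ A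
    have h2 := isLittleO_log_rpow_rpow_atTop (s := kap) (B : ℝ) hkap
    simpa only [Real.rpow_natCast] using h2
  have h3 := (h1.bound (c := 1) one_pos).and (Filter.eventually_ge_atTop (1 : ℝ))
  rw [Filter.eventually_atTop] at h3
  obtain ⟨x0, hx0⟩ := h3
  refine ⟨⌈x0⌉₊, fun P hP => ?_⟩
  have h4 := hx0 (P : ℝ) ((Nat.le_ceil x0).trans (by exact_mod_cast hP))
  have h5 := h4.1
  rw [one_mul, Real.norm_eq_abs, Real.norm_eq_abs] at h5
  have h6 : (0 : ℝ) ≤ (P : ℝ) ^ kap := by positivity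
  rw [abs_of_nonneg h6] at h5
  exact (le_abs_self _).trans h5

open Classical in
/-- the step with explicit constants -/
theorem step_explicit (hB : Blk PP P) {k M : ℕ} (hk : 1 ≤ k) (hkP : k ≤ P) (hP : 0 < P) {n m : ℕ}
    (hnM : n ≤ M) (hm : 1 ≤ m) (hmn : m < n) {L : ℝ} (hL : 1 ≤ L) {W : ℕ} (hW : 2 * L ≤ 2 ^ W)
    {t u : ℝ} (ht : 1 ≤ t) (htP : t ≤ P)
    (hcard : ∀ i < M, 2 * (M : ℝ) * ((P : ℝ) / t) ≤ (PP i).card)
    (hu : ((2 * P : ℕ) : ℝ) ^ (n - m) ≤ u * (PS PP (range (n - m))).card) {Lam0 : ℝ}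
    (hLam0 : 2 * (8 * L * W) ^ 2 * u ≤ Lam0)
    (hNS : ∀ J' ⊆ Ico (n - m) n, ∀ D ∈ PS PP J', 2 * (D : ℝ) * Lam0 ≤ ((2 * P : ℕ) : ℝ) ^ (n - m) ∧
      NS k D ((2 * P) ^ (n - m)) Lam0) :
    lev k (PS PP (range n)) L ≤ 0 ∨ ∃ w < W, ∃ j ≤ m, 2 ^ (w + 1) * ((P : ℝ) / t) ^ j ≤ 4 * L * W ∧
      lev k (PS PP (range n)) L ≤ (W * 2 ^ m) * ((P : ℝ) ^ j *
        (4 * L * W / (((P : ℝ) / t) ^ j * 2 ^ (w + 1))) * (1 / (P : ℝ) ^ (k * (m - j))) *
        (4 * (2 * (k : ℝ) ^ 2) ^ m * (2 * (8 * L * W / ((P : ℝ) / t) ^ j) ^ 2 * u) ^ 2 *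
          lev k (PS PP (range (n - m))) (2 ^ (w + 1)))) := by
  set I := range (n - m) with hI
  set J := Ico (n - m) n with hJ
  set R : ℝ := (P : ℝ) / t with hR
  set s : ℝ := ((PS PP I).card : ℝ) with hs
  have hPr : (0 : ℝ) < P := by exact_mod_cast hP
  have ht0 : 0 < t := by linarith
  have hR1 : 1 ≤ R := by
    rw [hR, le_div_iff₀ ht0]
    linarith
  have hR0 : 0 < R := by linarith
  have hM0 : (0 : ℝ) < M := by
    have : 0 < M := by omega
    exact_mod_cast this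
  have hW0 : 0 < W := by
    rcases Nat.eq_zero_or_pos W with h | h
    · subst h
      simp at hW
      linarith
    · exact h
  have hWr : (0 : ℝ) < W := by exact_mod_cast hW0
  have hJc : J.card = m := by
    rw [hJ, Nat.card_Ico]
    omega
  have hIc : I.card = n - m := by rw [hI, card_range]
  have hdis : Disjoint J I := by
    rw [hJ, hI, Finset.disjoint_left]
    intro x hx hx'
    rw [mem_Ico] at hx
    rw [mem_range] at hx'
    omega
  have hun : J ∪ I = range n := by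
    ext x
    rw [hJ, hI, mem_union, mem_Ico, mem_range, mem_range]
    omega
  have hcardQ : ∀ i < M, 0 < (PP i).card := fun i hi => by
    have h1 := hcard i hi
    have h2 : 0 < 2 * (M : ℝ) * R := by positivity
    have h3 : (0 : ℝ) < (PP i).card := lt_of_lt_of_le h2 h1
    exact_mod_cast h3
  have hIne : (PS PP I).Nonempty := PS_nonempty hB I fun i hi => by
    rw [hI, mem_range] at hi
    exact card_pos.1 (hcardQ i (by omega))
  have hs0 : 0 < s := by rw [hs]; exact_mod_cast hIne.card_pos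
  set Y : ℕ := (2 * P) ^ (n - m) with hY
  have hYr : (Y : ℝ) = ((2 * P : ℕ) : ℝ) ^ (n - m) := by rw [hY]; push_cast; ring
  have hYu : (Y : ℝ) ≤ u * s := by rw [hYr]; exact hu
  have hsY : s ≤ Y := by
    rw [hs]
    have h1 : PS PP I ⊆ Icc 1 Y := by
      intro y hy
      rw [mem_Icc]
      refine ⟨(PS_prime_dvd hB I y hy).1, ?_⟩
      have := PS_le hB I y hy
      rwa [hIc] at this
    have h2 := card_le_card h1
    rw [Nat.card_Icc] at h2
    exact_mod_cast (by omega : (PS PP I).card ≤ Y)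
  have hY0 : (0 : ℝ) < Y := lt_of_lt_of_le hs0 hsY
  have hu0 : 0 < u := by
    by_contra hcon
    push Not at hcon
    nlinarith
  set C1 : ℝ := 4 * (2 * (k : ℝ) ^ 2) ^ m with hC1
  have hk1 : (1 : ℝ) ≤ 2 * (k : ℝ) ^ 2 := by
    have : (1 : ℝ) ≤ k := by exact_mod_cast hk
    nlinarith
  have hC10 : 0 < C1 := by rw [hC1]; positivity
  set Bm : ℕ → ℝ := fun j => C1 * (2 * (8 * L * W / R ^ j) ^ 2 * u) ^ 2 with hBm
  have hstep := step_sum hB hP k hdis hIne hL hW (R := R) (Q := 2 * M * R) hR1 (by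
      rw [hJc]
      have : (m : ℝ) ≤ M := by exact_mod_cast (by omega : m ≤ M)
      gcongr) (by positivity) (fun i hi => by
      rw [hJ, mem_Ico] at hi
      exact hcard i (by omega)) Bm (fun j => by rw [hBm]; positivity) (by
    intro Jc hJcs hcond D hD γ
    set Lp : ℝ := 8 * L * W / R ^ Jc.card with hLp
    have hRj : 0 < R ^ Jc.card := by positivity
    have hLp4 : 4 ≤ Lp := by
      rw [hLp, le_div_iff₀ hRj]
      linarith
    have hLp0 : 0 < Lp := by linarith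
    have hLple : Lp ≤ 8 * L * W := by
      rw [hLp]
      exact div_le_self (by positivity) (one_le_pow₀ hR1)
    set Lam : ℝ := 2 * Lp ^ 2 * (Y / s) with hLam
    have hYs : 1 ≤ (Y : ℝ) / s := by
      rw [le_div_iff₀ hs0]
      linarith
    have hYsu : (Y : ℝ) / s ≤ u := by
      rw [div_le_iff₀ hs0]
      exact hYu
    have hLam1 : 1 ≤ Lam := by
      rw [hLam]
      have : 1 ≤ 2 * Lp ^ 2 := by nlinarith
      nlinarith
    have hLamle : Lam ≤ Lam0 := by
      refine le_trans ?_ hLam0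
      rw [hLam]
      gcongr
    have hsd : J \ Jc ⊆ J := sdiff_subset
    obtain ⟨hD2, hD3⟩ := hNS (J \ Jc) hsd D hD
    have hfc := fib_count hB hk hkP (I := I) (J := J \ Jc) (hdis.mono_left hsd) hIne hD
      (Y := Y) (by rw [hIc]) (Lam := Lam) (Lp := Lp) hLam1 (by
        rw [hYr]
        refine le_trans ?_ hD2
        gcongr) (NS_mono hD3 (by linarith) hLamle) hLp0 (by
        rw [hLam, hs]
        have : (s : ℝ) ≠ 0 := hs0.ne'
        rw [← hs]
        field_simp) γ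
    have h1 : (1 : ℝ) / Lp = R ^ Jc.card / (8 * L * W) := by
      rw [hLp, one_div_div]
    rw [h1] at hfc
    refine hfc.trans ?_
    have h2 : (J \ Jc).card ≤ m := by
      rw [← hJc]
      exact card_le_card sdiff_subset
    have h3 : 4 * (2 * (k : ℝ) ^ 2) ^ (J \ Jc).card ≤ C1 := by
      rw [hC1]
      have := pow_le_pow_right₀ hk1 h2
      linarith
    have h4 : Lam ≤ 2 * (8 * L * W / R ^ Jc.card) ^ 2 * u := by
      rw [hLam]
      gcongr
    have h5 : 0 ≤ Lam := by linarith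
    rw [hBm]
    simp only
    gcongr)
  rw [hun] at hstep
  -- the maximal term
  set g : ℕ × Finset ℕ → ℝ := fun z =>
    if 2 ^ (z.1 + 1) * R ^ z.2.card ≤ 4 * L * W then
        (PS PP z.2).card * (2 * L * W / (R ^ z.2.card * 2 ^ z.1)) *
          (1 / (P : ℝ) ^ (k * (J \ z.2).card)) *
          (Bm z.2.card * lev k (PS PP I) (2 ^ (z.1 + 1)))
      else 0 with hg
  have hsum : lev k (PS PP (range n)) L ≤ ∑ z ∈ range W ×ˢ J.powerset, g z := by
    rw [sum_product]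
    exact hstep
  obtain ⟨z0, hz0, hmax⟩ := exists_max_image (range W ×ˢ J.powerset) g
    ⟨(0, ∅), mem_product.2 ⟨mem_range.2 hW0, mem_powerset.2 (empty_subset _)⟩⟩
  have hsum2 : lev k (PS PP (range n)) L ≤ (W * 2 ^ m) * g z0 := by
    refine hsum.trans ((sum_le_card_nsmul _ _ _ hmax).trans (le_of_eq ?_))
    rw [card_product, card_range, card_powerset, hJc, nsmul_eq_mul]
    push_cast
    ring
  rw [mem_product, mem_range, mem_powerset] at hz0
  by_cases hcond : 2 ^ (z0.1 + 1) * R ^ z0.2.card ≤ 4 * L * W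
  swap
  · left
    rw [hg] at hsum2
    simp only at hsum2
    rw [if_neg hcond, mul_zero] at hsum2
    exact hsum2
  right
  have hjm : z0.2.card ≤ m := by
    rw [← hJc]
    exact card_le_card hz0.2
  refine ⟨z0.1, hz0.1, z0.2.card, hjm, hcond, hsum2.trans ?_⟩
  rw [hg]
  simp only
  rw [if_pos hcond]
  have h1 : (J \ z0.2).card = m - z0.2.card := by
    rw [card_sdiff_of_subset hz0.2, hJc]
  rw [h1]
  have h2 : ((PS PP z0.2).card : ℝ) ≤ (P : ℝ) ^ z0.2.card := by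
    exact_mod_cast PS_card_le hB z0.2
  have h3 : 2 * L * W / (R ^ z0.2.card * 2 ^ z0.1) =
      4 * L * W / (R ^ z0.2.card * 2 ^ (z0.1 + 1)) := by
    rw [pow_succ]
    field_simp
    ring
  rw [h3]
  have h4 := lev_nonneg k (PS PP I) (2 ^ (z0.1 + 1))
  have h5 : 0 ≤ Bm z0.2.card * lev k (PS PP I) (2 ^ (z0.1 + 1)) := by
    have : 0 ≤ Bm z0.2.card := by rw [hBm]; positivity
    positivity
  have h6 : Bm z0.2.card = 4 * (2 * (k : ℝ) ^ 2) ^ m * (2 * (8 * L * W / R ^ z0.2.card) ^ 2 * u) ^ 2 := rfl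
  rw [← h6]
  gcongr

end Pool.Agent.Lib.MP_570bef_ntLV
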