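import Pool.Agent.Lib.MP_570bef_ntLV.FStep
import Pool.Agent.Lib.MP_570bef_ntLV.FFib
import Pool.Agent.Lib.MP_570bef_ntV.OF.RwB

/-!
# From the row sums to the number of large values in a fibre
-/

set_option autoImplicit false

namespace Pool.Agent.Lib.MP_570bef_ntLV

open Finset
open Pool.Agent.Lib.MP_570bef_ntV.OF (cop TS Adm om NS row)

variable {PP : ℕ → Finset ℕ} {P : ℕ}

theorem ee_eq (x : ℝ) : ee x = Pool.Agent.Lib.MP_2a816b_nt.e x := by
  rw [ee, Pool.Agent.Lib.MP_2a816b_nt.e]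
  congr 1
  ring

theorem PS_squarefree (hB : Blk PP P) (J : Finset ℕ) : ∀ x ∈ PS PP J, Squarefree x := by
  classical
  induction J using Finset.induction_on with
  | empty =>
    intro x hx
    rw [PS_empty, mem_singleton] at hx
    subst hx
    exact squarefree_one
  | insert i J hi ih =>
    intro x hx
    have hx' := hx
    rw [PS_insert hi] at hx
    obtain ⟨a, ha, b, hb, rfl⟩ := mem_mul.1 hx
    have hcop : a.Coprime b := PS_coprime hB (J := {i}) (J' := J) (by simpa using hi)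
      (by rw [PS_singleton]; exact ha) hb
    exact (Nat.squarefree_mul hcop).2 ⟨(hB.prime i a ha).squarefree, ih b hb⟩

theorem PS_adm (hB : Blk PP P) {k : ℕ} (hkP : k ≤ P) (J : Finset ℕ) {x : ℕ} (hx : x ∈ PS PP J) :
    Adm k x := by
  refine ⟨PS_squarefree hB J x hx, fun p hp hpx => ?_⟩
  obtain ⟨i, _, hpi⟩ := (PS_prime_dvd hB J x hx).2 p hp hpx
  exact lt_of_le_of_lt hkP (hB.low i p hpi)

theorem NS_mono {k E Y : ℕ} {L L' : ℝ} (h : NS k E Y L) (hL' : 0 < L') (hLL : L' ≤ L) :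
    NS k E Y L' := by
  intro q n hq hn hsq
  refine (h q n hq hn hsq).trans ?_
  gcongr

theorem PS_sub_cop (hB : Blk PP P) {I J : Finset ℕ} (h : Disjoint J I) {D : ℕ}
    (hD : D ∈ PS PP J) {Y : ℕ} (hY : (2 * P) ^ I.card ≤ Y) : PS PP I ⊆ cop D Y := by
  intro y hy
  rw [cop, mem_filter, mem_Icc]
  exact ⟨⟨(PS_prime_dvd hB I y hy).1, (PS_le hB I y hy).trans hY⟩, PS_coprime hB h.symm hy hD⟩

/-- row sums of the kernel, from `row` -/
theorem row_fs (k D Y : ℕ) (Lam : ℝ) (hk : 1 ≤ k) (hA : Adm k D) (hL : 1 ≤ Lam)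
    (h2 : 2 * (D : ℝ) * Lam ≤ Y) (hNS : NS k D Y Lam) (B : Finset ℕ)
    (hB : ∀ b' ∈ B, b' < D ^ k) (b : ℕ) (E : ℕ) (hE : E.Coprime D) :
    ∑ b' ∈ B, ‖fs k (cop D Y) ((E : ℝ) ^ k * (((b : ℝ) - b') / (D : ℝ) ^ k))‖ ≤
      B.card * ((Y : ℝ) / Lam) + 4 * (2 * (k : ℝ) ^ 2) ^ om D * Y * Lam := by
  have h := row k D Y Lam hk hA hL h2 hNS B hB b (E ^ k) (Nat.Coprime.pow_left k hE)
  refine le_trans (le_of_eq (sum_congr rfl fun b' _ => ?_)) h
  congr 1
  rw [fs]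
  refine sum_congr rfl fun y _ => ?_
  rw [ee_eq]
  congr 1
  push_cast
  ring

open Classical in
/-- number of large values in a fibre -/
theorem fib_count (hB : Blk PP P) {k : ℕ} (hk : 1 ≤ k) (hkP : k ≤ P) {I J : Finset ℕ}
    (h : Disjoint J I) (hI : (PS PP I).Nonempty) {D : ℕ} (hD : D ∈ PS PP J) {Y : ℕ}
    (hY : (2 * P) ^ I.card ≤ Y) {Lam Lp : ℝ} (hLam : 1 ≤ Lam) (h2 : 2 * (D : ℝ) * Lam ≤ Y)
    (hNS : NS k D Y Lam) (hLp : 0 < Lp) (hLL : 2 * Lp ^ 2 * Y = Lam * (PS PP I).card) (γ : ℝ) :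
    (((range (D ^ k)).filter (fun b : ℕ => ((PS PP J).card : ℝ) * (PS PP I).card * (1 / Lp) ≤
      Fst k (PS PP I) (PS PP J) D ((γ + b) / (D : ℝ) ^ k))).card : ℝ) ≤
      4 * (2 * (k : ℝ) ^ 2) ^ J.card * Lam ^ 2 := by
  set B := (range (D ^ k)).filter (fun b : ℕ => ((PS PP J).card : ℝ) * (PS PP I).card * (1 / Lp) ≤
      Fst k (PS PP I) (PS PP J) D ((γ + b) / (D : ℝ) ^ k)) with hBdef
  set V : ℝ := ((PS PP J).card : ℝ) * (PS PP I).card * (1 / Lp) with hV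
  set A := (PS PP J).filter (fun E => E.Coprime D) with hA
  set s : ℝ := ((PS PP I).card : ℝ) with hs
  set a : ℝ := ((PS PP J).card : ℝ) with ha
  have hs0 : 0 < s := by rw [hs]; exact_mod_cast hI.card_pos
  have ha0 : 0 < a := by
    rw [ha]
    exact_mod_cast card_pos.2 ⟨D, hD⟩
  set C1 : ℝ := 4 * (2 * (k : ℝ) ^ 2) ^ J.card with hC1
  have hk1 : (1 : ℝ) ≤ 2 * (k : ℝ) ^ 2 := by
    have : (1 : ℝ) ≤ k := by exact_mod_cast hk
    nlinarith
  have hC1' : 4 * (2 * (k : ℝ) ^ 2) ^ om D ≤ C1 := by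
    rw [hC1]
    have h3 : om D ≤ J.card := PS_primeFactors hB J D hD
    have := pow_le_pow_right₀ hk1 h3
    linarith
  have hY0 : (0 : ℝ) ≤ Y := Nat.cast_nonneg _
  have hLam0 : 0 < Lam := by linarith
  have hZ : 0 ≤ B.card * ((Y : ℝ) / Lam) + C1 * Y * Lam := by positivity
  have hfib := fibre k D (PS PP I) A (cop D Y) (PS_sub_cop hB h hD hY) B
    (B.card * ((Y : ℝ) / Lam) + C1 * Y * Lam) hZ (fun b _ E hE => by
      rw [hA, mem_filter] at hE
      refine (row_fs k D Y Lam hk (PS_adm hB hkP J hD) hLam h2 hNS B (fun b' hb' => ?_) b E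
        hE.2).trans ?_
      · rw [hBdef, mem_filter, mem_range] at hb'
        exact hb'.1
      · gcongr) γ V (by positivity) (fun b hb => by
      rw [hBdef, mem_filter] at hb
      exact hb.2)
  have hAle : (A.card : ℝ) ≤ a := by
    rw [hA, ha]
    exact_mod_cast card_filter_le _ _
  have h5 : (B.card : ℝ) * V ^ 2 ≤ a ^ 2 * s * (B.card * ((Y : ℝ) / Lam) + C1 * Y * Lam) := by
    refine hfib.trans ?_
    gcongr
  have h6 : (B.card : ℝ) * V ^ 2 = (a ^ 2 * s) * (B.card * s / Lp ^ 2) := by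
    rw [hV]
    field_simp
  rw [h6] at h5
  have h7 := le_of_mul_le_mul_left h5 (by positivity)
  rw [div_le_iff₀ (by positivity)] at h7
  -- `Y / Lam * Lp² = s / 2`
  have h8 : (Y : ℝ) / Lam * Lp ^ 2 = s / 2 := by
    field_simp
    linarith
  have h9 : (Y : ℝ) * Lam * Lp ^ 2 = Lam ^ 2 * s / 2 := by
    have : (Y : ℝ) * Lp ^ 2 = Lam * s / 2 := by linarith
    calc (Y : ℝ) * Lam * Lp ^ 2 = Lam * (Y * Lp ^ 2) := by ring
      _ = _ := by rw [this]; ring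
  have h10 : (B.card * ((Y : ℝ) / Lam) + C1 * Y * Lam) * Lp ^ 2 =
      B.card * (s / 2) + C1 * (Lam ^ 2 * s / 2) := by
    calc (B.card * ((Y : ℝ) / Lam) + C1 * Y * Lam) * Lp ^ 2
        = B.card * ((Y : ℝ) / Lam * Lp ^ 2) + C1 * (Y * Lam * Lp ^ 2) := by ring
      _ = _ := by rw [h8, h9]
  rw [h10] at h7
  have h11 : (B.card : ℝ) * s ≤ (C1 * Lam ^ 2) * s := by nlinarith
  exact le_of_mul_le_mul_right h11 hs0

end Pool.Agent.Lib.MP_570bef_ntLV
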