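import Pool.Agent.Lib.MP_570bef_ntLV.FCover
import Pool.Agent.Lib.MP_570bef_ntLV.FCov

/-!
# One step of the recursion
-/

set_option autoImplicit false

namespace Pool.Agent.Lib.MP_570bef_ntLV

open Finset MeasureTheory
open scoped Pointwise

variable {PP : ℕ → Finset ℕ} {P : ℕ}

/-- points `β` for which `D` is good -/
def cset (k : ℕ) (S A : Finset ℕ) (D : ℕ) (t V : ℝ) : Set ℝ :=
  {β | (S.card : ℝ) ≤ t * ‖fs k S ((D : ℝ) ^ k * β)‖} ∩ {β | V ≤ Fst k S A D β}

theorem isClosed_cset (k : ℕ) (S A : Finset ℕ) (D : ℕ) (t V : ℝ) :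
    IsClosed (cset k S A D t V) := by
  unfold cset
  refine IsClosed.inter ?_ ?_
  · exact isClosed_le continuous_const
      (continuous_const.mul (continuous_norm.comp ((continuous_fs k S).comp (by fun_prop))))
  · refine isClosed_le continuous_const ?_
    unfold Fst
    exact continuous_finsetSum _ fun E _ =>
      continuous_norm.comp ((continuous_fs k S).comp (by fun_prop))

theorem Fst_add_nat (k : ℕ) (S A : Finset ℕ) (D : ℕ) (β : ℝ) (n : ℕ) :
    Fst k S A D (β + n) = Fst k S A D β := by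
  unfold Fst
  refine sum_congr rfl fun E _ => ?_
  have : (E : ℝ) ^ k * (β + n) = (E : ℝ) ^ k * β + ((E ^ k * n : ℕ) : ℝ) := by
    push_cast
    ring
  rw [this, fs_add_nat]

theorem ind_cset_add_nat (k : ℕ) (S A : Finset ℕ) (D : ℕ) (t V β : ℝ) (n : ℕ) :
    ind (cset k S A D t V) (β + n) = ind (cset k S A D t V) β := by
  have h1 : β + n ∈ cset k S A D t V ↔ β ∈ cset k S A D t V := by
    have h2 : (D : ℝ) ^ k * (β + n) = (D : ℝ) ^ k * β + ((D ^ k * n : ℕ) : ℝ) := by
      push_cast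
      ring
    change ((S.card : ℝ) ≤ t * ‖fs k S ((D : ℝ) ^ k * (β + n))‖ ∧ V ≤ Fst k S A D (β + n)) ↔
      ((S.card : ℝ) ≤ t * ‖fs k S ((D : ℝ) ^ k * β)‖ ∧ V ≤ Fst k S A D β)
    rw [h2, fs_add_nat, Fst_add_nat]
  by_cases h : β ∈ cset k S A D t V
  · rw [ind_of_mem h, ind_of_mem (h1.2 h)]
  · rw [ind_of_notMem h, ind_of_notMem (fun h' => h (h1.1 h'))]

open Classical in
/-- measure of `cset` through the fibres of `β ↦ D^k β` -/
theorem cset_int (k : ℕ) (S A : Finset ℕ) (D : ℕ) (hD : 0 < D) (t V Bm : ℝ) (ht : 0 < t)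
    (hBm : 0 ≤ Bm)
    (hfib : ∀ γ : ℝ, (((range (D ^ k)).filter
      (fun b : ℕ => V ≤ Fst k S A D ((γ + b) / (D : ℝ) ^ k))).card : ℝ) ≤ Bm) :
    ∫ x in (0 : ℝ)..1, ind (cset k S A D t V) x ≤ (1 / (D : ℝ) ^ k) * (Bm * lev k S t) := by
  have hDr : (D : ℝ) ≠ 0 := by exact_mod_cast hD.ne'
  rw [fib_int (measurable_ind (isClosed_cset k S A D t V).measurableSet) (ind_abs _) (D ^ k)
    (by positivity)]
  push_cast
  have h0 : (0 : ℝ) ≤ 1 / (D : ℝ) ^ k := by positivity
  refine mul_le_mul_of_nonneg_left ?_ h0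
  rw [lev_eq, ← intervalIntegral.integral_const_mul]
  refine intervalIntegral.integral_mono_on zero_le_one ?_ ?_ fun x _ => ?_
  · refine ii_of_bdd (C := ∑ b ∈ range (D ^ k), (1 : ℝ)) ?_ (fun x => ?_) _ _
    · refine Finset.measurable_fun_sum _ fun b _ => ?_
      exact (measurable_ind (isClosed_cset k S A D t V).measurableSet).comp (by fun_prop)
    · rw [abs_of_nonneg (sum_nonneg fun _ _ => ind_nonneg _ _)]
      exact sum_le_sum fun _ _ => ind_le_one _ _
  · refine ii_of_bdd (C := Bm) ?_ (fun x => ?_) _ _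
    · exact (measurable_ind (isClosed_lset k S t).measurableSet).const_mul _
    · rw [abs_mul, abs_of_nonneg hBm]
      calc Bm * |ind (lset k S t) x| ≤ Bm * 1 := by
            have := ind_abs (lset k S t) x
            gcongr
        _ = Bm := mul_one _
  · -- pointwise bound
    by_cases hx : x ∈ lset k S t
    · rw [ind_of_mem hx, mul_one]
      refine le_trans ?_ (hfib x)
      rw [card_filter]
      push_cast
      refine sum_le_sum fun b _ => ?_
      by_cases hb : (x + b) / (D : ℝ) ^ k ∈ cset k S A D t V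
      · have hb2 : V ≤ Fst k S A D ((x + b) / (D : ℝ) ^ k) := hb.2
        rw [if_pos hb2]
        exact ind_le_one _ _
      · rw [ind_of_notMem hb]
        split_ifs
        · exact zero_le_one
        · exact le_rfl
    · rw [ind_of_notMem hx, mul_zero]
      refine sum_nonpos fun b _ => ?_
      rw [ind_of_notMem]
      intro hb
      apply hx
      have h1 : (S.card : ℝ) ≤ t * ‖fs k S ((D : ℝ) ^ k * ((x + b) / (D : ℝ) ^ k))‖ := hb.1
      rw [mul_div_cancel₀ _ (pow_ne_zero k hDr), fs_add_nat] at h1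
      change (S.card : ℝ) / t ≤ ‖fs k S x‖
      rw [div_le_iff₀ ht, mul_comm]
      exact h1

theorem ii_sum {ι : Type*} (s : Finset ι) (g : ι → ℝ → ℝ) {a b : ℝ}
    (h : ∀ i ∈ s, IntervalIntegrable (g i) volume a b) :
    IntervalIntegrable (fun x => ∑ i ∈ s, g i x) volume a b := by
  have h1 := IntervalIntegrable.sum s (f := g) h
  have h2 : (fun x => ∑ i ∈ s, g i x) = ∑ i ∈ s, g i := by
    funext x
    rw [Finset.sum_apply]
  rw [h2]
  exact h1

open Classical in
/-- **One step** (sum form). -/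
theorem step_sum (hB : Blk PP P) (hP : 0 < P) (k : ℕ) {I J : Finset ℕ} (hIJ : Disjoint J I)
    (hI : (PS PP I).Nonempty) {L : ℝ} (hL : 1 ≤ L) {W : ℕ} (hW : 2 * L ≤ 2 ^ W) {R Q : ℝ}
    (hR : 1 ≤ R) (hQ : 2 * J.card * R ≤ Q) (hQ0 : 0 < Q) (hcard : ∀ i ∈ J, Q ≤ (PP i).card)
    (Bm : ℕ → ℝ) (hBm : ∀ j, 0 ≤ Bm j)
    (hfib : ∀ Jc ⊆ J, 2 * R ^ Jc.card ≤ 4 * L * W → ∀ D ∈ PS PP (J \ Jc), ∀ γ : ℝ,
      (((range (D ^ k)).filter (fun b : ℕ =>
      ((PS PP (J \ Jc)).card : ℝ) * (PS PP I).card * (R ^ Jc.card / (8 * L * W)) ≤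
        Fst k (PS PP I) (PS PP (J \ Jc)) D ((γ + b) / (D : ℝ) ^ k))).card : ℝ) ≤ Bm Jc.card) :
    lev k (PS PP (J ∪ I)) L ≤ ∑ w ∈ range W, ∑ Jc ∈ J.powerset,
      if 2 ^ (w + 1) * R ^ Jc.card ≤ 4 * L * W then
        (PS PP Jc).card * (2 * L * W / (R ^ Jc.card * 2 ^ w)) *
          (1 / (P : ℝ) ^ (k * (J \ Jc).card)) * (Bm Jc.card * lev k (PS PP I) (2 ^ (w + 1)))
      else 0 := by
  have hL0 : 0 < L := by linarith
  have hR0 : 0 < R := by linarith
  have hPr : (0 : ℝ) < P := by exact_mod_cast hP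
  have hne : ∀ J' ⊆ J, (PS PP J').Nonempty := fun J' hJ' => PS_nonempty hB J' fun i hi => by
    rw [← card_pos]
    have := hcard i (hJ' hi)
    have h1 : (0 : ℝ) < (PP i).card := by linarith
    exact_mod_cast h1
  -- the sets
  set V : Finset ℕ → ℝ := fun Jc =>
    ((PS PP (J \ Jc)).card : ℝ) * (PS PP I).card * (R ^ Jc.card / (8 * L * W)) with hV
  set C : ℕ → Finset ℕ → ℕ → Set ℝ := fun w Jc D =>
    cset k (PS PP I) (PS PP (J \ Jc)) D (2 ^ (w + 1)) (V Jc) with hC
  set co : ℕ → Finset ℕ → ℝ := fun w Jc =>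
    2 * L * W / (R ^ Jc.card * 2 ^ w * (PS PP (J \ Jc)).card) with hco
  have hco0 : ∀ w Jc, 0 ≤ co w Jc := fun w Jc => by
    rw [hco]
    positivity
  set H : ℕ → Finset ℕ → ℕ → ℝ → ℝ := fun w Jc D x =>
    ∑ c ∈ PS PP Jc, ind (C w Jc D) ((c : ℝ) ^ k * x) with hH
  have hH0 : ∀ w Jc D x, 0 ≤ H w Jc D x := fun w Jc D x => sum_nonneg fun _ _ => ind_nonneg _ _
  have hmeas : ∀ w Jc D, Measurable (ind (C w Jc D)) := fun w Jc D =>
    measurable_ind (isClosed_cset _ _ _ _ _ _).measurableSet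
  have hHm : ∀ w Jc D, Measurable (H w Jc D) := fun w Jc D => by
    rw [hH]
    exact Finset.measurable_fun_sum _ fun c _ => (hmeas w Jc D).comp (by fun_prop)
  have hHb : ∀ w Jc D x, |H w Jc D x| ≤ (PS PP Jc).card := fun w Jc D x => by
    rw [abs_of_nonneg (hH0 w Jc D x), hH]
    simp only
    refine (sum_le_sum fun c _ => ind_le_one _ _).trans ?_
    simp
  set G : ℝ → ℝ := fun x => ∑ w ∈ range W, ∑ Jc ∈ J.powerset,
    if 2 ^ (w + 1) * R ^ Jc.card ≤ 4 * L * W then
      co w Jc * ∑ D ∈ PS PP (J \ Jc), H w Jc D x else 0 with hG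
  -- the pointwise inequality
  have hpt : ∀ x, ind (lset k (PS PP (J ∪ I)) L) x ≤ G x := by
    intro x
    have hterm : ∀ w ∈ range W, ∀ Jc ∈ J.powerset, 0 ≤
        (if 2 ^ (w + 1) * R ^ Jc.card ≤ 4 * L * W then
          co w Jc * ∑ D ∈ PS PP (J \ Jc), H w Jc D x else 0) := by
      intro w _ Jc _
      split_ifs
      · exact mul_nonneg (hco0 _ _) (sum_nonneg fun _ _ => hH0 _ _ _ _)
      · exact le_rfl
    by_cases hx : x ∈ lset k (PS PP (J ∪ I)) L
    · obtain ⟨w, hw, Jc, hJc, c, hc, hcond, hgd⟩ :=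
        cover hB k hIJ hI hL hW hR hQ hQ0 hcard (α := x) hx
      rw [ind_of_mem hx]
      have h1 : (if 2 ^ (w + 1) * R ^ Jc.card ≤ 4 * L * W then
          co w Jc * ∑ D ∈ PS PP (J \ Jc), H w Jc D x else 0) ≤ G x := by
        rw [hG]
        simp only
        refine le_trans ?_ (single_le_sum (fun w hw => sum_nonneg fun Jc hJc => hterm w hw Jc hJc)
          (mem_range.2 hw))
        exact single_le_sum (fun Jc hJc => hterm w (mem_range.2 hw) Jc hJc) (mem_powerset.2 hJc)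
      refine le_trans ?_ h1
      rw [if_pos hcond]
      have hWr : (0 : ℝ) < W := by
        have : 0 < W := by omega
        exact_mod_cast this
      have hA' : (0 : ℝ) < (PS PP (J \ Jc)).card := by
        exact_mod_cast (hne _ sdiff_subset).card_pos
      have h2 : ((gd k (PS PP I) (PS PP (J \ Jc)) (2 ^ (w + 1)) (V Jc)
          ((c : ℝ) ^ k * x)).card : ℝ) ≤ ∑ D ∈ PS PP (J \ Jc), H w Jc D x := by
        rw [gd, card_filter]
        push_cast
        refine sum_le_sum fun D _ => ?_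
        have h3 : ind (C w Jc D) ((c : ℝ) ^ k * x) ≤ H w Jc D x := by
          rw [hH]
          exact single_le_sum (f := fun c : ℕ => ind (C w Jc D) ((c : ℝ) ^ k * x))
            (fun _ _ => ind_nonneg _ _) hc
        refine le_trans ?_ h3
        split_ifs with hcase
        · rw [ind_of_mem]
          exact ⟨hcase.1, hcase.2⟩
        · exact ind_nonneg _ _
      calc (1 : ℝ) = co w Jc * (R ^ Jc.card * 2 ^ w * (PS PP (J \ Jc)).card / (2 * L * W)) := by
            rw [hco]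
            field_simp
        _ ≤ co w Jc * (gd k (PS PP I) (PS PP (J \ Jc)) (2 ^ (w + 1)) (V Jc)
              ((c : ℝ) ^ k * x)).card := by
            refine mul_le_mul_of_nonneg_left ?_ (hco0 _ _)
            rw [div_le_iff₀ (by positivity), mul_comm _ (2 * L * (W : ℝ))]
            exact hgd
        _ ≤ _ := mul_le_mul_of_nonneg_left h2 (hco0 _ _)
    · rw [ind_of_notMem hx, hG]
      exact sum_nonneg fun w hw => sum_nonneg fun Jc hJc => hterm w hw Jc hJc
  -- integrate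
  rw [lev_eq]
  have hGint : ∀ w Jc, IntervalIntegrable (fun x => if 2 ^ (w + 1) * R ^ Jc.card ≤ 4 * L * W then
      co w Jc * ∑ D ∈ PS PP (J \ Jc), H w Jc D x else 0) volume 0 1 := by
    intro w Jc
    by_cases hcond : 2 ^ (w + 1) * R ^ Jc.card ≤ 4 * L * W
    · simp only [if_pos hcond]
      refine IntervalIntegrable.const_mul ?_ _
      refine ii_of_bdd (C := ∑ D ∈ PS PP (J \ Jc), ((PS PP Jc).card : ℝ))
        (Finset.measurable_fun_sum _ fun D _ => hHm w Jc D) (fun x => ?_) _ _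
      refine (abs_sum_le_sum_abs _ _).trans (sum_le_sum fun D _ => hHb w Jc D x)
    · simp only [if_neg hcond]
      exact intervalIntegrable_const
  have hint : ∫ x in (0 : ℝ)..1, ind (lset k (PS PP (J ∪ I)) L) x ≤
      ∫ x in (0 : ℝ)..1, G x := by
    refine intervalIntegral.integral_mono_on zero_le_one
      (ii_of_bdd (measurable_ind (isClosed_lset _ _ _).measurableSet) (ind_abs _) _ _) ?_
      fun x _ => hpt x
    rw [hG]
    exact ii_sum _ _ fun w _ => ii_sum _ _ fun Jc _ => hGint w Jc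
  refine hint.trans ?_
  rw [hG]
  rw [intervalIntegral.integral_finsetSum fun w _ => ii_sum _ _ fun Jc _ => hGint w Jc]
  refine sum_le_sum fun w _ => ?_
  rw [intervalIntegral.integral_finsetSum fun Jc _ => hGint w Jc]
  refine sum_le_sum fun Jc hJc => ?_
  by_cases hcond : 2 ^ (w + 1) * R ^ Jc.card ≤ 4 * L * W
  swap
  · simp only [if_neg hcond]
    simp
  simp only [if_pos hcond]
  rw [mem_powerset] at hJc
  rw [intervalIntegral.integral_const_mul, intervalIntegral.integral_finsetSum fun D _ =>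
    ii_of_bdd (hHm w Jc D) (hHb w Jc D) 0 1]
  have hA' : (0 : ℝ) < (PS PP (J \ Jc)).card := by
    exact_mod_cast (hne _ sdiff_subset).card_pos
  -- each `D`
  have hDint : ∀ D ∈ PS PP (J \ Jc), ∫ x in (0 : ℝ)..1, H w Jc D x ≤
      (PS PP Jc).card * ((1 / (P : ℝ) ^ (k * (J \ Jc).card)) *
        (Bm Jc.card * lev k (PS PP I) (2 ^ (w + 1)))) := by
    intro D hD
    have hD0 : 0 < D := (PS_prime_dvd hB _ D hD).1
    rw [hH]
    simp only
    have hci : ∀ c ∈ PS PP Jc, IntervalIntegrable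
        (fun x : ℝ => ind (C w Jc D) ((c : ℝ) ^ k * x)) volume 0 1 := fun c _ =>
      ii_of_bdd (C := 1) ((hmeas w Jc D).comp (by fun_prop)) (fun x => ind_abs _ _) 0 1
    rw [intervalIntegral.integral_finsetSum hci, ← nsmul_eq_mul, ← sum_const]
    refine sum_le_sum fun c hc => ?_
    have hc0 : 0 < c := (PS_prime_dvd hB _ c hc).1
    have h4 := mul_int (hmeas w Jc D) (ind_abs _)
      (fun x n => ind_cset_add_nat _ _ _ _ _ _ x n) (c ^ k) (by positivity)
    push_cast at h4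
    rw [h4]
    have hcond' : 2 * R ^ Jc.card ≤ 4 * L * W := by
      refine le_trans ?_ hcond
      have h8 : (2 : ℝ) ≤ 2 ^ (w + 1) := by
        rw [pow_succ]
        have : (1 : ℝ) ≤ 2 ^ w := one_le_pow₀ (by norm_num)
        linarith
      gcongr
    refine (cset_int k (PS PP I) (PS PP (J \ Jc)) D hD0 (2 ^ (w + 1)) (V Jc) (Bm Jc.card)
      (by positivity) (hBm _) (hfib Jc hJc hcond' D hD)).trans ?_
    have h5 : (P : ℝ) ^ (k * (J \ Jc).card) ≤ (D : ℝ) ^ k := by
      rw [mul_comm k, pow_mul]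
      have : (P : ℝ) ^ (J \ Jc).card ≤ D := by exact_mod_cast le_PS hB _ D hD
      gcongr
    have h6 : 0 ≤ Bm Jc.card * lev k (PS PP I) (2 ^ (w + 1)) :=
      mul_nonneg (hBm _) (lev_nonneg _ _ _)
    have h7 : (0 : ℝ) < (P : ℝ) ^ (k * (J \ Jc).card) := by positivity
    gcongr
  calc co w Jc * ∑ D ∈ PS PP (J \ Jc), ∫ x in (0 : ℝ)..1, H w Jc D x
      ≤ co w Jc * ∑ D ∈ PS PP (J \ Jc), (PS PP Jc).card *
          ((1 / (P : ℝ) ^ (k * (J \ Jc).card)) *
          (Bm Jc.card * lev k (PS PP I) (2 ^ (w + 1)))) :=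
        mul_le_mul_of_nonneg_left (sum_le_sum hDint) (hco0 _ _)
    _ = _ := by
        rw [sum_const, nsmul_eq_mul, hco]
        simp only
        field_simp

end Pool.Agent.Lib.MP_570bef_ntLV
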